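import Mathlib
import Pool.Agent.W762.EC.PntA
import Pool.Agent.TH988.RB.Lan

set_option autoImplicit false

/-!
# The error term of the prime number theorem and its integrals
-/

open MeasureTheory Filter Topology Set

namespace Pool.Agent.X112.RO

open Pool.Agent.W263.BSD (LInt lap lapC)

noncomputable section

/-- the relative error `ψ(e^v) e^{-v} - 1` -/
def rr (v : ℝ) : ℝ := Chebyshev.psi (Real.exp v) * Real.exp (-v) - 1

lemma psi_meas : Measurable Chebyshev.psi := Chebyshev.psi_mono.measurable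

lemma theta_meas : Measurable Chebyshev.theta := Chebyshev.theta_mono.measurable

lemma rr_meas : Measurable rr := by
  unfold rr
  exact ((psi_meas.comp Real.measurable_exp).mul (by fun_prop)).sub_const 1

lemma rr_bd (v : ℝ) : |rr v| ≤ 10 := by
  unfold rr
  have h1 := Chebyshev.psi_nonneg (Real.exp v)
  have h2 := Chebyshev.psi_le_const_mul_self (Real.exp_pos v).le
  have h3 : Real.exp v * Real.exp (-v) = 1 := by rw [← Real.exp_add]; simp
  have h4 := Real.exp_pos (-v)
  have h5 : Real.log 4 ≤ 2 := by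
    have : Real.log 4 = 2 * Real.log 2 := by
      rw [← Real.log_rpow (by norm_num)]; norm_num
    rw [this]
    have := Real.log_two_lt_d9
    linarith
  have h6 : Chebyshev.psi (Real.exp v) * Real.exp (-v) ≤ (Real.log 4 + 4) * (Real.exp v * Real.exp (-v)) := by
    have := mul_le_mul_of_nonneg_right h2 h4.le
    linarith
  rw [h3, mul_one] at h6
  have h7 : 0 ≤ Chebyshev.psi (Real.exp v) * Real.exp (-v) := by positivity
  rw [abs_le]
  constructor <;> linarith

lemma rr_dec : ∃ C v0 : ℝ, 0 < C ∧ 1 ≤ v0 ∧ ∀ v : ℝ, v0 ≤ v → |rr v| ≤ C / v ^ 2 := by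
  obtain ⟨N1, hN1⟩ := Pool.Agent.W762.EC.PntA.large 2 (by norm_num)
  obtain ⟨C, hC⟩ : ∃ C : ℝ, C = 35 + 16 * 8 ^ 2 := ⟨_, rfl⟩
  rw [← hC] at hN1
  have hC0 : 0 < C := by rw [hC]; norm_num
  -- `v² e^{-v} ≤ 1` eventually
  have h1 : ∀ᶠ v : ℝ in atTop, v ^ 2 * Real.exp (-v) ≤ 1 := by
    have := Real.tendsto_pow_mul_exp_neg_atTop_nhds_zero 2
    exact (this.eventually (gt_mem_nhds one_pos)).mono fun v hv => hv.le
  obtain ⟨v1, hv1⟩ := eventually_atTop.1 h1
  refine ⟨4 * C + 1, max (max v1 4) (Real.log (N1 + 1)), by positivity,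
    le_trans (by norm_num) ((le_max_right v1 4).trans (le_max_left _ _)), fun v hv => ?_⟩
  have hv4 : 4 ≤ v := ((le_max_right v1 4).trans (le_max_left _ _)).trans hv
  have hvv : v1 ≤ v := ((le_max_left v1 4).trans (le_max_left _ _)).trans hv
  have hvN : Real.log (N1 + 1) ≤ v := (le_max_right _ _).trans hv
  obtain ⟨N, hN⟩ : ∃ N, N = ⌊Real.exp v⌋₊ := ⟨_, rfl⟩
  have he : (N1 : ℝ) + 1 ≤ Real.exp v := (Real.log_le_iff_le_exp (by positivity)).1 hvN
  have hN1N : N1 ≤ N := by
    rw [hN]
    apply Nat.le_floor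
    linarith
  have hNle : (N : ℝ) ≤ Real.exp v := by rw [hN]; exact Nat.floor_le (Real.exp_pos v).le
  have hNlt : Real.exp v < N + 1 := by rw [hN]; exact Nat.lt_floor_add_one _
  have hexp4 : 4 ≤ Real.exp v := by
    have := Real.add_one_le_exp v
    linarith
  have hN3 : 3 < (N : ℝ) := by linarith
  -- log N ≥ v / 2
  have hlog : v / 2 ≤ Real.log N := by
    rw [Real.le_log_iff_exp_le (by linarith)]
    have e1 : Real.exp v = Real.exp (v / 2) ^ 2 := by
      rw [← Real.exp_nat_mul]; congr 1; push_cast; ring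
    have e2 : 2 ≤ Real.exp (v / 2) := by
      have := Real.add_one_le_exp (v / 2)
      linarith
    have e3 : Real.exp v - 1 < N := by linarith
    rw [e1] at e3
    nlinarith
  have h2 := hN1 N hN1N
  have h3 : Chebyshev.psi (Real.exp v) = Chebyshev.psi (N : ℝ) := by
    rw [Chebyshev.psi_eq_psi_coe_floor, ← hN]
  unfold rr
  rw [h3]
  have h4 : Chebyshev.psi (N : ℝ) * Real.exp (-v) - 1 = (Chebyshev.psi (N : ℝ) - Real.exp v) * Real.exp (-v) := by
    rw [sub_mul, ← Real.exp_add]; simp
  rw [h4, abs_mul, abs_of_pos (Real.exp_pos _)]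
  have h5 : |Chebyshev.psi (N : ℝ) - Real.exp v| ≤ C * (N / Real.log N ^ 2) + 1 := by
    have e1 : Chebyshev.psi (N : ℝ) - Real.exp v = (Chebyshev.psi (N : ℝ) - N) + (N - Real.exp v) := by ring
    rw [e1]
    refine (abs_add_le _ _).trans (add_le_add h2 ?_)
    rw [abs_le]
    constructor <;> linarith
  have h6 : C * (N / Real.log N ^ 2) ≤ 4 * C * (Real.exp v / v ^ 2) := by
    have e1 : (v / 2) ^ 2 ≤ Real.log N ^ 2 := pow_le_pow_left₀ (by linarith) hlog 2
    have e2 : (N : ℝ) / Real.log N ^ 2 ≤ Real.exp v / (v / 2) ^ 2 :=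
      div_le_div₀ (Real.exp_pos v).le hNle (by positivity) e1
    have e3 : Real.exp v / (v / 2) ^ 2 = 4 * (Real.exp v / v ^ 2) := by field_simp; norm_num
    rw [e3] at e2
    nlinarith
  have hv0 : 0 < v := by linarith
  have h7 : Real.exp v * Real.exp (-v) = 1 := by rw [← Real.exp_add]; simp
  calc |Chebyshev.psi (N : ℝ) - Real.exp v| * Real.exp (-v) ≤ (4 * C * (Real.exp v / v ^ 2) + 1) * Real.exp (-v) :=
        mul_le_mul_of_nonneg_right (h5.trans (by linarith)) (Real.exp_pos _).le
    _ = 4 * C * (Real.exp v * Real.exp (-v)) / v ^ 2 + Real.exp (-v) := by ring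
    _ ≤ 4 * C * 1 / v ^ 2 + 1 / v ^ 2 := by
        rw [h7]
        have := hv1 v hvv
        have h8 : Real.exp (-v) ≤ 1 / v ^ 2 := by
          rw [le_div_iff₀ (by positivity)]
          linarith
        linarith
    _ = (4 * C + 1) / v ^ 2 := by ring

lemma rr_ii : IntegrableOn rr (Ioi 0) := by
  obtain ⟨C, v0, hC, hv0, h⟩ := rr_dec
  have h1 : IntegrableOn rr (Ioc 0 v0) := by
    refine Integrable.mono' (g := fun _ => (10 : ℝ)) (integrableOn_const (by simp)) rr_meas.aestronglyMeasurable ?_
    exact Eventually.of_forall fun v => rr_bd v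
  have h2 : IntegrableOn rr (Ioi v0) := by
    have h3 : IntegrableOn (fun v : ℝ => C * v ^ (-2 : ℝ)) (Ioi v0) :=
      (integrableOn_Ioi_rpow_of_lt (by norm_num) (by linarith)).const_mul C
    refine Integrable.mono' h3 rr_meas.aestronglyMeasurable ?_
    filter_upwards [ae_restrict_mem measurableSet_Ioi] with v hv
    have hv' : v0 < v := hv
    refine (h v hv'.le).trans (le_of_eq ?_)
    rw [Real.rpow_neg (by linarith), div_eq_mul_inv]
    norm_num
  have h3 : Ioi (0 : ℝ) = Ioc 0 v0 ∪ Ioi v0 := (Ioc_union_Ioi_eq_Ioi (by linarith)).symm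
  rw [h3]
  exact h1.union h2

/-! ### an exchange of integrals -/

lemma swap {𝕜 : Type*} [RCLike 𝕜] {u : ℝ} {ρ q : ℝ → 𝕜} (hρ : Measurable ρ) (hq : Measurable q) {Qb : ℝ → ℝ}
    (h0 : ∀ v, u < v → IntegrableOn q (Ioo u v)) (h1 : ∀ v, u < v → ∫ y in Ioo u v, ‖q y‖ ≤ Qb v)
    (h2 : IntegrableOn (fun v => ‖ρ v‖ * Qb v) (Ioi u)) :
    ∫ y in Ioi u, q y * (∫ v in Ioi y, ρ v) = ∫ v in Ioi u, ρ v * ∫ y in Ioo u v, q y := by
  obtain ⟨f, hf⟩ : ∃ f : ℝ → ℝ → 𝕜, f = fun y v => Set.indicator {p : ℝ × ℝ | p.1 < p.2}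
      (fun p : ℝ × ℝ => q p.1 * ρ p.2) (y, v) := ⟨_, rfl⟩
  have hset : MeasurableSet {p : ℝ × ℝ | p.1 < p.2} := measurableSet_lt measurable_fst measurable_snd
  have hm : Measurable (Function.uncurry f) := by
    rw [hf]
    have : (Function.uncurry fun y v => Set.indicator {p : ℝ × ℝ | p.1 < p.2}
      (fun p : ℝ × ℝ => q p.1 * ρ p.2) (y, v)) = Set.indicator {p : ℝ × ℝ | p.1 < p.2}
      (fun p : ℝ × ℝ => q p.1 * ρ p.2) := by
      funext p
      rfl
    rw [this]
    exact ((hq.comp measurable_fst).mul (hρ.comp measurable_snd)).indicator hset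
  have hfy : ∀ y v : ℝ, f y v = if y < v then q y * ρ v else 0 := by
    intro y v
    rw [hf]
    simp only [Set.indicator, Set.mem_ofPred_eq]
  have hin : ∀ v : ℝ, ∀ y : ℝ, f y v = Set.indicator (Iio v) (fun y => q y * ρ v) y := by
    intro v y
    rw [hfy]
    simp only [Set.indicator, Set.mem_Iio]
  have hres : ∀ v : ℝ, (Ioi u) ∩ Iio v = Ioo u v := fun v => rfl
  have hint : Integrable (Function.uncurry f) ((volume.restrict (Ioi u)).prod (volume.restrict (Ioi u))) := by
    rw [integrable_prod_iff' hm.aestronglyMeasurable]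
    constructor
    · filter_upwards [ae_restrict_mem measurableSet_Ioi] with v hv
      have : (fun y => Function.uncurry f (y, v)) = Set.indicator (Iio v) (fun y => q y * ρ v) := by
        funext y
        exact hin v y
      rw [this, integrable_indicator_iff measurableSet_Iio, IntegrableOn, Measure.restrict_restrict measurableSet_Iio,
        inter_comm, hres]
      exact (h0 v hv).mul_const _
    · refine Integrable.mono' h2 ?_ ?_
      · exact (hm.norm.stronglyMeasurable.integral_prod_left').aestronglyMeasurable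
      · filter_upwards [ae_restrict_mem measurableSet_Ioi] with v hv
        have e1 : (fun y => ‖Function.uncurry f (y, v)‖) = Set.indicator (Iio v) (fun y => ‖q y‖ * ‖ρ v‖) := by
          funext y
          show ‖f y v‖ = _
          rw [hin v y]
          by_cases h : y ∈ Iio v
          · rw [Set.indicator_of_mem h, Set.indicator_of_mem h, norm_mul]
          · rw [Set.indicator_of_notMem h, Set.indicator_of_notMem h, norm_zero]
        rw [e1, integral_indicator measurableSet_Iio, Measure.restrict_restrict measurableSet_Iio,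
          inter_comm, hres, integral_mul_const, norm_mul, Real.norm_of_nonneg (integral_nonneg fun y => norm_nonneg _),
          norm_norm, mul_comm]
        exact mul_le_mul_of_nonneg_left (h1 v hv) (norm_nonneg _)
  have key := integral_integral_swap hint
  have e1 : ∫ y in Ioi u, ∫ v in Ioi u, f y v = ∫ y in Ioi u, q y * (∫ v in Ioi y, ρ v) := by
    refine setIntegral_congr_fun measurableSet_Ioi fun y hy => ?_
    have hy' : u < y := hy
    have : (fun v => f y v) = Set.indicator (Ioi y) (fun v => q y * ρ v) := by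
      funext v
      rw [hfy]
      simp only [Set.indicator, Set.mem_Ioi]
    show ∫ v in Ioi u, f y v = q y * ∫ v in Ioi y, ρ v
    rw [this, integral_indicator measurableSet_Ioi, Measure.restrict_restrict measurableSet_Ioi,
      inter_eq_self_of_subset_left (Ioi_subset_Ioi hy'.le), integral_const_mul]
  have e2 : ∫ v in Ioi u, ∫ y in Ioi u, f y v = ∫ v in Ioi u, ρ v * ∫ y in Ioo u v, q y := by
    refine setIntegral_congr_fun measurableSet_Ioi fun v hv => ?_
    have : (fun y => f y v) = Set.indicator (Iio v) (fun y => q y * ρ v) := by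
      funext y
      exact hin v y
    show ∫ y in Ioi u, f y v = ρ v * ∫ y in Ioo u v, q y
    rw [this, integral_indicator measurableSet_Iio, Measure.restrict_restrict measurableSet_Iio,
      inter_comm, hres, integral_mul_const, mul_comm]
  rw [← e1, ← e2]
  exact key

end

end Pool.Agent.X112.RO
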