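import Pool.Agent.X112.RO.A
import Pool.Agent.H307R2.LU
import Pool.Agent.W190.A17

set_option autoImplicit false

/-!
# The oscillation of the integrated error term
-/

open MeasureTheory Filter Topology Set

namespace Pool.Agent.X112.RO

open Pool.Agent.W263.BSD (LInt lap lapC lapC_ofReal)

noncomputable section

/-- `∫_u^∞ r` -/
def JT (u : ℝ) : ℝ := ∫ v in Ioi u, rr v

/-- `r(v) (1 + v) / v²` -/
def kr (v : ℝ) : ℝ := rr v * ((1 + v) / v ^ 2)

/-- `∫_u^∞ r(v) (1 + v) / v² dv` -/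
def KT (u : ℝ) : ℝ := ∫ v in Ioi u, kr v

lemma kr_meas : Measurable kr := by
  unfold kr
  exact rr_meas.mul (by fun_prop)

lemma fac_bd {v u : ℝ} (hu : 0 < u) (hv : u < v) : |(1 + v) / v ^ 2| ≤ (1 + u) / u ^ 2 := by
  have hv0 : 0 < v := hu.trans hv
  rw [abs_of_nonneg (by positivity), div_le_div_iff₀ (by positivity) (by positivity)]
  nlinarith [mul_pos hu hv0, mul_pos (mul_pos hu hv0) (sub_pos.2 hv), mul_pos hu (sub_pos.2 hv)]

lemma rr_iiu {u : ℝ} (hu : 0 ≤ u) : IntegrableOn rr (Ioi u) := rr_ii.mono_set (Ioi_subset_Ioi hu)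

lemma kr_ii {u : ℝ} (hu : 0 < u) : IntegrableOn kr (Ioi u) := by
  refine Integrable.mono' ((rr_iiu hu.le).norm.mul_const ((1 + u) / u ^ 2)) kr_meas.aestronglyMeasurable ?_
  filter_upwards [ae_restrict_mem measurableSet_Ioi] with v hv
  unfold kr
  rw [norm_mul]
  exact mul_le_mul_of_nonneg_left (fac_bd hu hv) (norm_nonneg _)

/-! ### from `K` to `J` -/

lemma phi_deriv {v : ℝ} (hv : 0 < v) : HasDerivAt (fun v : ℝ => v ^ 2 / (1 + v)) ((v ^ 2 + 2 * v) / (1 + v) ^ 2) v := by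
  have h1 : HasDerivAt (fun v : ℝ => v ^ 2) (2 * v) v := by simpa using hasDerivAt_pow 2 v
  have h2 : HasDerivAt (fun v : ℝ => 1 + v) 1 v := (hasDerivAt_id v).const_add 1
  have h3 := h1.div h2 (by linarith)
  have e : (v ^ 2 + 2 * v) / (1 + v) ^ 2 = (2 * v * (1 + v) - v ^ 2 * 1) / (1 + v) ^ 2 := by
    congr 1
    ring
  rw [e]
  exact h3

lemma q_bd {y : ℝ} (hy : 0 < y) : 0 ≤ (y ^ 2 + 2 * y) / (1 + y) ^ 2 ∧ (y ^ 2 + 2 * y) / (1 + y) ^ 2 ≤ 1 := by
  constructor
  · positivity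
  · rw [div_le_one (by positivity)]
    nlinarith

lemma q_cont : ContinuousOn (fun y : ℝ => (y ^ 2 + 2 * y) / (1 + y) ^ 2) (Ici 0) := by
  refine ContinuousOn.div (by fun_prop) (by fun_prop) fun y hy => ?_
  have : (0 : ℝ) ≤ y := hy
  positivity

lemma q_int {u v : ℝ} (hu : 0 < u) (hv : u < v) :
    ∫ y in Ioo u v, (y ^ 2 + 2 * y) / (1 + y) ^ 2 = v ^ 2 / (1 + v) - u ^ 2 / (1 + u) := by
  rw [← integral_Ioc_eq_integral_Ioo, ← intervalIntegral.integral_of_le hv.le]
  apply intervalIntegral.integral_eq_sub_of_hasDerivAt (f := fun v : ℝ => v ^ 2 / (1 + v))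
  · intro y hy
    rw [uIcc_of_le hv.le] at hy
    exact phi_deriv (hu.trans_le hy.1)
  · apply ContinuousOn.intervalIntegrable
    rw [uIcc_of_le hv.le]
    exact q_cont.mono fun y hy => hu.le.trans hy.1

lemma q_ii {u v : ℝ} (hu : 0 < u) : IntegrableOn (fun y : ℝ => (y ^ 2 + 2 * y) / (1 + y) ^ 2) (Ioo u v) := by
  have : IntegrableOn (fun y : ℝ => (y ^ 2 + 2 * y) / (1 + y) ^ 2) (Icc u v) :=
    (q_cont.mono fun y hy => hu.le.trans hy.1).integrableOn_compact isCompact_Icc
  exact this.mono_set Ioo_subset_Icc_self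

theorem JT_eq {u : ℝ} (hu : 0 < u) : JT u = u ^ 2 / (1 + u) * KT u +
    ∫ y in Ioi u, (y ^ 2 + 2 * y) / (1 + y) ^ 2 * KT y := by
  have hq : Measurable fun y : ℝ => (y ^ 2 + 2 * y) / (1 + y) ^ 2 := by fun_prop
  have h := swap (𝕜 := ℝ) (u := u) kr_meas hq (Qb := fun v => v) (fun v _ => q_ii hu) (fun v hv => by
      have h1 : ∀ y ∈ Ioo u v, ‖(y ^ 2 + 2 * y) / (1 + y) ^ 2‖ = (y ^ 2 + 2 * y) / (1 + y) ^ 2 := by
        intro y hy
        exact Real.norm_of_nonneg (q_bd (hu.trans hy.1)).1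
      rw [setIntegral_congr_fun measurableSet_Ioo h1, q_int hu hv]
      have hv0 : 0 < v := hu.trans hv
      have e1 : v ^ 2 / (1 + v) ≤ v := by
        rw [div_le_iff₀ (by linarith)]
        nlinarith
      have e2 : 0 ≤ u ^ 2 / (1 + u) := by positivity
      linarith) (by
      refine Integrable.mono' ((rr_iiu hu.le).norm.mul_const ((1 + u) / u)) ?_ ?_
      · exact (kr_meas.norm.mul measurable_id).aestronglyMeasurable
      · filter_upwards [ae_restrict_mem measurableSet_Ioi] with v hv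
        have hv' : u < v := hv
        have hv0 : 0 < v := hu.trans hv'
        unfold kr
        rw [norm_mul, norm_norm, norm_mul, mul_assoc]
        refine mul_le_mul_of_nonneg_left ?_ (norm_nonneg _)
        rw [Real.norm_of_nonneg (by positivity), Real.norm_of_nonneg hv0.le, div_mul_eq_mul_div,
          div_le_div_iff₀ (by positivity) hu]
        nlinarith [mul_pos hu hv0, mul_pos (mul_pos hu hv0) (sub_pos.2 hv')])
  have h2 : ∫ v in Ioi u, kr v * ∫ y in Ioo u v, (y ^ 2 + 2 * y) / (1 + y) ^ 2 =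
      ∫ v in Ioi u, (rr v - u ^ 2 / (1 + u) * kr v) := by
    refine setIntegral_congr_fun measurableSet_Ioi fun v hv => ?_
    have hv' : u < v := hv
    have hv0 : 0 < v := hu.trans hv'
    show kr v * ∫ y in Ioo u v, (y ^ 2 + 2 * y) / (1 + y) ^ 2 = rr v - u ^ 2 / (1 + u) * kr v
    rw [q_int hu hv']
    unfold kr
    field_simp
  rw [h2, integral_sub (rr_iiu hu.le) ((kr_ii hu).const_mul _), integral_const_mul] at h
  have h3 : ∫ y in Ioi u, (y ^ 2 + 2 * y) / (1 + y) ^ 2 * KT y =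
      ∫ y in Ioi u, (y ^ 2 + 2 * y) / (1 + y) ^ 2 * (∫ v in Ioi y, kr v) := rfl
  rw [h3, h]
  unfold JT KT
  ring

lemma KT_meas : Measurable fun u : ℝ => KT (max u 1) := by
  have h1 : ∀ u : ℝ, KT (max u 1) = KT 1 - ∫ v in (1 : ℝ)..(max u 1), kr v := by
    intro u
    have hle : (1 : ℝ) ≤ max u 1 := le_max_right _ _
    unfold KT
    rw [← intervalIntegral.integral_Ioi_sub_Ioi (kr_ii one_pos) hle]
    ring
  have h2 : (fun u : ℝ => KT (max u 1)) = fun u => KT 1 - ∫ v in (1 : ℝ)..(max u 1), kr v := funext h1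
  rw [h2]
  have h3 : Continuous fun x : ℝ => ∫ v in (1 : ℝ)..(max x 1), (Set.indicator (Ioi 1) kr) v := by
    have h4 : Integrable (Set.indicator (Ioi (1 : ℝ)) kr) := (integrable_indicator_iff measurableSet_Ioi).2 (kr_ii one_pos)
    exact (intervalIntegral.continuous_primitive (fun a b => h4.intervalIntegrable) 1).comp (by fun_prop)
  have h5 : (fun x : ℝ => ∫ v in (1 : ℝ)..(max x 1), (Set.indicator (Ioi 1) kr) v) =
      fun x => ∫ v in (1 : ℝ)..(max x 1), kr v := by
    funext x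
    rw [intervalIntegral.integral_of_le (le_max_right _ _), intervalIntegral.integral_of_le (le_max_right _ _)]
    refine setIntegral_congr_fun measurableSet_Ioc fun v hv => ?_
    rw [Set.indicator_of_mem (show v ∈ Ioi (1 : ℝ) from hv.1)]
  rw [h5] at h3
  exact (continuous_const.sub h3).measurable

lemma KT_bd {u : ℝ} (hu : 1 ≤ u) : |KT u| ≤ 2 * (∫ v in Ioi 0, |rr v|) / u := by
  have hu0 : 0 < u := by linarith
  unfold KT
  refine (abs_integral_le_integral_abs).trans ?_
  have h1 : ∫ v in Ioi u, |kr v| ≤ ∫ v in Ioi u, |rr v| * (2 / u) := by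
    refine setIntegral_mono_on (kr_ii hu0).norm ((rr_iiu hu0.le).norm.mul_const _) measurableSet_Ioi fun v hv => ?_
    have hv' : u < v := hv
    unfold kr
    rw [abs_mul]
    refine mul_le_mul_of_nonneg_left ((fac_bd hu0 hv').trans ?_) (abs_nonneg _)
    rw [div_le_div_iff₀ (by positivity) hu0]
    nlinarith
  refine h1.trans ?_
  rw [integral_mul_const]
  have h2 : ∫ v in Ioi u, |rr v| ≤ ∫ v in Ioi 0, |rr v| :=
    setIntegral_mono_set rr_ii.norm (Eventually.of_forall fun v => abs_nonneg _)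
      (Ioi_subset_Ioi hu0.le).eventuallyLE
  have h3 : (0 : ℝ) ≤ 2 / u := by positivity
  calc (∫ v in Ioi u, |rr v|) * (2 / u) ≤ (∫ v in Ioi 0, |rr v|) * (2 / u) := mul_le_mul_of_nonneg_right h2 h3
    _ = _ := by ring

/-- a one-sided bound for `K` gives one for `J` -/
theorem JT_ge {a u : ℝ} (ha : 0 < a) (hu : 1 ≤ u) (h : ∀ y, u ≤ y → -Real.exp (-(a * y)) ≤ KT y) :
    -((u + 1 / a) * Real.exp (-(a * u))) ≤ JT u := by
  have hu0 : 0 < u := by linarith
  rw [JT_eq hu0]
  have h1 : -(u * Real.exp (-(a * u))) ≤ u ^ 2 / (1 + u) * KT u := by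
    have e1 : u ^ 2 / (1 + u) ≤ u := by
      rw [div_le_iff₀ (by linarith)]
      nlinarith
    have e0 : 0 ≤ u ^ 2 / (1 + u) := by positivity
    have e2 := mul_le_mul_of_nonneg_left (h u le_rfl) e0
    have e3 := mul_le_mul_of_nonneg_right e1 (Real.exp_pos (-(a * u))).le
    linarith
  have hexp : IntegrableOn (fun y : ℝ => Real.exp (-(a * y))) (Ioi u) := by
    have := integrableOn_exp_mul_Ioi (a := -a) (by linarith) u
    refine this.congr_fun (fun y _ => ?_) measurableSet_Ioi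
    simp only
    congr 1
    ring
  have hexpv : ∫ y in Ioi u, Real.exp (-(a * y)) = Real.exp (-(a * u)) / a := by
    have := integral_exp_mul_Ioi (a := -a) (by linarith) u
    rw [show (fun y : ℝ => Real.exp (-(a * y))) = fun y : ℝ => Real.exp (-a * y) by funext y; congr 1; ring, this]
    rw [show -a * u = -(a * u) by ring]
    ring
  have h2 : -(Real.exp (-(a * u)) / a) ≤ ∫ y in Ioi u, (y ^ 2 + 2 * y) / (1 + y) ^ 2 * KT y := by
    by_cases hi : IntegrableOn (fun y => (y ^ 2 + 2 * y) / (1 + y) ^ 2 * KT y) (Ioi u)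
    · rw [← hexpv, ← integral_neg]
      refine setIntegral_mono_on hexp.neg hi measurableSet_Ioi fun y hy => ?_
      have hy' : u < y := hy
      obtain ⟨b1, b2⟩ := q_bd (hu0.trans hy')
      have e1 := h y hy'.le
      have e2 := mul_le_mul_of_nonneg_left e1 b1
      have e3 := mul_le_mul_of_nonneg_right b2 (Real.exp_pos (-(a * y))).le
      linarith
    · rw [integral_undef hi]
      have : 0 ≤ Real.exp (-(a * u)) / a := by positivity
      linarith
  have e : (u + 1 / a) * Real.exp (-(a * u)) = u * Real.exp (-(a * u)) + Real.exp (-(a * u)) / a := by ring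
  rw [e]
  linarith

/-! ### the Laplace transform of `r` -/

lemma int_exp_change (g : ℝ → ℂ) : ∫ t in Ioi (1 : ℝ), g t = ∫ v in Ioi (0 : ℝ), (Real.exp v : ℂ) * g (Real.exp v) := by
  have h1 : Real.exp '' (Ioi (0 : ℝ)) = Ioi 1 := by
    ext t
    simp only [Set.mem_image, Set.mem_Ioi]
    constructor
    · rintro ⟨v, hv, rfl⟩
      exact Real.one_lt_exp_iff.2 hv
    · intro ht
      exact ⟨Real.log t, Real.log_pos ht, Real.exp_log (by linarith)⟩
  have h2 := integral_image_eq_integral_abs_deriv_smul (s := Ioi (0 : ℝ)) (f := Real.exp) (f' := Real.exp)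
    measurableSet_Ioi (fun x _ => (Real.hasDerivAt_exp x).hasDerivWithinAt) Real.exp_injective.injOn g
  rw [h1] at h2
  rw [h2]
  refine setIntegral_congr_fun measurableSet_Ioi fun v _ => ?_
  rw [abs_of_pos (Real.exp_pos v), Complex.real_smul]

lemma psi_lap {w : ℂ} (hw : 0 < w.re) :
    ∫ v in Ioi (0 : ℝ), ((Chebyshev.psi (Real.exp v) * Real.exp (-v) : ℝ) : ℂ) * Complex.exp (-(w * v)) =
      -(deriv riemannZeta (1 + w) / riemannZeta (1 + w)) / (1 + w) := by
  have hs : 1 < (1 + w).re := by rw [Complex.add_re, Complex.one_re]; linarith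
  have hs0 : 1 + w ≠ 0 := by
    intro h; rw [h] at hs; simp at hs; linarith
  have hO : (fun n : ℕ => ∑ k ∈ Finset.Icc 1 n, ArithmeticFunction.vonMangoldt k) =O[atTop]
      fun n : ℕ => (n : ℝ) ^ (1 : ℝ) := by
    refine Asymptotics.IsBigO.of_bound (Real.log 4 + 4) (Eventually.of_forall fun n => ?_)
    have h1 : ∑ k ∈ Finset.Icc 1 n, ArithmeticFunction.vonMangoldt k = Chebyshev.psi n := by
      unfold Chebyshev.psi
      rw [Nat.floor_natCast]
      rfl
    rw [h1, Real.norm_of_nonneg (Chebyshev.psi_nonneg _), Real.rpow_one, Real.norm_of_nonneg (Nat.cast_nonneg n)]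
    exact Chebyshev.psi_le_const_mul_self (Nat.cast_nonneg n)
  have h1 := LSeries_eq_mul_integral_of_nonneg (fun n => ArithmeticFunction.vonMangoldt n) zero_le_one hs hO
    (fun n => ArithmeticFunction.vonMangoldt_nonneg)
  have h2 := ArithmeticFunction.LSeries_vonMangoldt_eq_deriv_riemannZeta_div hs
  have h3 : LSeries (fun n => ((ArithmeticFunction.vonMangoldt n : ℝ) : ℂ)) (1 + w) =
      -(deriv riemannZeta (1 + w) / riemannZeta (1 + w)) := by
    rw [← neg_div]
    exact h2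
  rw [h3] at h1
  rw [h1, mul_div_cancel_left₀ _ hs0, int_exp_change]
  refine setIntegral_congr_fun measurableSet_Ioi fun v _ => ?_
  have e1 : ∑ k ∈ Finset.Icc 1 ⌊Real.exp v⌋₊, ((ArithmeticFunction.vonMangoldt k : ℝ) : ℂ) =
      ((Chebyshev.psi (Real.exp v) : ℝ) : ℂ) := by
    unfold Chebyshev.psi
    push_cast
    rfl
  rw [e1, Complex.ofReal_mul, Complex.ofReal_exp, Complex.ofReal_exp,
    Complex.cpow_def_of_ne_zero (Complex.exp_ne_zero _), Complex.log_exp (by simpa using Real.pi_pos)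
      (by simpa using Real.pi_pos.le)]
  rw [mul_assoc, ← Complex.exp_add, mul_comm (Complex.exp (v : ℂ)), mul_assoc, ← Complex.exp_add]
  congr 2
  push_cast
  ring

lemma exp_lap {w : ℂ} (hw : 0 < w.re) : IntegrableOn (fun v : ℝ => Complex.exp (-(w * v))) (Ioi 0) ∧
    ∫ v in Ioi (0 : ℝ), Complex.exp (-(w * v)) = 1 / w := by
  have hw0 : w ≠ 0 := by rintro rfl; simp at hw
  have e : (fun v : ℝ => Complex.exp (-(w * v))) = fun v : ℝ => Complex.exp (-w * v) := by
    funext v; congr 1; ring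
  rw [e]
  refine ⟨integrableOn_exp_mul_complex_Ioi (by simpa using hw) 0, ?_⟩
  rw [integral_exp_mul_complex_Ioi (by simpa using hw)]
  simp

lemma rr_lint {w : ℝ} (hw : 0 ≤ w) : LInt rr w := by
  unfold Pool.Agent.W263.BSD.LInt
  refine Integrable.mono' rr_ii.norm ((rr_meas.mul (by fun_prop)).aestronglyMeasurable) ?_
  filter_upwards [ae_restrict_mem measurableSet_Ioi] with v hv
  have hv' : (0 : ℝ) < v := hv
  rw [norm_mul, Real.norm_of_nonneg (Real.exp_pos _).le]
  refine mul_le_of_le_one_right (norm_nonneg _) ?_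
  rw [Real.exp_le_one_iff]
  have := mul_nonneg hw hv'.le
  linarith

/-- the continuation of the transform of `r` -/
def Ps (w : ℂ) : ℂ := -(deriv riemannZeta₁ (1 + w) / riemannZeta₁ (1 + w) + 1) / (1 + w)

lemma zeta1_eq {s : ℂ} (hs : s ≠ 1) : riemannZeta₁ s = (s - 1) * riemannZeta s := by
  rw [riemannZeta_eq_inv_sub_mul hs, ← mul_assoc, mul_inv_cancel₀ (sub_ne_zero.mpr hs), one_mul]

lemma deriv_log_eq {s : ℂ} (hs : s ≠ 1) (hz : riemannZeta s ≠ 0) :
    deriv riemannZeta s / riemannZeta s = deriv riemannZeta₁ s / riemannZeta₁ s - 1 / (s - 1) := by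
  have h1 : riemannZeta₁ =ᶠ[𝓝 s] fun z => (z - 1) * riemannZeta z := by
    filter_upwards [isOpen_ne.mem_nhds hs] with z hz
    exact zeta1_eq hz
  have h2 : deriv riemannZeta₁ s = riemannZeta s + (s - 1) * deriv riemannZeta s := by
    rw [h1.deriv_eq]
    have h3 : HasDerivAt (fun z : ℂ => z - 1) 1 s := (hasDerivAt_id s).sub_const 1
    have h4 := h3.mul (differentiableAt_riemannZeta hs).hasDerivAt
    have h5 := h4.deriv
    rw [one_mul] at h5
    exact h5
  rw [h2, zeta1_eq hs]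
  have : s - 1 ≠ 0 := sub_ne_zero.2 hs
  field_simp
  ring

theorem lapC_rr {w : ℂ} (hw : 0 < w.re) : lapC rr w = Ps w := by
  have hs : 1 < (1 + w).re := by rw [Complex.add_re, Complex.one_re]; linarith
  have hs1 : 1 + w ≠ 1 := by
    intro h; rw [h] at hs; simp at hs
  have hs0 : 1 + w ≠ 0 := by
    intro h; rw [h] at hs; simp at hs; linarith
  have hw0 : w ≠ 0 := by rintro rfl; simp at hw
  have hz : riemannZeta (1 + w) ≠ 0 := riemannZeta_ne_zero_of_one_lt_re hs
  obtain ⟨e1, e2⟩ := exp_lap hw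
  have h1 : IntegrableOn (fun v : ℝ => (rr v : ℂ) * Complex.exp (-(w * v))) (Ioi 0) :=
    LInt.complex rr_meas (rr_lint hw.le)
  have h2 := integral_add h1 e1
  have h3 : ∫ v in Ioi (0 : ℝ), ((rr v : ℂ) * Complex.exp (-(w * v)) + Complex.exp (-(w * v))) =
      ∫ v in Ioi (0 : ℝ), ((Chebyshev.psi (Real.exp v) * Real.exp (-v) : ℝ) : ℂ) * Complex.exp (-(w * v)) := by
    refine setIntegral_congr_fun measurableSet_Ioi fun v _ => ?_
    unfold rr
    push_cast
    ring
  rw [h3, psi_lap hw, e2, deriv_log_eq hs1 hz] at h2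
  have h4 : lapC rr w = ∫ v in Ioi (0 : ℝ), (rr v : ℂ) * Complex.exp (-(w * v)) := rfl
  rw [h4]
  have h5 : ∫ v in Ioi (0 : ℝ), (rr v : ℂ) * Complex.exp (-(w * v)) =
      -(deriv riemannZeta₁ (1 + w) / riemannZeta₁ (1 + w) - 1 / (1 + w - 1)) / (1 + w) - 1 / w := by
    rw [h2]; ring
  rw [h5]
  unfold Ps
  rw [add_sub_cancel_left]
  field_simp
  ring

end

end Pool.Agent.X112.RO
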