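import Pool.Agent.X112.RO.B

set_option autoImplicit false

/-!
# The oscillation theorem
-/

open MeasureTheory Filter Topology Set

namespace Pool.Agent.X112.RO

open Pool.Agent.W263.BSD (LInt lap lapC lapC_ofReal)

noncomputable section

/-! ### real zeros -/

lemma zeta_real_ne {x : ℝ} (h0 : 0 < x) (h1 : x < 1) : riemannZeta (x : ℂ) ≠ 0 := by
  have hne : (x : ℂ) ≠ 1 := by
    intro h
    have : x = 1 := by exact_mod_cast h
    linarith
  have e0 := Pool.Agent.H307R2.zeta_eq (N := 1) le_rfl (s := (x : ℂ)) (by simpa using h0) hne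
  have e1 : Pool.Agent.H307R2.TM 1 Pool.Agent.H307R2.Ez (x : ℂ) =
      ((∫ t in Ioi ((1 : ℕ) : ℝ), (-(Int.fract t)) * t ^ (-(x + 1)) : ℝ) : ℂ) := by
    unfold Pool.Agent.H307R2.TM
    rw [← integral_complex_ofReal]
    refine MeasureTheory.setIntegral_congr_fun measurableSet_Ioi fun t ht => ?_
    have ht' : (1 : ℝ) < t := by simpa using ht
    have ht0 : 0 ≤ t := by linarith
    simp only [Pool.Agent.H307R2.Ez]
    rw [Complex.ofReal_mul, Complex.ofReal_cpow ht0]
    push_cast
    rfl
  have e2 : (∫ t in Ioi ((1 : ℕ) : ℝ), (-(Int.fract t)) * t ^ (-(x + 1)) : ℝ) ≤ 0 := by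
    apply MeasureTheory.setIntegral_nonpos measurableSet_Ioi
    intro t ht
    have ht' : (1 : ℝ) < t := by simpa using ht
    have : 0 ≤ Int.fract t * t ^ (-(x + 1)) :=
      mul_nonneg (Int.fract_nonneg t) (Real.rpow_nonneg (by linarith) _)
    linarith
  rw [e1] at e0
  obtain ⟨I, hI⟩ : ∃ I, I = (∫ t in Ioi ((1 : ℕ) : ℝ), (-(Int.fract t)) * t ^ (-(x + 1)) : ℝ) := ⟨_, rfl⟩
  rw [← hI] at e0 e2
  have e3 : riemannZeta (x : ℂ) = ((1 + 1 / (x - 1) + x * I : ℝ) : ℂ) := by
    rw [e0]
    push_cast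
    simp
  rw [e3]
  intro h
  have h2 : (1 + 1 / (x - 1) + x * I : ℝ) = 0 := by exact_mod_cast h
  have h3 : 1 / (x - 1) < -1 := by
    rw [div_lt_iff_of_neg (by linarith)]
    linarith
  have h4 : x * I ≤ 0 := mul_nonpos_of_nonneg_of_nonpos h0.le e2
  linarith

lemma zeta1_real_ne {x : ℝ} (h0 : 0 < x) : riemannZeta₁ (x : ℂ) ≠ 0 := by
  by_cases h1 : x = 1
  · rw [h1, Complex.ofReal_one, riemannZeta₁_one]
    exact one_ne_zero
  · have hne : (x : ℂ) ≠ 1 := by exact_mod_cast h1
    rw [zeta1_eq hne]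
    refine mul_ne_zero (sub_ne_zero.2 hne) ?_
    rcases lt_or_gt_of_ne h1 with h | h
    · exact zeta_real_ne h0 h
    · exact riemannZeta_ne_zero_of_one_lt_re (by simpa using h)

/-! ### the Laplace transform of `J` -/

lemma JT_abs (u : ℝ) (hu : 0 ≤ u) : |JT u| ≤ ∫ v in Ioi 0, |rr v| := by
  unfold JT
  refine abs_integral_le_integral_abs.trans ?_
  exact setIntegral_mono_set rr_ii.norm (Eventually.of_forall fun v => abs_nonneg _)
    (Ioi_subset_Ioi hu).eventuallyLE

lemma JT_meas : Measurable fun u : ℝ => JT (max u 0) := by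
  have h1 : ∀ u : ℝ, JT (max u 0) = JT 0 - ∫ v in (0 : ℝ)..(max u 0), rr v := by
    intro u
    have hle : (0 : ℝ) ≤ max u 0 := le_max_right _ _
    unfold JT
    rw [← intervalIntegral.integral_Ioi_sub_Ioi rr_ii hle]
    ring
  rw [funext h1]
  have h4 : Integrable (Set.indicator (Ioi (0 : ℝ)) rr) := (integrable_indicator_iff measurableSet_Ioi).2 rr_ii
  have h3 : Continuous fun x : ℝ => ∫ v in (0 : ℝ)..(max x 0), (Set.indicator (Ioi 0) rr) v :=
    (intervalIntegral.continuous_primitive (fun a b => h4.intervalIntegrable) 0).comp (by fun_prop)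
  have h5 : (fun x : ℝ => ∫ v in (0 : ℝ)..(max x 0), (Set.indicator (Ioi 0) rr) v) =
      fun x => ∫ v in (0 : ℝ)..(max x 0), rr v := by
    funext x
    rw [intervalIntegral.integral_of_le (le_max_right _ _), intervalIntegral.integral_of_le (le_max_right _ _)]
    refine setIntegral_congr_fun measurableSet_Ioc fun v hv => ?_
    rw [Set.indicator_of_mem (show v ∈ Ioi (0 : ℝ) from hv.1)]
  rw [h5] at h3
  exact (continuous_const.sub h3).measurable

lemma JT_lap {w : ℂ} (hw : 0 < w.re) :
    ∫ y in Ioi (0 : ℝ), Complex.exp (-(w * y)) * (JT y : ℂ) = ((JT 0 : ℂ) - Ps w) / w := by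
  have hw0 : w ≠ 0 := by rintro rfl; simp at hw
  have hρ : Measurable fun v : ℝ => (rr v : ℂ) := Complex.measurable_ofReal.comp rr_meas
  have hq : Measurable fun y : ℝ => Complex.exp (-(w * y)) := by fun_prop
  obtain ⟨e1, -⟩ := exp_lap hw
  have h := swap (𝕜 := ℂ) (u := 0) hρ hq (Qb := fun _ => ∫ y in Ioi (0 : ℝ), ‖Complex.exp (-(w * y))‖)
    (fun v _ => e1.mono_set Ioo_subset_Ioi_self)
    (fun v _ => setIntegral_mono_set e1.norm (Eventually.of_forall fun y => norm_nonneg _)
      Ioo_subset_Ioi_self.eventuallyLE)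
    (by
      have : (fun v : ℝ => ‖(rr v : ℂ)‖ * ∫ y in Ioi (0 : ℝ), ‖Complex.exp (-(w * y))‖) =
          fun v => ‖rr v‖ * ∫ y in Ioi (0 : ℝ), ‖Complex.exp (-(w * y))‖ := by
        funext v
        rw [Complex.norm_real]
      rw [this]
      exact rr_ii.norm.mul_const _)
  have h1 : ∫ y in Ioi (0 : ℝ), Complex.exp (-(w * y)) * (∫ v in Ioi y, (rr v : ℂ)) =
      ∫ y in Ioi (0 : ℝ), Complex.exp (-(w * y)) * (JT y : ℂ) := by
    refine setIntegral_congr_fun measurableSet_Ioi fun y _ => ?_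
    show Complex.exp (-(w * y)) * (∫ v in Ioi y, (rr v : ℂ)) = Complex.exp (-(w * y)) * (JT y : ℂ)
    rw [integral_complex_ofReal]
    rfl
  have h2 : ∀ v : ℝ, 0 < v → ∫ y in Ioo 0 v, Complex.exp (-(w * y)) = (1 - Complex.exp (-(w * v))) / w := by
    intro v hv
    rw [← integral_Ioc_eq_integral_Ioo, ← intervalIntegral.integral_of_le hv.le]
    have h3 := integral_exp_mul_complex (a := 0) (b := v) (c := -w) (neg_ne_zero.2 hw0)
    have e : (fun y : ℝ => Complex.exp (-(w * y))) = fun y : ℝ => Complex.exp (-w * y) := by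
      funext y; congr 1; ring
    rw [e, h3]
    have e3 : -w * (v : ℂ) = -(w * v) := by ring
    rw [e3]
    simp only [Complex.ofReal_zero, mul_zero, Complex.exp_zero]
    field_simp
    ring
  have h3 : ∫ v in Ioi (0 : ℝ), (rr v : ℂ) * ∫ y in Ioo 0 v, Complex.exp (-(w * y)) =
      ∫ v in Ioi (0 : ℝ), ((rr v : ℂ) * (1 / w) - (rr v : ℂ) * Complex.exp (-(w * v)) * (1 / w)) := by
    refine setIntegral_congr_fun measurableSet_Ioi fun v hv => ?_
    show (rr v : ℂ) * ∫ y in Ioo 0 v, Complex.exp (-(w * y)) =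
      (rr v : ℂ) * (1 / w) - (rr v : ℂ) * Complex.exp (-(w * v)) * (1 / w)
    rw [h2 v hv]
    ring
  have hi1 : IntegrableOn (fun v : ℝ => (rr v : ℂ)) (Ioi 0) := rr_ii.ofReal
  have hi2 : IntegrableOn (fun v : ℝ => (rr v : ℂ) * Complex.exp (-(w * v))) (Ioi 0) :=
    LInt.complex rr_meas (rr_lint hw.le)
  rw [h1, h3, integral_sub (hi1.mul_const _) (hi2.mul_const _), integral_mul_const, integral_mul_const,
    integral_complex_ofReal] at h
  rw [h]
  have h4 : ∫ v in Ioi (0 : ℝ), (rr v : ℂ) * Complex.exp (-(w * v)) = Ps w := lapC_rr hw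
  rw [h4]
  have h5 : ∫ v in Ioi (0 : ℝ), rr v = JT 0 := rfl
  rw [h5]
  ring

lemma Ps_diff {w : ℂ} (h1 : riemannZeta₁ (1 + w) ≠ 0) (h2 : 1 + w ≠ 0) : DifferentiableAt ℂ Ps w := by
  have hd : Differentiable ℂ riemannZeta₁ := differentiable_riemannZeta₁
  have hd2 : Differentiable ℂ (deriv riemannZeta₁) := by
    have : ContDiff ℂ 2 riemannZeta₁ := hd.contDiff
    exact (this.differentiable_deriv_two)
  unfold Ps
  have e1 : DifferentiableAt ℂ (fun w : ℂ => riemannZeta₁ (1 + w)) w := by
    exact (hd (1 + w)).comp w (by fun_prop)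
  have e2 : DifferentiableAt ℂ (fun w : ℂ => deriv riemannZeta₁ (1 + w)) w := by
    exact (hd2 (1 + w)).comp w (by fun_prop)
  refine DifferentiableAt.div ?_ (by fun_prop) h2
  exact ((e2.div e1 h1).add_const 1).neg

lemma Ps_zero : (JT 0 : ℂ) = Ps 0 := by
  have hc : ContinuousAt Ps 0 := by
    refine (Ps_diff ?_ (by norm_num)).continuousAt
    rw [add_zero, riemannZeta₁_one]
    exact one_ne_zero
  have h1 : Tendsto (fun n : ℕ => ((1 / ((n : ℝ) + 1) : ℝ) : ℂ)) atTop (𝓝 0) := by
    have := (Complex.continuous_ofReal.tendsto 0).comp tendsto_one_div_add_atTop_nhds_zero_nat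
    rw [Complex.ofReal_zero] at this
    exact this
  have h2 := hc.tendsto.comp h1
  have h3 : ∀ n : ℕ, Ps ((1 / ((n : ℝ) + 1) : ℝ) : ℂ) =
      ((∫ v in Ioi (0 : ℝ), rr v * Real.exp (-(1 / ((n : ℝ) + 1) * v)) : ℝ) : ℂ) := by
    intro n
    rw [← lapC_rr (by rw [Complex.ofReal_re]; positivity), lapC_ofReal]
    rfl
  have h4 : Tendsto (fun n : ℕ => ∫ v in Ioi (0 : ℝ), rr v * Real.exp (-(1 / ((n : ℝ) + 1) * v))) atTop
      (𝓝 (∫ v in Ioi (0 : ℝ), rr v)) := by
    refine tendsto_integral_of_dominated_convergence (fun v => |rr v|) ?_ rr_ii.norm ?_ ?_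
    · intro n
      exact (rr_meas.mul (by fun_prop)).aestronglyMeasurable
    · intro n
      filter_upwards [ae_restrict_mem measurableSet_Ioi] with v hv
      have hv' : (0 : ℝ) < v := hv
      rw [norm_mul, Real.norm_of_nonneg (Real.exp_pos _).le, Real.norm_eq_abs]
      refine mul_le_of_le_one_right (abs_nonneg _) ?_
      rw [Real.exp_le_one_iff]
      have : 0 ≤ 1 / ((n : ℝ) + 1) * v := by positivity
      linarith
    · refine Eventually.of_forall fun v => ?_
      have h5 : Tendsto (fun n : ℕ => 1 / ((n : ℝ) + 1) * v) atTop (𝓝 (0 * v)) :=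
        tendsto_one_div_add_atTop_nhds_zero_nat.mul_const v
      have h6 := ((Real.continuous_exp.tendsto _).comp h5.neg).const_mul (rr v)
      simpa using h6
  have h5 := (Complex.continuous_ofReal.tendsto _).comp h4
  have h6 : Tendsto (fun n : ℕ => Ps ((1 / ((n : ℝ) + 1) : ℝ) : ℂ)) atTop (𝓝 ((∫ v in Ioi (0 : ℝ), rr v : ℝ) : ℂ)) := by
    refine h5.congr fun n => ?_
    rw [h3]
    rfl
  exact tendsto_nhds_unique h6 h2

lemma re_analytic {f : ℂ → ℂ} {x : ℝ} (hf : AnalyticAt ℂ f x) :
    AnalyticAt ℝ (fun x : ℝ => (f x).re) x := by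
  have h1 : AnalyticAt ℝ f (x : ℂ) := hf.restrictScalars
  have h2 : AnalyticAt ℝ (fun x : ℝ => (x : ℂ)) x := Complex.ofRealCLM.analyticAt x
  have h3 : AnalyticAt ℝ (fun z : ℂ => z.re) (f x) := Complex.reCLM.analyticAt _
  exact AnalyticAt.fun_comp h3 (AnalyticAt.fun_comp h1 h2)

/-- a zero of an entire function is not a zero of the derivative of at least the same order -/
lemma order_contra {Z N : ℂ → ℂ} {ρ : ℂ} (hZ : Differentiable ℂ Z) (hN : AnalyticAt ℂ N ρ) (h0 : Z ρ = 0)
    (h1 : Z 1 ≠ 0) (h : deriv Z =ᶠ[𝓝 ρ] fun z => Z z * N z) : False := by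
  have hZa : AnalyticAt ℂ Z ρ := hZ.analyticAt ρ
  have hord : analyticOrderAt Z ρ ≠ ⊤ := by
    intro htop
    rw [analyticOrderAt_eq_top] at htop
    have h2 : AnalyticOnNhd ℂ Z univ := fun z _ => hZ.analyticAt z
    have h3 := h2.eq_of_eventuallyEq (g := fun _ => 0) (fun z _ => analyticAt_const) (z₀ := ρ) htop
    exact h1 (congrFun h3 1)
  have h2 := hZa.analyticOrderAt_deriv_add_one
  have h3 : (fun z => Z z - Z ρ) = Z := by
    funext z
    rw [h0, sub_zero]
  rw [h3] at h2
  have h4 : analyticOrderAt (deriv Z) ρ = analyticOrderAt Z ρ + analyticOrderAt N ρ := by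
    rw [analyticOrderAt_congr h]
    exact analyticOrderAt_mul hZa hN
  rw [h4] at h2
  obtain ⟨m, hm⟩ := ENat.ne_top_iff_exists.1 hord
  rw [← hm] at h2
  cases h5 : analyticOrderAt N ρ with
  | top =>
    rw [h5] at h2
    simp at h2
  | coe k =>
    rw [h5] at h2
    have : m + k + 1 = m := by exact_mod_cast h2
    omega

/-- no one-sided bound for `J` -/
theorem JT_osc {ρ : ℂ} (hz : riemannZeta ρ = 0) {a C : ℝ} (ha : 0 < a) (ha2 : a < 1) (hρ : 1 - a < ρ.re)
    (hC : ∀ᶠ u : ℝ in atTop, -(C * Real.exp (-(a * u))) ≤ JT u) : False := by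
  obtain ⟨u0, hu0⟩ := eventually_atTop.1 hC
  obtain ⟨M, hM⟩ : ∃ M, M = ∫ v in Ioi (0 : ℝ), |rr v| := ⟨_, rfl⟩
  have hM0 : 0 ≤ M := by rw [hM]; exact setIntegral_nonneg measurableSet_Ioi fun v _ => abs_nonneg _
  obtain ⟨D, hD⟩ : ∃ D, D = |C| + M * Real.exp (a * |u0|) := ⟨_, rfl⟩
  have hD0 : 0 ≤ D := by rw [hD]; positivity
  obtain ⟨f, hf⟩ : ∃ f : ℝ → ℝ, f = fun u => JT (max u 0) + D * Real.exp (-(a * u)) := ⟨_, rfl⟩
  have hfm : Measurable f := by
    rw [hf]
    exact JT_meas.add (by fun_prop)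
  have hfpos : ∀ u, 0 < u → 0 ≤ f u := by
    intro u hu
    rw [hf]
    simp only
    rw [max_eq_left hu.le]
    rcases le_total u0 u with h | h
    · have h1 := hu0 u h
      have h2 : C * Real.exp (-(a * u)) ≤ D * Real.exp (-(a * u)) := by
        refine mul_le_mul_of_nonneg_right ?_ (Real.exp_pos _).le
        rw [hD]
        have := le_abs_self C
        have : 0 ≤ M * Real.exp (a * |u0|) := by positivity
        linarith
      linarith
    · have h1 := (abs_le.1 (JT_abs u hu.le)).1
      rw [← hM] at h1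
      have h2 : M ≤ D * Real.exp (-(a * u)) := by
        have h3 : M * Real.exp (a * |u0|) * Real.exp (-(a * u)) ≤ D * Real.exp (-(a * u)) := by
          refine mul_le_mul_of_nonneg_right ?_ (Real.exp_pos _).le
          rw [hD]
          have := abs_nonneg C
          linarith
        refine le_trans ?_ h3
        rw [mul_assoc, ← Real.exp_add]
        refine le_mul_of_one_le_right hM0 (Real.one_le_exp ?_)
        have : u ≤ |u0| := h.trans (le_abs_self _)
        nlinarith
      linarith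
  have hlint1 : ∀ w : ℝ, 0 < w → LInt f w := by
    intro w hw
    unfold Pool.Agent.W263.BSD.LInt
    have h1 : IntegrableOn (fun u : ℝ => (M + D) * Real.exp (-(w * u))) (Ioi 0) := by
      have := (integrableOn_exp_mul_Ioi (a := -w) (by linarith) 0).const_mul (M + D)
      refine IntegrableOn.congr_fun this (fun u _ => ?_) measurableSet_Ioi
      rw [neg_mul]
    refine Integrable.mono' h1 ((hfm.mul (by fun_prop)).aestronglyMeasurable) ?_
    filter_upwards [ae_restrict_mem measurableSet_Ioi] with u hu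
    have hu' : (0 : ℝ) < u := hu
    rw [norm_mul, Real.norm_of_nonneg (Real.exp_pos _).le]
    refine mul_le_mul_of_nonneg_right ?_ (Real.exp_pos _).le
    rw [hf, Real.norm_eq_abs]
    refine (abs_add_le _ _).trans (add_le_add ?_ ?_)
    · rw [hM]
      exact JT_abs _ (le_max_right _ _)
    · rw [abs_of_nonneg (by positivity)]
      refine mul_le_of_le_one_right hD0 ?_
      rw [Real.exp_le_one_iff]
      have := mul_pos ha hu'
      linarith
  -- the complex transform
  have htr : ∀ w : ℂ, 0 < w.re → lapC f w = ((JT 0 : ℂ) - Ps w) / w + D / (w + a) := by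
    intro w hw
    have hwa : 0 < (w + a).re := by rw [Complex.add_re, Complex.ofReal_re]; linarith
    obtain ⟨e1, e2⟩ := exp_lap hwa
    have h1 := JT_lap hw
    unfold Pool.Agent.W263.BSD.lapC
    have h2 : ∫ u in Ioi (0 : ℝ), (f u : ℂ) * Complex.exp (-(w * u)) =
        ∫ u in Ioi (0 : ℝ), (Complex.exp (-(w * u)) * (JT u : ℂ) + D * Complex.exp (-((w + a) * u))) := by
      refine setIntegral_congr_fun measurableSet_Ioi fun u hu => ?_
      have hu' : (0 : ℝ) < u := hu
      show (f u : ℂ) * Complex.exp (-(w * u)) = Complex.exp (-(w * u)) * (JT u : ℂ) + D * Complex.exp (-((w + a) * u))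
      rw [hf]
      simp only
      rw [max_eq_left hu'.le]
      push_cast
      have : Complex.exp (-((w + a) * u)) = Complex.exp (-(a * u)) * Complex.exp (-(w * u)) := by
        rw [← Complex.exp_add]; congr 1; ring
      rw [this]
      ring
    have hi : IntegrableOn (fun u : ℝ => Complex.exp (-(w * u)) * (JT u : ℂ)) (Ioi 0) := by
      have h3 : IntegrableOn (fun u : ℝ => M * Real.exp (-(w.re * u))) (Ioi 0) := by
        have := (integrableOn_exp_mul_Ioi (a := -w.re) (by linarith) 0).const_mul M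
        refine IntegrableOn.congr_fun this (fun u _ => ?_) measurableSet_Ioi
        rw [neg_mul]
      have h4 : AEStronglyMeasurable (fun u : ℝ => Complex.exp (-(w * u)) * (JT (max u 0) : ℂ)) (volume.restrict (Ioi 0)) :=
        (Measurable.mul (by fun_prop) (Complex.measurable_ofReal.comp JT_meas)).aestronglyMeasurable
      have h5 : IntegrableOn (fun u : ℝ => Complex.exp (-(w * u)) * (JT (max u 0) : ℂ)) (Ioi 0) := by
        refine Integrable.mono' h3 h4 ?_
        filter_upwards [ae_restrict_mem measurableSet_Ioi] with u hu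
        rw [norm_mul, Complex.norm_exp, Complex.norm_real, mul_comm]
        have e3 : (-(w * (u : ℂ))).re = -(w.re * u) := by
          rw [Complex.neg_re, Complex.re_mul_ofReal]
        rw [e3]
        refine mul_le_mul_of_nonneg_right ?_ (Real.exp_pos _).le
        rw [hM]
        exact JT_abs _ (le_max_right _ _)
      refine h5.congr_fun (fun u hu => ?_) measurableSet_Ioi
      have hu' : (0 : ℝ) < u := hu
      simp only
      rw [max_eq_left hu'.le]
    rw [h2, integral_add hi (e1.const_mul _), h1, integral_const_mul, e2]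
    ring
  -- the real analytic continuation
  obtain ⟨G, hG⟩ : ∃ G : ℂ → ℂ, G = fun w => -dslope Ps 0 w + D / (w + a) := ⟨_, rfl⟩
  have hGan : ∀ w : ℝ, -a < w → AnalyticAt ℂ G (w : ℂ) := by
    intro w hw
    obtain ⟨U, hU⟩ : ∃ U : Set ℂ, U = {z : ℂ | riemannZeta₁ (1 + z) ≠ 0 ∧ 1 + z ≠ 0} := ⟨_, rfl⟩
    have hUo : IsOpen U := by
      rw [hU]
      have c1 : Continuous fun z : ℂ => riemannZeta₁ (1 + z) :=
        differentiable_riemannZeta₁.continuous.comp (by fun_prop)
      exact (isOpen_ne_fun c1 continuous_const).inter (isOpen_ne_fun (by fun_prop) continuous_const)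
    have hreal : ∀ x : ℝ, -a < x → (x : ℂ) ∈ U := by
      intro x hx
      rw [hU]
      constructor
      · have := zeta1_real_ne (x := 1 + x) (by linarith)
        push_cast at this
        exact this
      · have : (1 + x : ℝ) ≠ 0 := by linarith
        exact_mod_cast this
    have hPd : DifferentiableOn ℂ Ps U := by
      intro z hz
      rw [hU] at hz
      exact (Ps_diff hz.1 hz.2).differentiableWithinAt
    have h0U : U ∈ 𝓝 (0 : ℂ) := hUo.mem_nhds (by simpa using hreal 0 (by linarith))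
    have hds : DifferentiableOn ℂ (dslope Ps 0) U := (Complex.differentiableOn_dslope h0U).2 hPd
    have h1 : AnalyticAt ℂ (dslope Ps 0) (w : ℂ) := hds.analyticAt (hUo.mem_nhds (hreal w hw))
    rw [hG]
    refine h1.neg.add ?_
    refine AnalyticAt.div analyticAt_const (analyticAt_id.add analyticAt_const) ?_
    have : (w + a : ℝ) ≠ 0 := by linarith
    show (w : ℂ) + a ≠ 0
    exact_mod_cast this
  have hGeq : ∀ w : ℂ, w ≠ 0 → G w = ((JT 0 : ℂ) - Ps w) / w + D / (w + a) := by
    intro w hw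
    rw [hG]
    simp only
    rw [dslope_of_ne _ hw, slope_def_field, Ps_zero]
    ring
  have hland := Pool.Agent.TH988.RB.landau_lap hfm hfpos (a := -a) (w1 := 0) (fun w hw => hlint1 w hw)
    (g := fun w : ℝ => (G w).re) (fun w hw => re_analytic (hGan w hw)) (fun w hw _ => by
      have hw0 : (w : ℂ) ≠ 0 := by exact_mod_cast hw.ne'
      have h1 := htr (w : ℂ) (by simpa using hw)
      rw [lapC_ofReal] at h1
      rw [hGeq _ hw0, ← h1, Complex.ofReal_re])
  -- the identity on the half plane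
  have hLd : ∀ z : ℂ, -a < z.re → DifferentiableAt ℂ (lapC f) z := fun z hz =>
    Pool.Agent.W263.BSD.lapC_differentiableAt hfm (fun w hw => hland.1 w hw) hz
  have hd : Differentiable ℂ riemannZeta₁ := differentiable_riemannZeta₁
  have hd2 : Differentiable ℂ (deriv riemannZeta₁) := by
    have : ContDiff ℂ 2 riemannZeta₁ := hd.contDiff
    exact (this.differentiable_deriv_two)
  have hc1 : Differentiable ℂ fun w : ℂ => riemannZeta₁ (1 + w) := hd.comp (by fun_prop)
  have hc2 : Differentiable ℂ fun w : ℂ => deriv riemannZeta₁ (1 + w) := hd2.comp (by fun_prop)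
  obtain ⟨H1, hH1⟩ : ∃ H1 : ℂ → ℂ, H1 = fun w => w * (1 + w) * (w + a) * riemannZeta₁ (1 + w) * lapC f w := ⟨_, rfl⟩
  obtain ⟨H2, hH2⟩ : ∃ H2 : ℂ → ℂ, H2 = fun w => (w + a) * ((1 + w) * (JT 0 : ℂ) * riemannZeta₁ (1 + w) +
      deriv riemannZeta₁ (1 + w) + riemannZeta₁ (1 + w)) + D * w * (1 + w) * riemannZeta₁ (1 + w) := ⟨_, rfl⟩
  have hUo : IsOpen {z : ℂ | -a < z.re} := isOpen_lt continuous_const Complex.continuous_re
  have hA1 : AnalyticOnNhd ℂ H1 {z : ℂ | -a < z.re} := by
    apply DifferentiableOn.analyticOnNhd _ hUo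
    intro z hz
    rw [hH1]
    have := hLd z hz
    have := hc1 z
    exact DifferentiableAt.differentiableWithinAt (by fun_prop)
  have hA2 : AnalyticOnNhd ℂ H2 {z : ℂ | -a < z.re} := by
    apply DifferentiableOn.analyticOnNhd _ hUo
    rw [hH2]
    exact Differentiable.differentiableOn (by fun_prop)
  have hpre : IsPreconnected {z : ℂ | -a < z.re} := (convex_halfSpace_re_gt (-a)).isPreconnected
  have hev : H1 =ᶠ[𝓝 (1 : ℂ)] H2 := by
    have ho : {z : ℂ | 0 < z.re} ∈ 𝓝 (1 : ℂ) :=
      (isOpen_lt continuous_const Complex.continuous_re).mem_nhds (by simp)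
    filter_upwards [ho] with w hw
    have hw' : 0 < w.re := hw
    have hw0 : w ≠ 0 := by rintro rfl; simp at hw'
    have hw1 : 1 + w ≠ 0 := by
      intro h
      have := congrArg Complex.re h
      simp at this
      linarith
    have hwa : w + a ≠ 0 := by
      intro h
      have := congrArg Complex.re h
      simp at this
      linarith
    have hzz : riemannZeta₁ (1 + w) ≠ 0 := by
      have hne : 1 + w ≠ 1 := by
        intro h
        exact hw0 (by linear_combination h)
      rw [zeta1_eq hne, add_sub_cancel_left]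
      refine mul_ne_zero hw0 (riemannZeta_ne_zero_of_one_lt_re ?_)
      rw [Complex.add_re, Complex.one_re]; linarith
    rw [hH1, hH2]
    simp only
    rw [htr w hw']
    unfold Ps
    field_simp
    ring
  have hEq := hA1.eqOn_of_preconnected_of_eventuallyEq hA2 hpre (show (1 : ℂ) ∈ {z : ℂ | -a < z.re} by
    simp; linarith) hev
  -- contradiction at the zero
  have hρ1 : ρ ≠ 1 := by
    rintro rfl
    exact riemannZeta_one_ne_zero hz
  have hw0 : -a < (ρ - 1).re := by rw [Complex.sub_re, Complex.one_re]; linarith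
  have hZρ : riemannZeta₁ ρ = 0 := by rw [zeta1_eq hρ1, hz, mul_zero]
  obtain ⟨N, hN⟩ : ∃ N : ℂ → ℂ, N = fun s => ((s - 1) * s * (s - 1 + a) * lapC f (s - 1) -
      (s - 1 + a) * (s * (JT 0 : ℂ) + 1) - D * (s - 1) * s) / (s - 1 + a) := ⟨_, rfl⟩
  have hUs : IsOpen {s : ℂ | -a < (s - 1).re} :=
    isOpen_lt continuous_const (Complex.continuous_re.comp (by fun_prop))
  have hNan : AnalyticAt ℂ N ρ := by
    have : DifferentiableOn ℂ N {s : ℂ | -a < (s - 1).re} := by
      intro s hs
      rw [hN]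
      have h1 := hLd (s - 1) hs
      have h2 : DifferentiableAt ℂ (fun s : ℂ => lapC f (s - 1)) s :=
        DifferentiableAt.comp (g := lapC f) (f := fun s : ℂ => s - 1) s h1 (by fun_prop)
      have h2' : DifferentiableAt ℂ (fun s : ℂ => (s - 1) * s * (s - 1 + a) * lapC f (s - 1) -
        (s - 1 + a) * (s * (JT 0 : ℂ) + 1) - D * (s - 1) * s) s := by
        refine DifferentiableAt.sub (DifferentiableAt.sub (DifferentiableAt.mul (by fun_prop) h2) (by fun_prop)) (by fun_prop)
      have h3 : s - 1 + a ≠ 0 := by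
        intro h
        have h4 := congrArg Complex.re h
        have h5 : -a < (s - 1).re := hs
        rw [Complex.add_re, Complex.ofReal_re, Complex.zero_re] at h4
        linarith
      exact DifferentiableAt.differentiableWithinAt (DifferentiableAt.div h2' (by fun_prop) h3)
    exact this.analyticAt (hUs.mem_nhds hw0)
  refine order_contra hd hNan hZρ (by rw [riemannZeta₁_one]; exact one_ne_zero) ?_
  filter_upwards [hUs.mem_nhds hw0] with s hs
  have h1 := hEq hs
  rw [hH1, hH2] at h1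
  simp only at h1
  have e : 1 + (s - 1) = s := by ring
  rw [e] at h1
  have h3 : s - 1 + a ≠ 0 := by
    intro h
    have h4 := congrArg Complex.re h
    have h5 : -a < (s - 1).re := hs
    rw [Complex.add_re, Complex.ofReal_re, Complex.zero_re] at h4
    linarith
  rw [hN]
  simp only
  rw [mul_div_assoc', eq_div_iff h3]
  linear_combination (-1 : ℂ) * h1

/-- the oscillation of `K` -/
theorem KT_osc {ρ : ℂ} (hz : riemannZeta ρ = 0) {a : ℝ} (ha : 0 < a) (ha2 : a < 1) (hρ : 1 - a < ρ.re) :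
    ∃ᶠ u : ℝ in atTop, KT u < -Real.exp (-(a * u)) := by
  by_contra hcon
  rw [not_frequently] at hcon
  have hρ1 : ρ.re < 1 := by
    by_contra h
    exact riemannZeta_ne_zero_of_one_le_re (not_lt.1 h) hz
  obtain ⟨a', h1, h2⟩ := exists_between (show 1 - ρ.re < a by linarith)
  have ha' : 0 < a' := by linarith
  refine JT_osc hz (a := a') (C := 1) ha' (by linarith) (by linarith) ?_
  obtain ⟨u0, hu0⟩ := eventually_atTop.1 hcon
  have h3 : Tendsto (fun u : ℝ => (u + 1 / a) * Real.exp (-((a - a') * u))) atTop (𝓝 0) := by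
    have e1 := (tendsto_rpow_mul_exp_neg_mul_atTop_nhds_zero 1 (a - a') (by linarith))
    have e2 := (tendsto_rpow_mul_exp_neg_mul_atTop_nhds_zero 0 (a - a') (by linarith)).const_mul (1 / a)
    have e3 := e1.add e2
    simp only [mul_zero, add_zero] at e3
    refine e3.congr fun u => ?_
    rw [Real.rpow_one, Real.rpow_zero]
    have : -(a - a') * u = -((a - a') * u) := by ring
    rw [this]
    ring
  filter_upwards [h3.eventually (gt_mem_nhds one_pos), eventually_ge_atTop u0, eventually_ge_atTop 1] with u g1 g2 g3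
  have h4 := JT_ge ha g3 (fun y hy => not_lt.1 (hu0 y (g2.trans hy)))
  have h5 : (u + 1 / a) * Real.exp (-(a * u)) ≤ 1 * Real.exp (-(a' * u)) := by
    have e1 : Real.exp (-(a * u)) = Real.exp (-((a - a') * u)) * Real.exp (-(a' * u)) := by
      rw [← Real.exp_add]; congr 1; ring
    rw [e1, ← mul_assoc]
    exact mul_le_mul_of_nonneg_right g1.le (Real.exp_pos _).le
  linarith

end

end Pool.Agent.X112.RO
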