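import Pool.Agent.X112.RO.C
import Pool.Agent.H305R2.MertensE

set_option autoImplicit false

/-!
# The version with `θ` and the sum of the reciprocals of the primes
-/

open MeasureTheory Filter Topology Set

namespace Pool.Agent.X112.RO

noncomputable section

/-- the relative error `θ(e^v) e^{-v} - 1` -/
def rt (v : ℝ) : ℝ := Chebyshev.theta (Real.exp v) * Real.exp (-v) - 1

/-- `rt(v) (1 + v) / v²` -/
def kt (v : ℝ) : ℝ := rt v * ((1 + v) / v ^ 2)

/-- `∫_u^∞ kt` -/
def KQ (u : ℝ) : ℝ := ∫ v in Ioi u, kt v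

lemma rt_meas : Measurable rt := by
  unfold rt
  exact ((theta_meas.comp Real.measurable_exp).mul (by fun_prop)).sub_const 1

lemma kt_meas : Measurable kt := by
  unfold kt
  exact rt_meas.mul (by fun_prop)

lemma exp_mul_neg (v : ℝ) : Real.exp v * Real.exp (-v) = 1 := by
  rw [← Real.exp_add]; simp

lemma rt_le_rr (v : ℝ) : rt v ≤ rr v := by
  unfold rt rr
  have := mul_le_mul_of_nonneg_right (Chebyshev.theta_le_psi (Real.exp v)) (Real.exp_pos (-v)).le
  linarith

lemma rr_sub_rt : ∃ C : ℝ, 0 < C ∧ ∀ v : ℝ, rr v - rt v ≤ C * Real.exp (-(v / 2)) := by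
  obtain ⟨C, hC⟩ := Chebyshev.psi_sub_theta_le_mul_sqrt
  refine ⟨max C 1, by positivity, fun v => ?_⟩
  unfold rt rr
  have h1 := hC (Real.exp v)
  have h2 : √(Real.exp v) = Real.exp (v / 2) := by
    rw [Real.sqrt_eq_iff_mul_self_eq (Real.exp_pos _).le (Real.exp_pos _).le, ← Real.exp_add]
    congr 1; ring
  rw [h2] at h1
  have h3 : C * Real.exp (v / 2) ≤ max C 1 * Real.exp (v / 2) :=
    mul_le_mul_of_nonneg_right (le_max_left _ _) (Real.exp_pos _).le
  have h4 := mul_le_mul_of_nonneg_right (h1.trans h3) (Real.exp_pos (-v)).le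
  have h5 : Real.exp (v / 2) * Real.exp (-v) = Real.exp (-(v / 2)) := by
    rw [← Real.exp_add]; congr 1; ring
  rw [mul_assoc, h5] at h4
  linarith

lemma exp_half_ii {u : ℝ} : IntegrableOn (fun v : ℝ => Real.exp (-(v / 2))) (Ioi u) := by
  have := integrableOn_exp_mul_Ioi (a := -(1 / 2)) (by norm_num) u
  refine IntegrableOn.congr_fun this (fun v _ => ?_) measurableSet_Ioi
  congr 1; ring

lemma rt_ii {u : ℝ} (hu : 0 ≤ u) : IntegrableOn rt (Ioi u) := by
  obtain ⟨C, hC, h⟩ := rr_sub_rt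
  have h1 : IntegrableOn (fun v : ℝ => |rr v| + C * Real.exp (-(v / 2))) (Ioi u) :=
    (rr_iiu hu).norm.add (exp_half_ii.const_mul C)
  refine Integrable.mono' h1 rt_meas.aestronglyMeasurable ?_
  refine Eventually.of_forall fun v => ?_
  rw [Real.norm_eq_abs]
  have h2 := h v
  have h3 := rt_le_rr v
  have h4 := neg_abs_le (rr v)
  have h5 := le_abs_self (rr v)
  have h6 : 0 ≤ C * Real.exp (-(v / 2)) := by positivity
  rw [abs_le]
  constructor <;> linarith

lemma kt_ii {u : ℝ} (hu : 0 < u) : IntegrableOn kt (Ioi u) := by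
  refine Integrable.mono' ((rt_ii hu.le).norm.mul_const ((1 + u) / u ^ 2)) kt_meas.aestronglyMeasurable ?_
  filter_upwards [ae_restrict_mem measurableSet_Ioi] with v hv
  unfold kt
  rw [norm_mul]
  exact mul_le_mul_of_nonneg_left (fac_bd hu hv) (norm_nonneg _)

lemma KQ_le {u : ℝ} (hu : 0 < u) : KQ u ≤ KT u := by
  refine setIntegral_mono_on (kt_ii hu) (kr_ii hu) measurableSet_Ioi fun v hv => ?_
  have hv' : u < v := hv
  have hv0 : 0 < v := hu.trans hv'
  unfold kt kr
  exact mul_le_mul_of_nonneg_right (rt_le_rr v) (by positivity)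

lemma KQ_bd {u : ℝ} (hu : 1 ≤ u) : |KQ u| ≤ 2 * (∫ v in Ioi 0, |rt v|) / u := by
  have hu0 : 0 < u := by linarith
  unfold KQ
  refine (abs_integral_le_integral_abs).trans ?_
  have h1 : ∫ v in Ioi u, |kt v| ≤ ∫ v in Ioi u, |rt v| * (2 / u) := by
    refine setIntegral_mono_on (kt_ii hu0).norm ((rt_ii hu0.le).norm.mul_const _) measurableSet_Ioi fun v hv => ?_
    have hv' : u < v := hv
    unfold kt
    rw [abs_mul]
    refine mul_le_mul_of_nonneg_left ((fac_bd hu0 hv').trans ?_) (abs_nonneg _)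
    rw [div_le_div_iff₀ (by positivity) hu0]
    nlinarith
  refine h1.trans ?_
  rw [integral_mul_const]
  have h2 : ∫ v in Ioi u, |rt v| ≤ ∫ v in Ioi 0, |rt v| :=
    setIntegral_mono_set (rt_ii le_rfl).norm (Eventually.of_forall fun v => abs_nonneg _)
      (Ioi_subset_Ioi hu0.le).eventuallyLE
  have h3 : (0 : ℝ) ≤ 2 / u := by positivity
  calc (∫ v in Ioi u, |rt v|) * (2 / u) ≤ (∫ v in Ioi 0, |rt v|) * (2 / u) := mul_le_mul_of_nonneg_right h2 h3
    _ = _ := by ring

/-! ### Abel summation -/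

lemma fd {t : ℝ} (ht : 1 < t) : HasDerivAt (fun t : ℝ => (t * Real.log t)⁻¹)
    (-((1 + Real.log t) / (t * Real.log t) ^ 2)) t := by
  have h0 : t ≠ 0 := by linarith
  have hl : 0 < Real.log t := Real.log_pos ht
  have h1 : HasDerivAt (fun t : ℝ => t * Real.log t) (1 * Real.log t + t * t⁻¹) t :=
    (hasDerivAt_id t).mul (Real.hasDerivAt_log h0)
  have h2 := h1.inv (mul_ne_zero h0 hl.ne')
  have e : -((1 + Real.log t) / (t * Real.log t) ^ 2) =
      -(1 * Real.log t + t * t⁻¹) / (t * Real.log t) ^ 2 := by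
    rw [mul_inv_cancel₀ h0]
    ring
  rw [e]
  exact h2

lemma gd {v : ℝ} (hv : 0 < v) : HasDerivAt (fun v : ℝ => Real.log v - v⁻¹) ((1 + v) / v ^ 2) v := by
  have h1 := (Real.hasDerivAt_log hv.ne').sub (hasDerivAt_inv hv.ne')
  have e : (1 + v) / v ^ 2 = v⁻¹ - -(v ^ 2)⁻¹ := by
    field_simp
    ring
  rw [e]
  exact h1

lemma fac_int {a b : ℝ} (ha : 0 < a) (hab : a ≤ b) :
    IntegrableOn (fun v : ℝ => (1 + v) / v ^ 2) (Ioc a b) ∧
    ∫ v in Ioc a b, (1 + v) / v ^ 2 = (Real.log b - b⁻¹) - (Real.log a - a⁻¹) := by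
  have hc : ContinuousOn (fun v : ℝ => (1 + v) / v ^ 2) (Icc a b) := by
    refine ContinuousOn.div (by fun_prop) (by fun_prop) fun y hy => ?_
    have : 0 < y := ha.trans_le hy.1
    positivity
  refine ⟨(hc.integrableOn_compact isCompact_Icc).mono_set Ioc_subset_Icc_self, ?_⟩
  rw [← intervalIntegral.integral_of_le hab]
  apply intervalIntegral.integral_eq_sub_of_hasDerivAt (f := fun v : ℝ => Real.log v - v⁻¹)
  · intro y hy
    rw [uIcc_of_le hab] at hy
    exact gd (ha.trans_le hy.1)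
  · apply ContinuousOn.intervalIntegrable
    rw [uIcc_of_le hab]
    exact hc

lemma int_log_change (g : ℝ → ℝ) {a b : ℝ} (ha : 0 < a) (hb : 0 < b) :
    ∫ t in Ioc a b, g t = ∫ v in Ioc (Real.log a) (Real.log b), Real.exp v * g (Real.exp v) := by
  have h1 : Real.exp '' (Ioc (Real.log a) (Real.log b)) = Ioc a b := by
    ext t
    simp only [Set.mem_image, Set.mem_Ioc]
    constructor
    · rintro ⟨v, ⟨hv1, hv2⟩, rfl⟩
      exact ⟨(Real.log_lt_iff_lt_exp ha).1 hv1, (Real.le_log_iff_exp_le hb).1 hv2⟩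
    · rintro ⟨ht1, ht2⟩
      have ht : 0 < t := ha.trans ht1
      exact ⟨Real.log t, ⟨Real.log_lt_log ha ht1, Real.log_le_log ht ht2⟩, Real.exp_log ht⟩
  have h2 := integral_image_eq_integral_abs_deriv_smul (s := Ioc (Real.log a) (Real.log b)) (f := Real.exp)
    (f' := Real.exp) measurableSet_Ioc (fun x _ => (Real.hasDerivAt_exp x).hasDerivWithinAt) Real.exp_injective.injOn g
  rw [h1] at h2
  rw [h2]
  refine setIntegral_congr_fun measurableSet_Ioc fun v _ => ?_
  rw [abs_of_pos (Real.exp_pos v), smul_eq_mul]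

/-- the sum of the reciprocals of the primes in `(a, b]` -/
theorem abel {a b : ℝ} (ha : 1 < a) (hab : a ≤ b) :
    ∑ p ∈ (Finset.Ioc ⌊a⌋₊ ⌊b⌋₊).filter Nat.Prime, (1 / (p : ℝ)) =
      (Chebyshev.theta b - b) / (b * Real.log b) - (Chebyshev.theta a - a) / (a * Real.log a) +
      (Real.log (Real.log b) - Real.log (Real.log a)) + (KQ (Real.log a) - KQ (Real.log b)) := by
  have hb : 1 < b := ha.trans_le hab
  have hla : 0 < Real.log a := Real.log_pos ha
  have hlb : 0 < Real.log b := Real.log_pos hb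
  have hlab : Real.log a ≤ Real.log b := Real.log_le_log (by linarith) hab
  obtain ⟨c, hc⟩ : ∃ c : ℕ → ℝ, c = fun n => if n.Prime then Real.log n else 0 := ⟨_, rfl⟩
  have hth : ∀ t : ℝ, ∑ k ∈ Finset.Icc 0 ⌊t⌋₊, c k = Chebyshev.theta t := by
    intro t
    rw [Chebyshev.theta_eq_sum_Icc, Finset.sum_filter, hc]
  have hder : ∀ t ∈ Icc a b, deriv (fun t : ℝ => (t * Real.log t)⁻¹) t = -((1 + Real.log t) / (t * Real.log t) ^ 2) :=
    fun t ht => (fd (ha.trans_le ht.1)).deriv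
  have hcont : ContinuousOn (fun t : ℝ => -((1 + Real.log t) / (t * Real.log t) ^ 2)) (Icc a b) := by
    have hlog : ContinuousOn Real.log (Icc a b) := Real.continuousOn_log.mono fun t ht => by
      have : 1 < t := ha.trans_le ht.1
      simp only [mem_compl_iff, mem_singleton_iff]
      linarith
    refine ContinuousOn.neg (ContinuousOn.div (continuousOn_const.add hlog) ((continuousOn_id.mul hlog).pow 2) ?_)
    intro t ht
    have h1 : 1 < t := ha.trans_le ht.1
    have := Real.log_pos h1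
    positivity
  have h := sum_mul_eq_sub_sub_integral_mul c (f := fun t : ℝ => (t * Real.log t)⁻¹) (a := a) (b := b) (by linarith) hab
    (fun t ht => (fd (ha.trans_le ht.1)).differentiableAt)
    (IntegrableOn.congr_fun (hcont.integrableOn_compact isCompact_Icc) (fun t ht => (hder t ht).symm) measurableSet_Icc)
  have e1 : ∑ k ∈ Finset.Ioc ⌊a⌋₊ ⌊b⌋₊, (fun t : ℝ => (t * Real.log t)⁻¹) (k : ℝ) * c k =
      ∑ p ∈ (Finset.Ioc ⌊a⌋₊ ⌊b⌋₊).filter Nat.Prime, (1 / (p : ℝ)) := by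
    rw [Finset.sum_filter]
    refine Finset.sum_congr rfl fun k _ => ?_
    rw [hc]
    simp only
    split_ifs with hp
    · have h2 : (1 : ℝ) < k := by exact_mod_cast hp.one_lt
      have := Real.log_pos h2
      field_simp
    · ring
  rw [e1, hth, hth] at h
  have e2 : ∫ t in Ioc a b, deriv (fun t : ℝ => (t * Real.log t)⁻¹) t * ∑ k ∈ Finset.Icc 0 ⌊t⌋₊, c k =
      -(∫ v in Ioc (Real.log a) (Real.log b), (kt v + (1 + v) / v ^ 2)) := by
    rw [← integral_neg]
    have e3 : ∫ t in Ioc a b, deriv (fun t : ℝ => (t * Real.log t)⁻¹) t * ∑ k ∈ Finset.Icc 0 ⌊t⌋₊, c k =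
        ∫ t in Ioc a b, -((1 + Real.log t) / (t * Real.log t) ^ 2) * Chebyshev.theta t := by
      refine setIntegral_congr_fun measurableSet_Ioc fun t ht => ?_
      show deriv (fun t : ℝ => (t * Real.log t)⁻¹) t * ∑ k ∈ Finset.Icc 0 ⌊t⌋₊, c k =
        -((1 + Real.log t) / (t * Real.log t) ^ 2) * Chebyshev.theta t
      rw [hth, hder t (Ioc_subset_Icc_self ht)]
    rw [e3, int_log_change _ (by linarith) (by linarith)]
    refine setIntegral_congr_fun measurableSet_Ioc fun v hv => ?_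
    have hv0 : 0 < v := hla.trans hv.1
    show Real.exp v * (-((1 + Real.log (Real.exp v)) / (Real.exp v * Real.log (Real.exp v)) ^ 2) *
      Chebyshev.theta (Real.exp v)) = -(kt v + (1 + v) / v ^ 2)
    unfold kt rt
    rw [Real.log_exp, Real.exp_neg]
    have := Real.exp_pos v
    field_simp
    ring
  obtain ⟨i1, i2⟩ := fac_int hla hlab
  have i3 : IntegrableOn kt (Ioc (Real.log a) (Real.log b)) := (kt_ii hla).mono_set Ioc_subset_Ioi_self
  have e4 : ∫ v in Ioc (Real.log a) (Real.log b), kt v = KQ (Real.log a) - KQ (Real.log b) := by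
    unfold KQ
    rw [intervalIntegral.integral_Ioi_sub_Ioi (kt_ii hla) hlab, intervalIntegral.integral_of_le hlab]
  rw [e2, integral_add i3 i1, i2, e4] at h
  rw [h]
  have ha0 : 0 < a := by linarith
  have hb0 : 0 < b := by linarith
  field_simp
  ring

/-! ### the Mertens product -/

/-- `- log (1 - 1/p)` -/
def bb (p : ℕ) : ℝ := -Real.log (1 - 1 / (p : ℝ))

/-- `∑_{p ≤ x} - log (1 - 1/p)` -/
def BB (x : ℝ) : ℝ := ∑ p ∈ (Finset.Icc 1 ⌊x⌋₊).filter Nat.Prime, bb p

/-- the remainder in Mertens' formula -/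
def FF (x : ℝ) : ℝ := BB x - Real.log (Real.log x) - (Chebyshev.theta x - x) / (x * Real.log x) + KQ (Real.log x)

lemma bb_ge {p : ℕ} (hp : 2 ≤ p) : 1 / (p : ℝ) ≤ bb p := by
  have h2 : (2 : ℝ) ≤ p := by exact_mod_cast hp
  unfold bb
  have h1 : 0 < 1 - 1 / (p : ℝ) := by
    rw [sub_pos, div_lt_one (by linarith)]; linarith
  have := Real.log_le_sub_one_of_pos h1
  linarith

lemma bb_le {p : ℕ} (hp : 2 ≤ p) : bb p ≤ 1 / ((p : ℝ) - 1) := by
  have h2 : (2 : ℝ) ≤ p := by exact_mod_cast hp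
  unfold bb
  have h1 : 0 < 1 - 1 / (p : ℝ) := by
    rw [sub_pos, div_lt_one (by linarith)]; linarith
  have h3 := Real.log_le_sub_one_of_pos (inv_pos.2 h1)
  rw [Real.log_inv] at h3
  have h4 : (1 - 1 / (p : ℝ))⁻¹ - 1 = 1 / ((p : ℝ) - 1) := by
    have e1 : (p : ℝ) ≠ 0 := by linarith
    have e2 : (p : ℝ) - 1 ≠ 0 := by linarith
    field_simp
    ring
  linarith

lemma tele {m n : ℕ} (hm : 1 ≤ m) (hmn : m ≤ n) :
    ∑ k ∈ Finset.Ioc m n, (1 / ((k : ℝ) - 1) - 1 / (k : ℝ)) = 1 / (m : ℝ) - 1 / (n : ℝ) := by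
  induction n, hmn using Nat.le_induction with
  | base => simp
  | succ n hmn ih =>
    rw [Finset.sum_Ioc_succ_top (by omega), ih]
    push_cast
    rw [add_sub_cancel_right]
    ring

lemma BB_sub {a b : ℝ} (ha : 2 ≤ a) (hab : a ≤ b) :
    0 ≤ BB b - BB a - ∑ p ∈ (Finset.Ioc ⌊a⌋₊ ⌊b⌋₊).filter Nat.Prime, (1 / (p : ℝ)) ∧
    BB b - BB a - ∑ p ∈ (Finset.Ioc ⌊a⌋₊ ⌊b⌋₊).filter Nat.Prime, (1 / (p : ℝ)) ≤ 1 / (⌊a⌋₊ : ℝ) := by
  have hfa : 2 ≤ ⌊a⌋₊ := Nat.le_floor (by exact_mod_cast ha)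
  have hfab : ⌊a⌋₊ ≤ ⌊b⌋₊ := Nat.floor_le_floor hab
  have e1 : BB b - BB a = ∑ p ∈ (Finset.Ioc ⌊a⌋₊ ⌊b⌋₊).filter Nat.Prime, bb p := by
    unfold BB
    rw [sub_eq_iff_eq_add, add_comm, ← Finset.sum_union]
    · congr 1
      rw [← Finset.filter_union]
      congr 1
      ext k
      simp only [Finset.mem_Icc, Finset.mem_union, Finset.mem_Ioc]
      omega
    · rw [Finset.disjoint_left]
      intro k h1 h2
      simp only [Finset.mem_filter, Finset.mem_Icc, Finset.mem_Ioc] at h1 h2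
      omega
  rw [e1, ← Finset.sum_sub_distrib]
  constructor
  · refine Finset.sum_nonneg fun p hp => ?_
    simp only [Finset.mem_filter, Finset.mem_Ioc] at hp
    have := bb_ge hp.2.two_le
    linarith
  · calc ∑ p ∈ (Finset.Ioc ⌊a⌋₊ ⌊b⌋₊).filter Nat.Prime, (bb p - 1 / (p : ℝ)) ≤
        ∑ p ∈ (Finset.Ioc ⌊a⌋₊ ⌊b⌋₊).filter Nat.Prime, (1 / ((p : ℝ) - 1) - 1 / (p : ℝ)) := by
          refine Finset.sum_le_sum fun p hp => ?_
          simp only [Finset.mem_filter, Finset.mem_Ioc] at hp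
          have := bb_le hp.2.two_le
          linarith
      _ ≤ ∑ k ∈ Finset.Ioc ⌊a⌋₊ ⌊b⌋₊, (1 / ((k : ℝ) - 1) - 1 / (k : ℝ)) := by
          refine Finset.sum_le_sum_of_subset_of_nonneg (Finset.filter_subset _ _) fun k hk _ => ?_
          simp only [Finset.mem_Ioc] at hk
          have h2 : (2 : ℝ) < k := by exact_mod_cast (show 2 < k by omega)
          rw [sub_nonneg]
          exact one_div_le_one_div_of_le (by linarith) (by linarith)
      _ = 1 / (⌊a⌋₊ : ℝ) - 1 / (⌊b⌋₊ : ℝ) := tele (by omega) hfab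
      _ ≤ 1 / (⌊a⌋₊ : ℝ) := by
          have : (0 : ℝ) ≤ 1 / (⌊b⌋₊ : ℝ) := by positivity
          linarith

lemma FF_sub {a b : ℝ} (ha : 2 ≤ a) (hab : a ≤ b) : FF a ≤ FF b ∧ FF b ≤ FF a + 1 / (⌊a⌋₊ : ℝ) := by
  obtain ⟨h1, h2⟩ := BB_sub ha hab
  rw [abel (by linarith) hab] at h1 h2
  unfold FF
  constructor <;> linarith

lemma FF_tendsto : Tendsto (fun N : ℕ => FF (N : ℝ)) atTop (𝓝 Real.eulerMascheroniConstant) := by
  have h1 : Tendsto (fun N : ℕ => BB (N : ℝ) - Real.log (Real.log N)) atTop (𝓝 Real.eulerMascheroniConstant) := by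
    have h2 := (Real.continuousAt_log (Real.exp_pos Real.eulerMascheroniConstant).ne').tendsto.comp
      Pool.Agent.H305R2.mertens_three
    rw [Real.log_exp] at h2
    refine h2.congr' ?_
    filter_upwards [eventually_ge_atTop 3] with N hN
    have hN' : (3 : ℝ) ≤ N := by exact_mod_cast hN
    have hl : 0 < Real.log N := Real.log_pos (by linarith)
    have hpos : ∀ p ∈ (Finset.Icc 1 N).filter Nat.Prime, (1 - (p : ℝ)⁻¹)⁻¹ ≠ 0 := by
      intro p hp
      simp only [Finset.mem_filter] at hp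
      have h2 : (2 : ℝ) ≤ p := by exact_mod_cast hp.2.two_le
      have : 0 < 1 - (p : ℝ)⁻¹ := by
        rw [sub_pos]
        exact inv_lt_one_of_one_lt₀ (by linarith)
      exact (inv_pos.2 this).ne'
    show Real.log (_ / _) = _
    rw [Real.log_div (Finset.prod_ne_zero_iff.2 hpos) hl.ne', Real.log_prod hpos]
    unfold BB bb
    rw [Nat.floor_natCast]
    congr 1
    refine Finset.sum_congr rfl fun p _ => ?_
    rw [Real.log_inv, one_div]
  have h3 : Tendsto (fun N : ℕ => (Chebyshev.theta (N : ℝ) - N) / (N * Real.log N)) atTop (𝓝 0) := by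
    have h4 : Tendsto (fun N : ℕ => 3 / Real.log N) atTop (𝓝 0) :=
      (tendsto_const_nhds.div_atTop (Real.tendsto_log_atTop.comp tendsto_natCast_atTop_atTop))
    refine squeeze_zero_norm' ?_ h4
    filter_upwards [eventually_ge_atTop 3] with N hN
    have hN' : (3 : ℝ) ≤ N := by exact_mod_cast hN
    have hl : 0 < Real.log N := Real.log_pos (by linarith)
    have h5 := Chebyshev.theta_le_log4_mul_x (x := (N : ℝ)) (by linarith)
    have h6 := Chebyshev.theta_nonneg (N : ℝ)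
    have h7 : Real.log 4 ≤ 2 := by
      have : Real.log 4 = 2 * Real.log 2 := by
        rw [← Real.log_rpow (by norm_num)]; norm_num
      rw [this]
      have := Real.log_two_lt_d9
      linarith
    rw [norm_div, Real.norm_eq_abs, Real.norm_of_nonneg (by positivity), div_le_div_iff₀ (by positivity) hl]
    have h8 : |Chebyshev.theta (N : ℝ) - N| ≤ 3 * N := by
      rw [abs_le]
      constructor <;> nlinarith
    nlinarith
  have h5 : Tendsto (fun N : ℕ => KQ (Real.log (N : ℝ))) atTop (𝓝 0) := by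
    have h6 : Tendsto (fun N : ℕ => 2 * (∫ v in Ioi 0, |rt v|) / Real.log N) atTop (𝓝 0) :=
      (tendsto_const_nhds.div_atTop (Real.tendsto_log_atTop.comp tendsto_natCast_atTop_atTop))
    refine squeeze_zero_norm' ?_ h6
    have h7 : ∀ᶠ N : ℕ in atTop, 1 ≤ Real.log (N : ℝ) :=
      (Real.tendsto_log_atTop.comp tendsto_natCast_atTop_atTop).eventually (eventually_ge_atTop 1)
    filter_upwards [h7] with N hN
    rw [Real.norm_eq_abs]
    exact KQ_bd hN
  have h := (h1.sub h3).add h5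
  rw [sub_zero, add_zero] at h
  exact h

/-- **Mertens' formula with its error term** -/
theorem FF_bd {x : ℝ} (hx : 2 ≤ x) :
    Real.eulerMascheroniConstant - 2 / x ≤ FF x ∧ FF x ≤ Real.eulerMascheroniConstant := by
  have hev : ∀ᶠ N : ℕ in atTop, x ≤ (N : ℝ) := tendsto_natCast_atTop_atTop.eventually (eventually_ge_atTop x)
  have hfa : 2 ≤ ⌊x⌋₊ := Nat.le_floor (by exact_mod_cast hx)
  have hfa' : (2 : ℝ) ≤ ⌊x⌋₊ := by exact_mod_cast hfa
  have hlt := Nat.lt_floor_add_one x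
  have h1 : 1 / (⌊x⌋₊ : ℝ) ≤ 2 / x := by
    rw [div_le_div_iff₀ (by linarith) (by linarith)]
    linarith
  constructor
  · have := le_of_tendsto FF_tendsto (hev.mono fun N hN => (FF_sub hx hN).2)
    linarith
  · exact ge_of_tendsto FF_tendsto (hev.mono fun N hN => (FF_sub hx hN).1)

/-- the oscillation of `KQ` -/
theorem KQ_osc {ρ : ℂ} (hz : riemannZeta ρ = 0) {a : ℝ} (ha : 0 < a) (ha2 : a < 1) (hρ : 1 - a < ρ.re) :
    ∃ᶠ u : ℝ in atTop, KQ u < -Real.exp (-(a * u)) := by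
  refine ((KT_osc hz ha ha2 hρ).and_eventually (eventually_gt_atTop 0)).mono fun u hu => ?_
  exact (KQ_le hu.2).trans_lt hu.1

end

end Pool.Agent.X112.RO
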