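import Pool.Agent.X112.RO.D

set_option autoImplicit false

/-!
# Exceptions to Robin's inequality: the construction
-/

open MeasureTheory Filter Topology Set

namespace Pool.Agent.X112.RO

noncomputable section

/-- `log (σ(n) / n)` -/
def sg (n : ℕ) : ℝ := Real.log ((ArithmeticFunction.sigma 1 n : ℕ) : ℝ) - Real.log n

/-- `n` violates (or does not satisfy) Robin's inequality -/
def Exc (n : ℕ) : Prop :=
  Real.exp Real.eulerMascheroniConstant * n * Real.log (Real.log n) ≤ ((ArithmeticFunction.sigma 1 n : ℕ) : ℝ)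

lemma sg_pow {p : ℕ} (e : ℕ) (hp : p.Prime) : sg (p ^ e) = bb p + Real.log (1 - 1 / (p : ℝ) ^ (e + 1)) := by
  have h2 : (2 : ℝ) ≤ p := by exact_mod_cast hp.two_le
  have hp0 : (0 : ℝ) < p := by linarith
  have hpow : (1 : ℝ) < (p : ℝ) ^ (e + 1) := one_lt_pow₀ (by linarith) (by omega)
  unfold sg bb
  rw [ArithmeticFunction.sigma_one_apply_prime_pow hp]
  push_cast
  rw [geom_sum_eq (by linarith), Real.log_div (by linarith) (by linarith), Real.log_pow]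
  have e1 : 1 - 1 / (p : ℝ) = (p - 1) / p := by field_simp
  have e2 : 1 - 1 / (p : ℝ) ^ (e + 1) = ((p : ℝ) ^ (e + 1) - 1) / (p : ℝ) ^ (e + 1) := by field_simp
  rw [e1, e2, Real.log_div (by linarith) (by linarith), Real.log_div (by linarith) (by positivity), Real.log_pow]
  push_cast
  ring

lemma sg_prod (T : Finset ℕ) (hT : ∀ p ∈ T, p.Prime) (e : ℕ → ℕ) :
    sg (∏ p ∈ T, p ^ e p) = ∑ p ∈ T, sg (p ^ e p) := by
  have h1 : ArithmeticFunction.sigma 1 (∏ p ∈ T, p ^ e p) = ∏ p ∈ T, ArithmeticFunction.sigma 1 (p ^ e p) := by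
    refine ArithmeticFunction.IsMultiplicative.map_prod _ ArithmeticFunction.isMultiplicative_sigma T ?_
    intro p hp q hq hne
    exact Nat.Coprime.pow _ _ ((Nat.coprime_primes (hT p hp) (hT q hq)).2 hne)
  unfold sg
  rw [h1]
  push_cast
  rw [Real.log_prod (fun p hp => ?_), Real.log_prod (fun p hp => ?_), ← Finset.sum_sub_distrib]
  · have := (hT p hp).pos
    positivity
  · have h2 := ArithmeticFunction.sigma_pos 1 (p ^ e p) (pow_ne_zero _ (hT p hp).ne_zero)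
    exact_mod_cast h2.ne'

lemma exc_iff {n : ℕ} (hn : 0 < n) (h : 0 < Real.log (Real.log n)) :
    Exc n ↔ Real.eulerMascheroniConstant + Real.log (Real.log (Real.log n)) ≤ sg n := by
  have hn' : (0 : ℝ) < n := by exact_mod_cast hn
  have hs : (0 : ℝ) < ((ArithmeticFunction.sigma 1 n : ℕ) : ℝ) := by
    exact_mod_cast ArithmeticFunction.sigma_pos 1 n hn.ne'
  unfold Exc sg
  rw [← Real.log_le_log_iff (by positivity) hs, Real.log_mul (by positivity) h.ne',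
    Real.log_mul (Real.exp_pos _).ne' hn'.ne', Real.log_exp]
  constructor <;> intro h <;> linarith

lemma exc_of {n : ℕ} (hn : 0 < n) (h : 0 < Real.log (Real.log n) →
    Real.eulerMascheroniConstant + Real.log (Real.log (Real.log n)) ≤ sg n) : Exc n := by
  by_cases h0 : 0 < Real.log (Real.log n)
  · exact (exc_iff hn h0).2 (h h0)
  · unfold Exc
    have h1 : Real.exp Real.eulerMascheroniConstant * n * Real.log (Real.log n) ≤ 0 :=
      mul_nonpos_of_nonneg_of_nonpos (by positivity) (not_lt.1 h0)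
    exact h1.trans (Nat.cast_nonneg _)

lemma loglog_le {x L : ℝ} (hx : 1 < x) (hL : 1 < L) :
    Real.log (Real.log L) ≤ Real.log (Real.log x) + (L - x) / (x * Real.log x) := by
  have hlx : 0 < Real.log x := Real.log_pos hx
  have hlL : 0 < Real.log L := Real.log_pos hL
  have h1 := Real.log_le_sub_one_of_pos (div_pos hlL hlx)
  rw [Real.log_div hlL.ne' hlx.ne'] at h1
  have h2 := Real.log_le_sub_one_of_pos (div_pos (show 0 < L by linarith) (show 0 < x by linarith))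
  rw [Real.log_div (by linarith) (by linarith)] at h2
  have h3 : Real.log L / Real.log x - 1 ≤ (L - x) / (x * Real.log x) := by
    have e1 : Real.log L / Real.log x - 1 = (Real.log L - Real.log x) / Real.log x := by field_simp
    have e2 : (L - x) / (x * Real.log x) = (L / x - 1) / Real.log x := by field_simp
    rw [e1, e2]
    exact div_le_div_of_nonneg_right h2 hlx.le
  linarith

lemma neg_log_le {t : ℝ} (h0 : 0 ≤ t) (h1 : t ≤ 1 / 2) : -Real.log (1 - t) ≤ 2 * t := by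
  have h2 : 0 < 1 - t := by linarith
  have h3 := Real.log_le_sub_one_of_pos (inv_pos.2 h2)
  rw [Real.log_inv] at h3
  refine h3.trans ?_
  rw [sub_le_iff_le_add, inv_le_iff_one_le_mul₀ h2]
  nlinarith

/-! ### the integers -/

/-- the set of primes -/
def TT (x : ℝ) (P Q : Finset ℕ) : Finset ℕ := ((Finset.Icc 1 ⌊x⌋₊).filter Nat.Prime \ P) ∪ Q

/-- the exponents -/
def ee (x : ℝ) (p : ℕ) : ℕ := if (p : ℝ) ≤ √x then Nat.log 2 ⌊x⌋₊ + 1 else 1

/-- the integers -/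
def nn (x : ℝ) (P Q : Finset ℕ) : ℕ := ∏ p ∈ TT x P Q, p ^ ee x p

section

variable {x h : ℝ} {k : ℕ} {P Q : Finset ℕ}

lemma TT_prime (hQ : ∀ q ∈ Q, q.Prime ∧ x < q ∧ (q : ℝ) ≤ x + h) : ∀ p ∈ TT x P Q, p.Prime := by
  intro p hp
  unfold TT at hp
  simp only [Finset.mem_union, Finset.mem_sdiff, Finset.mem_filter] at hp
  rcases hp with hp | hp
  · exact hp.1.2
  · exact (hQ p hp).1

lemma TT_sum (hx : 0 ≤ x) (hP : ∀ p ∈ P, p.Prime ∧ x - h < p ∧ (p : ℝ) ≤ x)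
    (hQ : ∀ q ∈ Q, q.Prime ∧ x < q ∧ (q : ℝ) ≤ x + h) (f : ℕ → ℝ) :
    ∑ p ∈ TT x P Q, f p = ∑ p ∈ (Finset.Icc 1 ⌊x⌋₊).filter Nat.Prime, f p - ∑ p ∈ P, f p + ∑ q ∈ Q, f q := by
  have hsub : P ⊆ (Finset.Icc 1 ⌊x⌋₊).filter Nat.Prime := by
    intro p hp
    obtain ⟨h1, h2, h3⟩ := hP p hp
    simp only [Finset.mem_filter, Finset.mem_Icc]
    exact ⟨⟨h1.one_le, Nat.le_floor h3⟩, h1⟩
  unfold TT
  rw [Finset.sum_union, Finset.sum_sdiff_eq_sub hsub]
  rw [Finset.disjoint_left]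
  intro p hp hq
  simp only [Finset.mem_sdiff, Finset.mem_filter, Finset.mem_Icc] at hp
  obtain ⟨h1, h2, h3⟩ := hQ p hq
  have h4 : (p : ℝ) ≤ x := (Nat.cast_le.2 hp.1.1.2).trans (Nat.floor_le hx)
  linarith

lemma nn_pos (hQ : ∀ q ∈ Q, q.Prime ∧ x < q ∧ (q : ℝ) ≤ x + h) : 0 < nn x P Q :=
  Finset.prod_pos fun p hp => pow_pos (TT_prime hQ p hp).pos _

lemma ee_pos (p : ℕ) : ee x p ≠ 0 := by
  unfold ee
  split_ifs <;> omega

lemma nn_factors (hQ : ∀ q ∈ Q, q.Prime ∧ x < q ∧ (q : ℝ) ≤ x + h) : (nn x P Q).primeFactors = TT x P Q := by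
  ext p
  rw [Nat.mem_primeFactors]
  constructor
  · rintro ⟨hp, hd, -⟩
    unfold nn at hd
    obtain ⟨q, hq, hd⟩ := (Prime.dvd_finsetProd_iff hp.prime _).1 hd
    have h1 := hp.dvd_of_dvd_pow hd
    rw [(Nat.prime_dvd_prime_iff_eq hp (TT_prime hQ q hq)).1 h1]
    exact hq
  · intro hp
    refine ⟨TT_prime hQ p hp, ?_, (nn_pos hQ).ne'⟩
    exact (dvd_pow_self p (ee_pos p)).trans (Finset.dvd_prod_of_mem _ hp)

lemma m_bounds (hx : 1 ≤ x) : (Nat.log 2 ⌊x⌋₊ : ℝ) ≤ 2 * Real.log x ∧ x < 2 ^ (Nat.log 2 ⌊x⌋₊ + 1) := by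
  have hf : ⌊x⌋₊ ≠ 0 := (Nat.floor_pos.2 hx).ne'
  constructor
  · have h1 : (2 : ℝ) ^ Nat.log 2 ⌊x⌋₊ ≤ x := by
      have := Nat.pow_log_le_self 2 hf
      calc (2 : ℝ) ^ Nat.log 2 ⌊x⌋₊ ≤ ⌊x⌋₊ := by exact_mod_cast this
        _ ≤ x := Nat.floor_le (by linarith)
    have h2 := Real.log_le_log (by positivity) h1
    rw [Real.log_pow] at h2
    have h3 := Real.log_two_gt_d9
    have h4 : (0 : ℝ) ≤ Nat.log 2 ⌊x⌋₊ := Nat.cast_nonneg _
    nlinarith
  · have h1 : ⌊x⌋₊ < 2 ^ (Nat.log 2 ⌊x⌋₊ + 1) := Nat.lt_pow_succ_log_self (by norm_num) _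
    have h2 : x < ⌊x⌋₊ + 1 := Nat.lt_floor_add_one x
    have h3 : ((⌊x⌋₊ : ℕ) : ℝ) + 1 ≤ 2 ^ (Nat.log 2 ⌊x⌋₊ + 1) := by exact_mod_cast h1
    linarith

lemma defect (hx : 4 ≤ x) (hQ : ∀ q ∈ Q, q.Prime ∧ x < q ∧ (q : ℝ) ≤ x + h) :
    ∑ p ∈ TT x P Q, -Real.log (1 - 1 / (p : ℝ) ^ (ee x p + 1)) ≤ 5 / √x := by
  have hx0 : 0 < x := by linarith
  obtain ⟨y, hy⟩ : ∃ y, y = √x := ⟨_, rfl⟩
  have hyy : y * y = x := by rw [hy]; exact Real.mul_self_sqrt hx0.le
  have hy2 : 2 ≤ y := by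
    rw [hy]
    exact Real.le_sqrt_of_sq_le (by linarith)
  rw [← Finset.sum_filter_add_sum_filter_not (TT x P Q) (fun p : ℕ => (p : ℝ) ≤ √x)]
  have h1 : ∑ p ∈ (TT x P Q).filter (fun p : ℕ => (p : ℝ) ≤ √x), -Real.log (1 - 1 / (p : ℝ) ^ (ee x p + 1)) ≤ 1 / √x := by
    have e1 : ∀ p ∈ (TT x P Q).filter (fun p : ℕ => (p : ℝ) ≤ √x), -Real.log (1 - 1 / (p : ℝ) ^ (ee x p + 1)) ≤ 1 / x := by
      intro p hp
      rw [Finset.mem_filter] at hp
      have hp2 : (2 : ℝ) ≤ p := by exact_mod_cast (TT_prime hQ p hp.1).two_le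
      have he : ee x p = Nat.log 2 ⌊x⌋₊ + 1 := by unfold ee; rw [if_pos hp.2]
      rw [he]
      have h2 : 2 * x ≤ (p : ℝ) ^ (Nat.log 2 ⌊x⌋₊ + 1 + 1) := by
        calc 2 * x ≤ 2 * 2 ^ (Nat.log 2 ⌊x⌋₊ + 1) := by
              have := (m_bounds (x := x) (by linarith)).2
              linarith
          _ = (2 : ℝ) ^ (Nat.log 2 ⌊x⌋₊ + 1 + 1) := by ring
          _ ≤ _ := pow_le_pow_left₀ (by norm_num) hp2 _
      have h3 : 1 / (p : ℝ) ^ (Nat.log 2 ⌊x⌋₊ + 1 + 1) ≤ 1 / (2 * x) := one_div_le_one_div_of_le (by linarith) h2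
      have h4 : 1 / (2 * x) ≤ 1 / 2 := one_div_le_one_div_of_le (by norm_num) (by linarith)
      have h5 := neg_log_le (t := 1 / (p : ℝ) ^ (Nat.log 2 ⌊x⌋₊ + 1 + 1)) (by positivity) (h3.trans h4)
      have h6 : 2 * (1 / (2 * x)) = 1 / x := by field_simp
      linarith
    refine (Finset.sum_le_card_nsmul _ _ _ e1).trans ?_
    rw [nsmul_eq_mul]
    have e2 : (((TT x P Q).filter (fun p : ℕ => (p : ℝ) ≤ √x)).card : ℝ) ≤ y := by
      have h3 : (TT x P Q).filter (fun p : ℕ => (p : ℝ) ≤ √x) ⊆ Finset.Icc 1 ⌊y⌋₊ := by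
        intro p hp
        rw [Finset.mem_filter] at hp
        rw [Finset.mem_Icc]
        exact ⟨(TT_prime hQ p hp.1).one_le, Nat.le_floor (by rw [hy]; exact hp.2)⟩
      have h4 := Finset.card_le_card h3
      rw [Nat.card_Icc] at h4
      calc (((TT x P Q).filter (fun p : ℕ => (p : ℝ) ≤ √x)).card : ℝ) ≤ (⌊y⌋₊ : ℝ) := by
            exact_mod_cast (by omega)
        _ ≤ y := Nat.floor_le (by linarith)
    calc (((TT x P Q).filter (fun p : ℕ => (p : ℝ) ≤ √x)).card : ℝ) * (1 / x) ≤ y * (1 / x) :=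
          mul_le_mul_of_nonneg_right e2 (by positivity)
      _ = y * (1 / (y * y)) := by rw [hyy]
      _ = 1 / y := by field_simp
      _ = 1 / √x := by rw [hy]
  have h2 : ∑ p ∈ (TT x P Q).filter (fun p : ℕ => ¬ (p : ℝ) ≤ √x), -Real.log (1 - 1 / (p : ℝ) ^ (ee x p + 1)) ≤ 4 / √x := by
    have e1 : ∀ p ∈ (TT x P Q).filter (fun p : ℕ => ¬ (p : ℝ) ≤ √x), -Real.log (1 - 1 / (p : ℝ) ^ (ee x p + 1)) ≤
        2 * (1 / ((p : ℝ) - 1) - 1 / (p : ℝ)) := by
      intro p hp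
      rw [Finset.mem_filter] at hp
      have hp2 : (2 : ℝ) ≤ p := by exact_mod_cast (TT_prime hQ p hp.1).two_le
      have he : ee x p = 1 := by unfold ee; rw [if_neg hp.2]
      rw [he]
      have h3 : 1 / (p : ℝ) ^ (1 + 1) ≤ 1 / 2 := by
        refine one_div_le_one_div_of_le (by norm_num) ?_
        have e0 : (p : ℝ) ^ (1 + 1) = p * p := by ring
        rw [e0]
        nlinarith
      have h5 := neg_log_le (t := 1 / (p : ℝ) ^ (1 + 1)) (by positivity) h3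
      refine h5.trans (mul_le_mul_of_nonneg_left ?_ (by norm_num))
      have e0 : (p : ℝ) ≠ 0 := by linarith
      have e00 : (p : ℝ) - 1 ≠ 0 := by linarith
      have h6 : 1 / ((p : ℝ) - 1) - 1 / (p : ℝ) = 1 / (((p : ℝ) - 1) * p) := by field_simp; ring
      rw [h6]
      refine one_div_le_one_div_of_le (mul_pos (by linarith) (by linarith)) ?_
      have e1 : (p : ℝ) ^ (1 + 1) = p * p := by ring
      rw [e1]
      nlinarith
    refine (Finset.sum_le_sum e1).trans ?_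
    rw [← Finset.mul_sum]
    obtain ⟨M, hM⟩ : ∃ M : ℕ, ∀ p ∈ TT x P Q, p ≤ M := ⟨(TT x P Q).sup id, fun p hp => Finset.le_sup (f := id) hp⟩
    have hfy : 1 ≤ ⌊y⌋₊ := Nat.le_floor (by push_cast; linarith)
    have e2 : ∑ p ∈ (TT x P Q).filter (fun p : ℕ => ¬ (p : ℝ) ≤ √x), (1 / ((p : ℝ) - 1) - 1 / (p : ℝ)) ≤
        ∑ p ∈ Finset.Ioc ⌊y⌋₊ (max M ⌊y⌋₊), (1 / ((p : ℝ) - 1) - 1 / (p : ℝ)) := by
      refine Finset.sum_le_sum_of_subset_of_nonneg ?_ ?_
      · intro p hp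
        rw [Finset.mem_filter] at hp
        rw [Finset.mem_Ioc]
        refine ⟨?_, (hM p hp.1).trans (le_max_left _ _)⟩
        rw [Nat.floor_lt (by linarith), hy]
        exact not_le.1 hp.2
      · intro p hp _
        rw [Finset.mem_Ioc] at hp
        have h2 : (1 : ℝ) < p := by exact_mod_cast (show 1 < p by omega)
        rw [sub_nonneg]
        exact one_div_le_one_div_of_le (by linarith) (by linarith)
    rw [tele hfy (le_max_right _ _)] at e2
    have e3 : (0 : ℝ) ≤ 1 / ((max M ⌊√x⌋₊ : ℕ) : ℝ) := by positivity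
    have e4 : 1 / (⌊y⌋₊ : ℝ) ≤ 2 / y := by
      have h3 := Nat.lt_floor_add_one y
      have h4 : (1 : ℝ) ≤ ⌊y⌋₊ := by exact_mod_cast hfy
      rw [div_le_div_iff₀ (by linarith) (by linarith)]
      linarith
    have e5 : 4 / √x = 2 * (2 / √x) := by ring
    rw [e5]
    rw [hy] at e2 e4
    linarith
  have h3 : 5 / √x = 1 / √x + 4 / √x := by ring
  rw [h3]
  exact add_le_add h1 h2

end

end

end Pool.Agent.X112.RO
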