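import Pool.Agent.X112.RO.E

set_option autoImplicit false

/-!
# Exceptions to Robin's inequality: many of them
-/

open MeasureTheory Filter Topology Set

namespace Pool.Agent.X112.RO

noncomputable section

/-- the number of exceptions up to `X` -/
def EX (X : ℝ) : ℕ := Set.ncard {n : ℕ | 1 ≤ n ∧ (n : ℝ) ≤ X ∧ Exc n}

lemma EX_finite (X : ℝ) : {n : ℕ | 1 ≤ n ∧ (n : ℝ) ≤ X ∧ Exc n}.Finite := by
  refine (Finset.Icc 1 ⌊X⌋₊).finite_toSet.subset ?_
  rintro n ⟨h1, h2, -⟩
  rw [Finset.mem_coe, Finset.mem_Icc]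
  exact ⟨h1, Nat.le_floor h2⟩

lemma EX_mono {X Y : ℝ} (h : X ≤ Y) : EX X ≤ EX Y :=
  Set.ncard_le_ncard (fun _ hn => ⟨hn.1, hn.2.1.trans h, hn.2.2⟩) (EX_finite Y)

lemma theta_eq' (x : ℝ) : Chebyshev.theta x = ∑ p ∈ (Finset.Icc 1 ⌊x⌋₊).filter Nat.Prime, Real.log p := by
  rw [Chebyshev.theta_eq_sum_Icc]
  refine Finset.sum_congr ?_ fun _ _ => rfl
  ext p
  simp only [Finset.mem_filter, Finset.mem_Icc]
  constructor
  · rintro ⟨⟨-, h2⟩, h3⟩
    exact ⟨⟨h3.one_le, h2⟩, h3⟩
  · rintro ⟨⟨-, h2⟩, h3⟩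
    exact ⟨⟨Nat.zero_le _, h2⟩, h3⟩

lemma log_four_le : Real.log 4 ≤ 2 := by
  have : Real.log 4 = 2 * Real.log 2 := by
    rw [← Real.log_rpow (by norm_num)]; norm_num
  rw [this]
  have := Real.log_two_lt_d9
  linarith

section

variable {x h : ℝ} {k : ℕ} {P Q : Finset ℕ}

lemma nn_log (hQ : ∀ q ∈ Q, q.Prime ∧ x < q ∧ (q : ℝ) ≤ x + h) :
    Real.log (nn x P Q) = ∑ p ∈ TT x P Q, (ee x p : ℝ) * Real.log p := by
  unfold nn
  push_cast
  rw [Real.log_prod]
  · exact Finset.sum_congr rfl fun p _ => by rw [Real.log_pow]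
  · intro p hp
    have : (0 : ℝ) < p := by exact_mod_cast (TT_prime hQ p hp).pos
    positivity

lemma nn_log_le (hx : 4 ≤ x) (hQ : ∀ q ∈ Q, q.Prime ∧ x < q ∧ (q : ℝ) ≤ x + h) :
    Real.log (nn x P Q) ≤ ∑ p ∈ TT x P Q, Real.log p + 4 * √x * Real.log x := by
  rw [nn_log hQ]
  have h1 : ∀ p ∈ TT x P Q, (ee x p : ℝ) * Real.log p =
      Real.log p + (if (p : ℝ) ≤ √x then (Nat.log 2 ⌊x⌋₊ : ℝ) * Real.log p else 0) := by
    intro p _
    unfold ee
    split_ifs with hp
    · push_cast; ring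
    · push_cast; ring
  rw [Finset.sum_congr rfl h1, Finset.sum_add_distrib, ← Finset.sum_filter, ← Finset.mul_sum]
  have h2 : ∑ p ∈ (TT x P Q).filter (fun p : ℕ => (p : ℝ) ≤ √x), Real.log p ≤ Chebyshev.theta (√x) := by
    rw [theta_eq']
    refine Finset.sum_le_sum_of_subset_of_nonneg ?_ ?_
    · intro p hp
      rw [Finset.mem_filter] at hp
      rw [Finset.mem_filter, Finset.mem_Icc]
      exact ⟨⟨(TT_prime hQ p hp.1).one_le, Nat.le_floor hp.2⟩, TT_prime hQ p hp.1⟩
    · intro p hp _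
      rw [Finset.mem_filter] at hp
      exact Real.log_nonneg (by exact_mod_cast hp.2.one_le)
  have h3 := Chebyshev.theta_le_log4_mul_x (Real.sqrt_nonneg x)
  have h4 := (m_bounds (x := x) (by linarith)).1
  have hl : 0 ≤ Real.log x := Real.log_nonneg (by linarith)
  have hs : 0 ≤ √x := Real.sqrt_nonneg x
  have h5 : ∑ p ∈ (TT x P Q).filter (fun p : ℕ => (p : ℝ) ≤ √x), Real.log p ≤ 2 * √x := by
    have := mul_le_mul_of_nonneg_right log_four_le hs
    linarith
  have h6 : (Nat.log 2 ⌊x⌋₊ : ℝ) * ∑ p ∈ (TT x P Q).filter (fun p : ℕ => (p : ℝ) ≤ √x), Real.log p ≤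
      (2 * Real.log x) * (2 * √x) := by
    refine mul_le_mul h4 h5 ?_ (by positivity)
    refine Finset.sum_nonneg fun p hp => ?_
    rw [Finset.mem_filter] at hp
    exact Real.log_nonneg (by exact_mod_cast (TT_prime hQ p hp.1).one_le)
  linarith

/-- each of the integers is an exception -/
theorem build (hx : 16 ≤ x) (hh0 : 0 ≤ h) (hh : h ≤ x / 2)
    (hP : ∀ p ∈ P, p.Prime ∧ x - h < p ∧ (p : ℝ) ≤ x)
    (hQ : ∀ q ∈ Q, q.Prime ∧ x < q ∧ (q : ℝ) ≤ x + h)
    (hPk : P.card = k) (hQk : Q.card = k) (hkx : (k : ℝ) ≤ x)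
    (hK : KQ (Real.log x) ≤ -(12 * (k * h) / x ^ 2 + 11 / √x)) :
    Exc (nn x P Q) ∧ (nn x P Q : ℝ) ≤ Real.exp (13 * x) := by
  have hx0 : 0 < x := by linarith
  have hk0 : (0 : ℝ) ≤ k := Nat.cast_nonneg k
  have hsx : 0 < √x := Real.sqrt_pos.2 hx0
  have hss : √x * √x = x := Real.mul_self_sqrt hx0.le
  have hlx : 1 ≤ Real.log x := by
    rw [Real.le_log_iff_exp_le hx0]
    have := Real.exp_one_lt_d9
    linarith
  -- the sums over P and Q
  have hSP : ∑ p ∈ P, bb p ≤ k * (-Real.log (1 - 1 / (x - h))) := by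
    have h1 : ∀ p ∈ P, bb p ≤ -Real.log (1 - 1 / (x - h)) := by
      intro p hp
      obtain ⟨h1, h2, h3⟩ := hP p hp
      unfold bb
      have h4 : 0 < x - h := by linarith
      have h5 : 1 / (p : ℝ) ≤ 1 / (x - h) := one_div_le_one_div_of_le h4 h2.le
      have h6 : 1 / (x - h) < 1 := by rw [div_lt_one h4]; linarith
      have := Real.log_le_log (show 0 < 1 - 1 / (x - h) by linarith) (show 1 - 1 / (x - h) ≤ 1 - 1 / (p : ℝ) by linarith)
      linarith
    have := Finset.sum_le_card_nsmul _ _ _ h1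
    rw [hPk, nsmul_eq_mul] at this
    exact this
  have hSQ : k * (-Real.log (1 - 1 / (x + h))) ≤ ∑ q ∈ Q, bb q := by
    have h1 : ∀ q ∈ Q, -Real.log (1 - 1 / (x + h)) ≤ bb q := by
      intro q hq
      obtain ⟨h1, h2, h3⟩ := hQ q hq
      unfold bb
      have h4 : (0 : ℝ) < q := by linarith
      have h5 : 1 / (x + h) ≤ 1 / (q : ℝ) := one_div_le_one_div_of_le h4 h3
      have h6 : 1 / (q : ℝ) < 1 := by rw [div_lt_one h4]; linarith
      have := Real.log_le_log (show 0 < 1 - 1 / (q : ℝ) by linarith) (show 1 - 1 / (q : ℝ) ≤ 1 - 1 / (x + h) by linarith)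
      linarith
    have := Finset.card_nsmul_le_sum _ _ _ h1
    rw [hQk, nsmul_eq_mul] at this
    exact this
  have hb12 : -Real.log (1 - 1 / (x - h)) - -Real.log (1 - 1 / (x + h)) ≤ 8 * h / x ^ 2 := by
    have h4 : 0 < x - h := by linarith
    have h5 : 0 < x - h - 1 := by linarith
    have e1 : 1 - 1 / (x - h) = (x - h - 1) / (x - h) := by field_simp
    have e2 : 1 - 1 / (x + h) = (x + h - 1) / (x + h) := by
      have : x + h ≠ 0 := by linarith
      field_simp
    have h6 : 0 < x + h - 1 := by linarith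
    have h7 : 0 < x + h := by linarith
    rw [e1, e2]
    have h8 := Real.log_le_sub_one_of_pos (div_pos (div_pos h6 h7) (div_pos h5 h4))
    rw [Real.log_div (div_pos h6 h7).ne' (div_pos h5 h4).ne'] at h8
    have h9 : (x + h - 1) / (x + h) / ((x - h - 1) / (x - h)) - 1 = 2 * h / ((x + h) * (x - h - 1)) := by
      field_simp
      ring
    rw [h9] at h8
    have h10 : 2 * h / ((x + h) * (x - h - 1)) ≤ 8 * h / x ^ 2 := by
      rw [div_le_div_iff₀ (by positivity) (by positivity)]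
      have h11 : x * (x / 4) ≤ (x + h) * (x - h - 1) := mul_le_mul (by linarith) (by linarith) (by linarith) (by linarith)
      nlinarith
    linarith
  have hLP : k * Real.log (x - h) ≤ ∑ p ∈ P, Real.log (p : ℝ) := by
    have h1 : ∀ p ∈ P, Real.log (x - h) ≤ Real.log (p : ℝ) := by
      intro p hp
      obtain ⟨h1, h2, h3⟩ := hP p hp
      exact Real.log_le_log (by linarith) h2.le
    have := Finset.card_nsmul_le_sum _ _ _ h1
    rw [hPk, nsmul_eq_mul] at this
    exact this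
  have hLQ : ∑ q ∈ Q, Real.log (q : ℝ) ≤ k * Real.log (x + h) := by
    have h1 : ∀ q ∈ Q, Real.log (q : ℝ) ≤ Real.log (x + h) := by
      intro q hq
      obtain ⟨h1, h2, h3⟩ := hQ q hq
      exact Real.log_le_log (by linarith) h3
    have := Finset.sum_le_card_nsmul _ _ _ h1
    rw [hQk, nsmul_eq_mul] at this
    exact this
  have hll : Real.log (x + h) - Real.log (x - h) ≤ 4 * h / x := by
    have h4 : 0 < x - h := by linarith
    have h7 : 0 < x + h := by linarith
    have h8 := Real.log_le_sub_one_of_pos (div_pos h7 h4)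
    rw [Real.log_div h7.ne' h4.ne'] at h8
    have h9 : (x + h) / (x - h) - 1 = 2 * h / (x - h) := by
      field_simp
      ring
    rw [h9] at h8
    have h10 : 2 * h / (x - h) ≤ 4 * h / x := by
      rw [div_le_div_iff₀ h4 hx0]
      nlinarith
    linarith
  have hbbT := TT_sum hx0.le hP hQ bb
  have hlogT := TT_sum hx0.le hP hQ (fun p => Real.log p)
  have hk1 := mul_le_mul_of_nonneg_left hb12 hk0
  have hk2 := mul_le_mul_of_nonneg_left hll hk0
  -- the size
  have hL : Real.log (nn x P Q) ≤ Chebyshev.theta x + 4 * (k * h) / x + 4 * √x * Real.log x := by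
    have h1 := nn_log_le (P := P) (by linarith : 4 ≤ x) hQ
    rw [hlogT, ← theta_eq'] at h1
    have e : (k : ℝ) * (4 * h / x) = 4 * (k * h) / x := by ring
    rw [e] at hk2
    linarith
  have hnpos := nn_pos (P := P) hQ
  have hn0 : (0 : ℝ) < nn x P Q := by exact_mod_cast hnpos
  refine ⟨exc_of hnpos fun hll0 => ?_, ?_⟩
  · have hL1 : 1 < Real.log (nn x P Q) := by
      by_contra hcon
      have h0 : 0 ≤ Real.log (nn x P Q) := Real.log_nonneg (by exact_mod_cast hnpos)
      have := Real.log_nonpos h0 (not_lt.1 hcon)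
      linarith
    have hsg : BB x - k * (8 * h / x ^ 2) - 5 / √x ≤ sg (nn x P Q) := by
      have h1 : sg (nn x P Q) = ∑ p ∈ TT x P Q, bb p - ∑ p ∈ TT x P Q, -Real.log (1 - 1 / (p : ℝ) ^ (ee x p + 1)) := by
        unfold nn
        rw [sg_prod _ (TT_prime hQ), ← Finset.sum_sub_distrib]
        refine Finset.sum_congr rfl fun p hp => ?_
        rw [sg_pow _ (TT_prime hQ p hp)]
        ring
      have h2 := defect (P := P) (by linarith : 4 ≤ x) hQ
      rw [h1, hbbT]
      have h3 : ∑ p ∈ (Finset.Icc 1 ⌊x⌋₊).filter Nat.Prime, bb p = BB x := rfl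
      rw [h3]
      linarith
    have h1 := loglog_le (show 1 < x by linarith) hL1
    have h2 := (FF_bd (show 2 ≤ x by linarith)).1
    unfold FF at h2
    have h3 : (Real.log (nn x P Q) - x) / (x * Real.log x) ≤
        (Chebyshev.theta x - x) / (x * Real.log x) + 4 * (k * h) / x ^ 2 + 4 / √x := by
      have e1 : (Real.log (nn x P Q) - x) / (x * Real.log x) ≤
          (Chebyshev.theta x - x + 4 * (k * h) / x + 4 * √x * Real.log x) / (x * Real.log x) :=
        div_le_div_of_nonneg_right (by linarith) (by positivity)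
      have e2 : (Chebyshev.theta x - x + 4 * (k * h) / x + 4 * √x * Real.log x) / (x * Real.log x) =
          (Chebyshev.theta x - x) / (x * Real.log x) + 4 * (k * h) / x ^ 2 / Real.log x + 4 / √x := by
        have e3 : 4 * √x * Real.log x / (x * Real.log x) = 4 / √x := by
          rw [mul_div_mul_right _ _ (by linarith : Real.log x ≠ 0), div_eq_div_iff hx0.ne' hsx.ne', mul_assoc, hss]
        have e4 : 4 * (k * h) / x / (x * Real.log x) = 4 * (k * h) / x ^ 2 / Real.log x := by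
          field_simp
        rw [add_div, add_div, e3, e4]
      have e5 : 4 * (k * h) / x ^ 2 / Real.log x ≤ 4 * (k * h) / x ^ 2 := div_le_self (by positivity) hlx
      linarith
    have h4 : 2 / x ≤ 2 / √x := by
      refine div_le_div_of_nonneg_left (by norm_num) hsx ?_
      have : 1 ≤ √x := Real.one_le_sqrt.2 (by linarith)
      nlinarith
    have e1 : (k : ℝ) * (8 * h / x ^ 2) = 8 * ((k * h) / x ^ 2) := by ring
    have e2 : 12 * (k * h) / x ^ 2 = 12 * ((k * h) / x ^ 2) := by ring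
    have e3 : 4 * (k * h) / x ^ 2 = 4 * ((k * h) / x ^ 2) := by ring
    have e4 : 11 / √x = 11 * (1 / √x) := by ring
    have e5 : 5 / √x = 5 * (1 / √x) := by ring
    have e6 : 4 / √x = 4 * (1 / √x) := by ring
    have e7 : 2 / √x = 2 * (1 / √x) := by ring
    rw [e1, e5] at hsg
    rw [e2, e4] at hK
    rw [e3, e6] at h3
    rw [e7] at h4
    linarith
  · rw [← Real.log_le_iff_le_exp hn0]
    have h1 := Chebyshev.theta_le_log4_mul_x hx0.le
    have h2 := mul_le_mul_of_nonneg_right log_four_le hx0.le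
    have h3 : 4 * (k * h) / x ≤ 2 * x := by
      rw [div_le_iff₀ hx0]
      nlinarith
    have h4 : 4 * √x * Real.log x ≤ 8 * x := by
      have e1 : Real.log x = 2 * Real.log (√x) := by
        rw [Real.log_sqrt hx0.le]; ring
      have e2 := Real.log_le_sub_one_of_pos hsx
      rw [e1]
      nlinarith
    linarith

end

lemma two_pow_le_central (k : ℕ) : 2 ^ k ≤ (2 * k).choose k := by
  have h : 2 ^ k ≤ Nat.centralBinom k := by
    induction k with
    | zero => simp
    | succ n ih =>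
      have h1 := Nat.succ_mul_centralBinom_succ n
      have h2 : (n + 1) * (2 * Nat.centralBinom n) ≤ (n + 1) * Nat.centralBinom (n + 1) := by
        rw [h1]
        nlinarith [Nat.zero_le (Nat.centralBinom n)]
      have h3 := Nat.le_of_mul_le_mul_left h2 (by omega)
      rw [pow_succ]
      omega
  rwa [Nat.centralBinom_eq_two_mul_choose] at h

/-- many exceptions -/
theorem EX_ge {x h : ℝ} {k : ℕ} (hx : 16 ≤ x) (hh0 : 0 ≤ h) (hh : h ≤ x / 2) {W V : Finset ℕ}
    (hW : ∀ p ∈ W, p.Prime ∧ x - h < p ∧ (p : ℝ) ≤ x) (hWk : 2 * k ≤ W.card)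
    (hV : ∀ q ∈ V, q.Prime ∧ x < q ∧ (q : ℝ) ≤ x + h) (hVk : k ≤ V.card) (hkx : (k : ℝ) ≤ x)
    (hK : KQ (Real.log x) ≤ -(12 * (k * h) / x ^ 2 + 11 / √x)) :
    2 ^ k ≤ EX (Real.exp (13 * x)) := by
  obtain ⟨W0, hW0, hW0k⟩ := Finset.exists_subset_card_eq hWk
  obtain ⟨Q, hQV, hQk⟩ := Finset.exists_subset_card_eq hVk
  have hQ : ∀ q ∈ Q, q.Prime ∧ x < q ∧ (q : ℝ) ≤ x + h := fun q hq => hV q (hQV hq)
  have hPp : ∀ P ∈ Finset.powersetCard k W0, ∀ p ∈ P, p.Prime ∧ x - h < p ∧ (p : ℝ) ≤ x := by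
    intro P hP p hp
    rw [Finset.mem_powersetCard] at hP
    exact hW p (hW0 (hP.1 hp))
  have hx0 : 0 ≤ x := by linarith
  have hinj : Set.InjOn (fun P : Finset ℕ => nn x P Q) (Finset.powersetCard k W0 : Set (Finset ℕ)) := by
    intro P hP P' hP' heq
    simp only at heq
    have h1 : TT x P Q = TT x P' Q := by
      rw [← nn_factors (P := P) hQ, ← nn_factors (P := P') hQ, heq]
    have h2 : ∀ P ∈ Finset.powersetCard k W0, ∀ p : ℕ, p ∈ P ↔ (p.Prime ∧ 1 ≤ p ∧ p ≤ ⌊x⌋₊ ∧ p ∉ TT x P Q) := by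
      intro P hP p
      unfold TT
      simp only [Finset.mem_union, Finset.mem_sdiff, Finset.mem_filter, Finset.mem_Icc]
      constructor
      · intro hp
        obtain ⟨g1, g2, g3⟩ := hPp P hP p hp
        refine ⟨g1, g1.one_le, Nat.le_floor g3, ?_⟩
        rintro (g4 | g4)
        · exact g4.2 hp
        · have := (hQ p g4).2.1
          linarith
      · rintro ⟨g1, g2, g3, g4⟩
        by_contra g5
        exact g4 (Or.inl ⟨⟨⟨g2, g3⟩, g1⟩, g5⟩)
    ext p
    rw [h2 P hP, h2 P' hP', h1]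
  have hsub : ((Finset.powersetCard k W0).image (fun P : Finset ℕ => nn x P Q) : Set ℕ) ⊆
      {n : ℕ | 1 ≤ n ∧ (n : ℝ) ≤ Real.exp (13 * x) ∧ Exc n} := by
    intro n hn
    rw [Finset.mem_coe, Finset.mem_image] at hn
    obtain ⟨P, hP, rfl⟩ := hn
    obtain ⟨b1, b2⟩ := build hx hh0 hh (hPp P hP) hQ (Finset.mem_powersetCard.1 hP).2 hQk hkx hK
    exact ⟨nn_pos hQ, b2, b1⟩
  have h3 := Set.ncard_le_ncard hsub (EX_finite _)
  rw [Set.ncard_coe_finset, Finset.card_image_of_injOn hinj, Finset.card_powersetCard, hW0k] at h3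
  exact (two_pow_le_central k).trans h3

end

end Pool.Agent.X112.RO
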