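import Pool.Agent.X112.RO.E2

set_option autoImplicit false

/-!
# Exceptions to Robin's inequality: the lower bound
-/

open MeasureTheory Filter Topology Set

namespace Pool.Agent.X112.RO

noncomputable section

/-- the primes in `(A, B]` -/
def pint (A B : ℝ) : Finset ℕ := (Finset.Ioc ⌊A⌋₊ ⌊B⌋₊).filter Nat.Prime

lemma pint_mem {A B : ℝ} (hA : 0 ≤ A) (hB : 0 ≤ B) {p : ℕ} (hp : p ∈ pint A B) : p.Prime ∧ A < p ∧ (p : ℝ) ≤ B := by
  unfold pint at hp
  rw [Finset.mem_filter, Finset.mem_Ioc] at hp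
  exact ⟨hp.2, (Nat.floor_lt hA).1 hp.1.1, (Nat.cast_le.2 hp.1.2).trans (Nat.floor_le hB)⟩

lemma pint_card {A B : ℝ} (hA : 0 ≤ A) (hAB : A ≤ B) :
    Chebyshev.theta B - Chebyshev.theta A ≤ (pint A B).card * Real.log B := by
  have e1 : Chebyshev.theta B - Chebyshev.theta A = ∑ p ∈ pint A B, Real.log p := by
    rw [theta_eq', theta_eq', sub_eq_iff_eq_add, add_comm]
    unfold pint
    rw [← Finset.sum_union]
    · congr 1
      rw [← Finset.filter_union]
      congr 1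
      have := Nat.floor_le_floor hAB
      ext k
      simp only [Finset.mem_Icc, Finset.mem_union, Finset.mem_Ioc]
      omega
    · rw [Finset.disjoint_left]
      intro k h1 h2
      simp only [Finset.mem_filter, Finset.mem_Icc, Finset.mem_Ioc] at h1 h2
      omega
  rw [e1]
  have h1 : ∀ p ∈ pint A B, Real.log (p : ℝ) ≤ Real.log B := by
    intro p hp
    obtain ⟨h1, h2, h3⟩ := pint_mem hA (hA.trans hAB) hp
    exact Real.log_le_log (by exact_mod_cast h1.pos) h3
  have := Finset.sum_le_card_nsmul _ _ _ h1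
  rwa [nsmul_eq_mul] at this

/-- **The lower bound for the number of exceptions** -/
theorem EX_lower {T : ℝ} (h1 : 1 / 2 < T) (h2 : T ≤ 1)
    (HR : ∀ᶠ t : ℝ in atTop, |Chebyshev.theta t - t| ≤ t ^ ((1 + T) / 2) / 64)
    (Hρ : ∀ δ : ℝ, 0 < δ → ∃ ρ : ℂ, riemannZeta ρ = 0 ∧ T - δ < ρ.re) {c : ℝ} (hc : c < (1 + T) / 2) :
    ∃ᶠ X : ℝ in atTop, Real.exp ((Real.log X) ^ c) ≤ (EX X : ℝ) := by
  obtain ⟨η, hη⟩ : ∃ η, η = (1 + T) / 2 := ⟨_, rfl⟩
  rw [← hη] at HR hc
  obtain ⟨δ, hδ⟩ : ∃ δ, δ = min (1 / 16) (min ((T - 1 / 2) / 2) ((η - c) / 4)) := ⟨_, rfl⟩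
  have hδ1 : δ ≤ 1 / 16 := by rw [hδ]; exact min_le_left _ _
  have hδ2 : δ ≤ (T - 1 / 2) / 2 := by rw [hδ]; exact (min_le_right _ _).trans (min_le_left _ _)
  have hδ3 : δ ≤ (η - c) / 4 := by rw [hδ]; exact (min_le_right _ _).trans (min_le_right _ _)
  have hδ0 : 0 < δ := by
    rw [hδ]
    exact lt_min (by norm_num) (lt_min (by linarith) (by linarith))
  obtain ⟨κ, hκ⟩ : ∃ κ, κ = η - 2 * δ := ⟨_, rfl⟩
  obtain ⟨a, ha⟩ : ∃ a, a = 1 - T + δ := ⟨_, rfl⟩
  have ha0 : 0 < a := by linarith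
  have ha1 : a < 1 / 2 := by linarith
  have hη1 : η ≤ 1 := by linarith
  have hη0 : 3 / 4 < η := by linarith
  have hκ0 : 1 / 2 < κ := by linarith
  have hκ1 : κ < 1 := by linarith
  have hcκ : c < κ := by linarith
  obtain ⟨ρ, hρ, hρ2⟩ := Hρ δ hδ0
  have hosc := KQ_osc hρ ha0 (by linarith) (by linarith)
  obtain ⟨t0, ht0⟩ := eventually_atTop.1 HR
  -- eventual inequalities in x
  have ev1 : ∀ᶠ x : ℝ in atTop, 8 * Real.log x ≤ x ^ (2 * δ) := by
    have := (isLittleO_log_rpow_atTop (show 0 < 2 * δ by linarith)).bound (show (0 : ℝ) < 1 / 8 by norm_num)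
    filter_upwards [this, eventually_ge_atTop 1] with x hx hx1
    rw [Real.norm_of_nonneg (Real.log_nonneg hx1), Real.norm_of_nonneg (by positivity)] at hx
    linarith
  have ev2 : ∀ᶠ x : ℝ in atTop, 12 ≤ x ^ δ := (tendsto_rpow_atTop hδ0).eventually (eventually_ge_atTop 12)
  have ev3 : ∀ᶠ x : ℝ in atTop, 22 ≤ x ^ (1 / 2 - a) :=
    (tendsto_rpow_atTop (by linarith)).eventually (eventually_ge_atTop 22)
  have ev4 : ∀ᶠ x : ℝ in atTop, 4 * 13 ^ c ≤ x ^ (κ - c) :=
    (tendsto_rpow_atTop (by linarith)).eventually (eventually_ge_atTop _)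
  have ev5 : ∀ᶠ x : ℝ in atTop, max 16 (2 * t0) ≤ x := eventually_ge_atTop _
  have ev := (ev1.and (ev2.and (ev3.and (ev4.and ev5))))
  have ev' := Real.tendsto_exp_atTop.eventually ev
  have htend : Tendsto (fun u : ℝ => Real.exp (13 * Real.exp u)) atTop atTop :=
    Real.tendsto_exp_atTop.comp (Real.tendsto_exp_atTop.const_mul_atTop (by norm_num))
  refine htend.frequently ?_
  refine (hosc.and_eventually ev').mono ?_
  rintro u ⟨hK, hx1, hx2, hx3, hx4, hx5⟩
  obtain ⟨x, hx⟩ : ∃ x, x = Real.exp u := ⟨_, rfl⟩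
  have hu : u = Real.log x := by rw [hx, Real.log_exp]
  rw [← hx] at hx1 hx2 hx3 hx4 hx5 ⊢
  have hx16 : 16 ≤ x := (le_max_left _ _).trans hx5
  have hxt : 2 * t0 ≤ x := (le_max_right _ _).trans hx5
  have hx0 : 0 < x := by linarith
  have hxone : 1 ≤ x := by linarith
  obtain ⟨h, hh⟩ : ∃ h, h = x ^ η / 2 := ⟨_, rfl⟩
  obtain ⟨k, hk⟩ : ∃ k, k = ⌊x ^ κ⌋₊ := ⟨_, rfl⟩
  have hxη : x ^ η ≤ x := by
    calc x ^ η ≤ x ^ (1 : ℝ) := Real.rpow_le_rpow_of_exponent_le hxone hη1
      _ = x := Real.rpow_one x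
  have hxη0 : 0 < x ^ η := Real.rpow_pos_of_pos hx0 _
  have hh0 : 0 ≤ h := by rw [hh]; positivity
  have hhx : h ≤ x / 2 := by rw [hh]; linarith
  have hkle : (k : ℝ) ≤ x ^ κ := by rw [hk]; exact Nat.floor_le (by positivity)
  have hκx : x ^ κ ≤ x := by
    calc x ^ κ ≤ x ^ (1 : ℝ) := Real.rpow_le_rpow_of_exponent_le hxone hκ1.le
      _ = x := Real.rpow_one x
  have hlx : 1 ≤ Real.log x := by
    rw [Real.le_log_iff_exp_le hx0]
    have := Real.exp_one_lt_d9
    linarith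
  -- `x^κ log x ≤ x^η / 8`
  have hκη : x ^ κ * Real.log x ≤ x ^ η / 8 := by
    have e1 : x ^ η = x ^ κ * x ^ (2 * δ) := by
      rw [← Real.rpow_add hx0]; congr 1; linarith
    rw [e1]
    have := mul_le_mul_of_nonneg_left hx1 (show 0 ≤ x ^ κ by positivity)
    linarith
  -- primes
  have hR1 := ht0 x (by linarith)
  have hR2 := ht0 (x - h) (by linarith)
  have hR3 := ht0 (x + h) (by linarith)
  have hp2 : (x - h) ^ η ≤ x ^ η := Real.rpow_le_rpow (by linarith) (by linarith) (by linarith)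
  have hp3 : (x + h) ^ η ≤ 2 * x ^ η := by
    calc (x + h) ^ η ≤ (2 * x) ^ η := Real.rpow_le_rpow (by linarith) (by linarith) (by linarith)
      _ = 2 ^ η * x ^ η := Real.mul_rpow (by norm_num) hx0.le
      _ ≤ 2 * x ^ η := by
          refine mul_le_mul_of_nonneg_right ?_ hxη0.le
          calc (2 : ℝ) ^ η ≤ 2 ^ (1 : ℝ) := Real.rpow_le_rpow_of_exponent_le (by norm_num) hη1
            _ = 2 := Real.rpow_one 2
  have hW := pint_card (show 0 ≤ x - h by linarith) (show x - h ≤ x by linarith)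
  have hV := pint_card hx0.le (show x ≤ x + h by linarith)
  have hR1' := abs_le.1 hR1
  have hR2' := abs_le.1 hR2
  have hR3' := abs_le.1 hR3
  have hWk : 2 * k ≤ (pint (x - h) x).card := by
    have e1 : x ^ η / 4 ≤ (pint (x - h) x).card * Real.log x := by linarith
    have e2 : (2 * k : ℝ) * Real.log x ≤ (pint (x - h) x).card * Real.log x := by
      have := mul_le_mul_of_nonneg_right hkle (show 0 ≤ Real.log x by linarith)
      linarith
    have e3 := le_of_mul_le_mul_right e2 (by linarith)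
    exact_mod_cast e3
  have hVk : k ≤ (pint x (x + h)).card := by
    have e0 : Real.log (x + h) ≤ 2 * Real.log x := by
      have e4 : Real.log (x + h) ≤ Real.log (x ^ 2) := Real.log_le_log (by linarith) (by nlinarith)
      rw [Real.log_pow] at e4
      push_cast at e4
      exact e4
    have e00 := mul_le_mul_of_nonneg_left e0 (Nat.cast_nonneg (α := ℝ) (pint x (x + h)).card)
    have e1 : x ^ η / 4 ≤ (pint x (x + h)).card * (2 * Real.log x) := by linarith
    have e2 : (k : ℝ) * Real.log x ≤ (pint x (x + h)).card * Real.log x := by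
      have := mul_le_mul_of_nonneg_right hkle (show 0 ≤ Real.log x by linarith)
      linarith
    have e3 := le_of_mul_le_mul_right e2 (by linarith)
    exact_mod_cast e3
  have hKK : KQ (Real.log x) ≤ -(12 * (k * h) / x ^ 2 + 11 / √x) := by
    rw [← hu]
    have hxa : Real.exp (-(a * u)) = x ^ (-a) := by
      rw [Real.rpow_def_of_pos hx0, ← hu]; congr 1; ring
    rw [hxa] at hK
    have hxa0 : 0 < x ^ (-a) := Real.rpow_pos_of_pos hx0 _
    have e1 : 12 * (k * h) / x ^ 2 ≤ x ^ (-a) / 2 := by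
      have e2 : (k : ℝ) * h ≤ x ^ κ * (x ^ η / 2) := by
        rw [hh]
        exact mul_le_mul_of_nonneg_right hkle (by positivity)
      have e3 : x ^ κ * x ^ η * x ^ δ = x ^ (-a) * x ^ 2 := by
        rw [← Real.rpow_add hx0, ← Real.rpow_add hx0, ← Real.rpow_natCast, ← Real.rpow_add hx0]
        congr 1
        push_cast
        linarith
      rw [div_le_iff₀ (by positivity)]
      have e4 : 0 < x ^ κ * x ^ η := by positivity
      have e5 : x ^ κ * x ^ η * 12 ≤ x ^ (-a) * x ^ 2 := by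
        rw [← e3]
        exact mul_le_mul_of_nonneg_left hx2 e4.le
      linarith
    have e6 : 11 / √x ≤ x ^ (-a) / 2 := by
      have hsx : 0 < √x := Real.sqrt_pos.2 hx0
      rw [div_le_iff₀ hsx]
      have e7 : x ^ (-a) * √x = x ^ (1 / 2 - a) := by
        rw [Real.sqrt_eq_rpow, ← Real.rpow_add hx0]; congr 1; ring
      have e8 : x ^ (-a) / 2 * √x = x ^ (1 / 2 - a) / 2 := by rw [← e7]; ring
      rw [e8]
      linarith
    linarith
  have hmain := EX_ge hx16 hh0 hhx (fun p hp => pint_mem (by linarith) hx0.le hp) hWk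
    (fun p hp => pint_mem hx0.le (by linarith) hp) hVk (hkle.trans hκx) hKK
  have hmain' : (2 : ℝ) ^ k ≤ (EX (Real.exp (13 * x)) : ℝ) := by exact_mod_cast hmain
  refine le_trans ?_ hmain'
  rw [Real.log_exp, ← Real.log_le_log_iff (Real.exp_pos _) (by positivity), Real.log_exp, Real.log_pow]
  have hl2 := Real.log_two_gt_d9
  have hklt : x ^ κ < k + 1 := by rw [hk]; exact Nat.lt_floor_add_one _
  have hκ2 : 2 ≤ x ^ κ := by
    calc (2 : ℝ) ≤ 16 ^ (1 / 2 : ℝ) := by
          rw [show (16 : ℝ) = 4 ^ (2 : ℝ) by norm_num, ← Real.rpow_mul (by norm_num)]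
          norm_num
      _ ≤ x ^ (1 / 2 : ℝ) := Real.rpow_le_rpow (by norm_num) hx16 (by norm_num)
      _ ≤ x ^ κ := Real.rpow_le_rpow_of_exponent_le hxone hκ0.le
  have e1 : x ^ κ / 4 ≤ k * Real.log 2 := by nlinarith
  refine le_trans ?_ e1
  rw [Real.mul_rpow (by norm_num) hx0.le]
  have e2 : x ^ κ = x ^ c * x ^ (κ - c) := by
    rw [← Real.rpow_add hx0]; congr 1; ring
  rw [e2]
  have := mul_le_mul_of_nonneg_left hx4 (show 0 ≤ x ^ c by positivity)
  linarith

end

end Pool.Agent.X112.RO
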