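import Pool.Agent.X112.RO.E3

set_option autoImplicit false

/-!
# Exceptions to Robin's inequality: the upper bound
-/

open MeasureTheory Filter Topology Set

namespace Pool.Agent.X112.RO

noncomputable section

/-! ### sets of integers with a small sum -/

/-- the finite sets of integers with sum at most `D` -/
def fam (D : ℝ) : Finset (Finset ℕ) :=
  ((Finset.range (⌊D⌋₊ + 1)).powerset).filter (fun S => ∑ m ∈ S, (m : ℝ) ≤ D)

lemma mem_fam {D : ℝ} {S : Finset ℕ} (h : ∑ m ∈ S, (m : ℝ) ≤ D) : S ∈ fam D := by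
  unfold fam
  rw [Finset.mem_filter, Finset.mem_powerset]
  refine ⟨fun m hm => ?_, h⟩
  rw [Finset.mem_range, Nat.lt_succ_iff]
  apply Nat.le_floor
  exact (Finset.single_le_sum (f := fun m : ℕ => (m : ℝ)) (fun i _ => Nat.cast_nonneg i) hm).trans h

lemma fam_card {D : ℝ} (hD : 0 < D) : ((fam D).card : ℝ) ≤ Real.exp (2 * √D + 1) := by
  obtain ⟨t, ht⟩ : ∃ t, t = 1 / √D := ⟨_, rfl⟩
  have hs : 0 < √D := Real.sqrt_pos.2 hD
  have hss : √D * √D = D := Real.mul_self_sqrt hD.le
  have ht0 : 0 < t := by rw [ht]; positivity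
  obtain ⟨M, hM⟩ : ∃ M, M = ⌊D⌋₊ + 1 := ⟨_, rfl⟩
  have h1 : ((fam D).card : ℝ) * Real.exp (-(t * D)) ≤ ∏ m ∈ Finset.range M, (1 + Real.exp (-(t * m))) := by
    rw [Finset.prod_one_add]
    calc ((fam D).card : ℝ) * Real.exp (-(t * D)) = ∑ S ∈ fam D, Real.exp (-(t * D)) := by
          rw [Finset.sum_const, nsmul_eq_mul]
      _ ≤ ∑ S ∈ fam D, ∏ m ∈ S, Real.exp (-(t * m)) := by
          refine Finset.sum_le_sum fun S hS => ?_
          unfold fam at hS
          rw [Finset.mem_filter] at hS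
          rw [← Real.exp_sum]
          refine Real.exp_le_exp.2 ?_
          rw [Finset.sum_neg_distrib, ← Finset.mul_sum]
          have := mul_le_mul_of_nonneg_left hS.2 ht0.le
          linarith
      _ ≤ ∑ S ∈ (Finset.range M).powerset, ∏ m ∈ S, Real.exp (-(t * m)) := by
          refine Finset.sum_le_sum_of_subset_of_nonneg ?_ fun S _ _ => Finset.prod_nonneg fun m _ => (Real.exp_pos _).le
          rw [hM]
          exact Finset.filter_subset _ _
  have h2 : ∏ m ∈ Finset.range M, (1 + Real.exp (-(t * m))) ≤ Real.exp (1 + 1 / t) := by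
    calc ∏ m ∈ Finset.range M, (1 + Real.exp (-(t * m))) ≤ ∏ m ∈ Finset.range M, Real.exp (Real.exp (-(t * m))) := by
          refine Finset.prod_le_prod (fun m _ => by positivity) fun m _ => ?_
          rw [add_comm]
          exact Real.add_one_le_exp _
      _ = Real.exp (∑ m ∈ Finset.range M, Real.exp (-(t * m))) := by rw [Real.exp_sum]
      _ ≤ Real.exp (1 + 1 / t) := by
          refine Real.exp_le_exp.2 ?_
          have e0 : Real.exp (-t) < 1 := by rw [Real.exp_lt_one_iff]; linarith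
          have e1 : ∀ m : ℕ, Real.exp (-(t * m)) = Real.exp (-t) ^ m := by
            intro m
            rw [← Real.exp_nat_mul]; congr 1; ring
          rw [Finset.sum_congr rfl fun m _ => e1 m]
          have e2 : ∑ m ∈ Finset.range M, Real.exp (-t) ^ m ≤ (1 - Real.exp (-t))⁻¹ := by
            rw [← tsum_geometric_of_lt_one (Real.exp_pos _).le e0]
            exact (summable_geometric_of_lt_one (Real.exp_pos _).le e0).sum_le_tsum _ fun m _ => by positivity
          refine e2.trans ?_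
          rw [inv_le_iff_one_le_mul₀ (by linarith)]
          have e3 : Real.exp (-t) ≤ 1 / (1 + t) := by
            rw [Real.exp_neg, one_div]
            refine inv_anti₀ (by linarith) ?_
            have := Real.add_one_le_exp t
            linarith
          have e4 : (1 + 1 / t) * (1 - 1 / (1 + t)) = 1 := by field_simp; ring
          have e5 : (1 + 1 / t) * (1 - 1 / (1 + t)) ≤ (1 + 1 / t) * (1 - Real.exp (-t)) :=
            mul_le_mul_of_nonneg_left (by linarith) (by positivity)
          linarith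
  have h3 : ((fam D).card : ℝ) = ((fam D).card : ℝ) * Real.exp (-(t * D)) * Real.exp (t * D) := by
    rw [mul_assoc, ← Real.exp_add]; simp
  rw [h3]
  calc ((fam D).card : ℝ) * Real.exp (-(t * D)) * Real.exp (t * D) ≤ Real.exp (1 + 1 / t) * Real.exp (t * D) :=
        mul_le_mul_of_nonneg_right (h1.trans h2) (Real.exp_pos _).le
    _ = Real.exp (2 * √D + 1) := by
        rw [← Real.exp_add]
        congr 1
        have e1 : 1 / t = √D := by rw [ht]; field_simp
        have e2 : t * D = √D := by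
          rw [ht, one_div, inv_mul_eq_div, div_eq_iff hs.ne', hss]
        rw [e1, e2]; ring

/-! ### the size of `KQ` -/

lemma KQ_small {s C : ℝ} (hs1 : s < 1) (hC : 0 < C) (h : ∀ t : ℝ, 1 ≤ t → |Chebyshev.theta t - t| ≤ C * t ^ s) :
    ∃ C1 : ℝ, 0 < C1 ∧ ∀ u : ℝ, 1 ≤ u → |KQ u| ≤ C1 * Real.exp (-((1 - s) * u)) := by
  refine ⟨2 * C / (1 - s), by have : 0 < 1 - s := by linarith
                              positivity, fun u hu => ?_⟩
  have hs : 0 < 1 - s := by linarith
  have hu0 : 0 < u := by linarith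
  have h1 : ∀ v : ℝ, 0 ≤ v → |rt v| ≤ C * Real.exp (-((1 - s) * v)) := by
    intro v hv
    have h2 := h (Real.exp v) (Real.one_le_exp hv)
    have e1 : rt v = (Chebyshev.theta (Real.exp v) - Real.exp v) * Real.exp (-v) := by
      unfold rt
      rw [sub_mul, exp_mul_neg]
    rw [e1, abs_mul, abs_of_pos (Real.exp_pos (-v))]
    calc |Chebyshev.theta (Real.exp v) - Real.exp v| * Real.exp (-v) ≤ C * Real.exp v ^ s * Real.exp (-v) :=
          mul_le_mul_of_nonneg_right h2 (Real.exp_pos _).le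
      _ = C * Real.exp (-((1 - s) * v)) := by
          rw [← Real.exp_mul, mul_assoc, ← Real.exp_add]
          congr 2; ring
  have hexp : IntegrableOn (fun v : ℝ => Real.exp (-((1 - s) * v))) (Ioi u) := by
    have := integrableOn_exp_mul_Ioi (a := -(1 - s)) (by linarith) u
    refine IntegrableOn.congr_fun this (fun y _ => ?_) measurableSet_Ioi
    congr 1
    ring
  have hexpv : ∫ v in Ioi u, Real.exp (-((1 - s) * v)) = Real.exp (-((1 - s) * u)) / (1 - s) := by
    have := integral_exp_mul_Ioi (a := -(1 - s)) (by linarith) u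
    rw [show (fun y : ℝ => Real.exp (-((1 - s) * y))) = fun y : ℝ => Real.exp (-(1 - s) * y) by funext y; congr 1; ring,
      this]
    rw [show -(1 - s) * u = -((1 - s) * u) by ring]
    rw [neg_div, div_neg]
    ring
  unfold KQ
  refine (abs_integral_le_integral_abs).trans ?_
  calc ∫ v in Ioi u, |kt v| ≤ ∫ v in Ioi u, 2 * C * Real.exp (-((1 - s) * v)) := by
        refine setIntegral_mono_on (kt_ii hu0).norm (hexp.const_mul _) measurableSet_Ioi fun v hv => ?_
        have hv' : u < v := hv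
        have hv0 : 0 < v := hu0.trans hv'
        unfold kt
        rw [abs_mul]
        have e1 : |(1 + v) / v ^ 2| ≤ 2 := by
          rw [abs_of_nonneg (by positivity), div_le_iff₀ (by positivity)]
          nlinarith
        calc |rt v| * |(1 + v) / v ^ 2| ≤ (C * Real.exp (-((1 - s) * v))) * 2 :=
              mul_le_mul (h1 v (by linarith)) e1 (abs_nonneg _) (by positivity)
          _ = _ := by ring
    _ = 2 * C / (1 - s) * Real.exp (-((1 - s) * u)) := by
        rw [integral_const_mul, hexpv]; ring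

/-! ### the structure of an exception -/

lemma g_A {x : ℝ} (hx : 3 ≤ x) {p : ℕ} (hp : 2 ≤ p) (hpx : (p : ℝ) ≤ x) :
    (x - p) / x ^ 2 ≤ bb p - Real.log p / (x * Real.log x) := by
  have hp2 : (2 : ℝ) ≤ p := by exact_mod_cast hp
  have hlx : 0 < Real.log x := Real.log_pos (by linarith)
  have h1 := bb_ge hp
  have h2 : Real.log p / (x * Real.log x) ≤ 1 / x := by
    rw [div_le_div_iff₀ (by positivity) (by linarith)]
    have := Real.log_le_log (by linarith) hpx
    nlinarith
  have h3 : (x - p) / x ^ 2 ≤ 1 / (p : ℝ) - 1 / x := by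
    have e1 : 1 / (p : ℝ) - 1 / x = (x - p) / (p * x) := by field_simp
    rw [e1]
    refine div_le_div_of_nonneg_left (by linarith) (by positivity) ?_
    nlinarith
  linarith

lemma g_B {x : ℝ} (hx : 3 ≤ x) {p : ℕ} (hp : 2 ≤ p) (hpN : ⌊x⌋₊ < p) :
    ((p : ℝ) - ⌊x⌋₊) / (6 * x ^ 2) - (if p ≤ ⌊x⌋₊ + 2 then 3 / x ^ 2 else 0) ≤
      Real.log p / (x * Real.log x) - bb p ∨ 2 * x + 1 < p := by
  by_cases hbig : 2 * x + 1 < p
  · exact Or.inr hbig
  left
  have hbig' := not_lt.1 hbig
  have hp2 : (2 : ℝ) ≤ p := by exact_mod_cast hp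
  have hx0 : 0 < x := by linarith
  have hlx : 0 < Real.log x := Real.log_pos (by linarith)
  have hxp : x < p := (Nat.floor_lt hx0.le).1 hpN
  have h1 := bb_le hp
  have h2 : 1 / x ≤ Real.log p / (x * Real.log x) := by
    rw [div_le_div_iff₀ (by linarith) (by positivity)]
    have := Real.log_le_log (by linarith) hxp.le
    nlinarith
  have hN1 : (⌊x⌋₊ : ℝ) ≤ x := Nat.floor_le hx0.le
  have hN2 : x < ⌊x⌋₊ + 1 := Nat.lt_floor_add_one x
  have hp1 : 0 < (p : ℝ) - 1 := by linarith
  have e1 : 1 / x - 1 / ((p : ℝ) - 1) = (p - 1 - x) / (x * (p - 1)) := by field_simp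
  by_cases h3 : p ≤ ⌊x⌋₊ + 2
  · rw [if_pos h3]
    have h4 : (p : ℝ) ≤ ⌊x⌋₊ + 2 := by exact_mod_cast h3
    have h5 : ((p : ℝ) - ⌊x⌋₊) / (6 * x ^ 2) ≤ 1 / x ^ 2 := by
      rw [div_le_div_iff₀ (by positivity) (by positivity)]
      have : 0 < x ^ 2 := by positivity
      nlinarith
    have h6 : -(2 / x ^ 2) ≤ (p - 1 - x) / (x * (p - 1)) := by
      rw [← neg_div, div_le_div_iff₀ (by positivity) (by positivity)]
      have e3 : -1 ≤ (p : ℝ) - 1 - x := by linarith
      have e4 : x ≤ 2 * ((p : ℝ) - 1) := by linarith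
      nlinarith [mul_pos hx0 hx0, mul_pos hx0 hp1]
    have e2 : 3 / x ^ 2 = 1 / x ^ 2 + 2 / x ^ 2 := by ring
    linarith
  · rw [if_neg h3, sub_zero]
    have h4 : (⌊x⌋₊ : ℝ) + 3 ≤ p := by exact_mod_cast (show ⌊x⌋₊ + 3 ≤ p by omega)
    have h6 : ((p : ℝ) - ⌊x⌋₊) / (6 * x ^ 2) ≤ (p - 1 - x) / (x * (p - 1)) := by
      have e3 : ((p : ℝ) - ⌊x⌋₊) / 3 ≤ p - 1 - x := by linarith
      have e4 : x * ((p : ℝ) - 1) ≤ 2 * x ^ 2 := by nlinarith
      calc ((p : ℝ) - ⌊x⌋₊) / (6 * x ^ 2) = ((p : ℝ) - ⌊x⌋₊) / 3 / (2 * x ^ 2) := by field_simp; ring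
        _ ≤ (p - 1 - x) / (2 * x ^ 2) := div_le_div_of_nonneg_right e3 (by positivity)
        _ ≤ (p - 1 - x) / (x * (p - 1)) := div_le_div_of_nonneg_left (by linarith) (by positivity) e4
    linarith

lemma g_big {x : ℝ} (hx : 3 ≤ x) {p : ℕ} (hp : 2 ≤ p) (hpx : 2 * x + 1 < p) :
    Real.log p / (x * Real.log x) / 2 ≤ Real.log p / (x * Real.log x) - bb p := by
  have hx0 : 0 < x := by linarith
  have hlx : 0 < Real.log x := Real.log_pos (by linarith)
  have h1 := bb_le hp
  have h2 : 1 / x ≤ Real.log p / (x * Real.log x) := by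
    rw [div_le_div_iff₀ (by linarith) (by positivity)]
    have := Real.log_le_log (by linarith) (show x ≤ p by linarith)
    nlinarith
  have h3 : 1 / ((p : ℝ) - 1) ≤ 1 / (2 * x) := one_div_le_one_div_of_le (by positivity) (by linarith)
  have h4 : 1 / (2 * x) = 1 / x / 2 := by field_simp
  linarith

end

end Pool.Agent.X112.RO
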