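import Pool.Agent.X112.RO.F

set_option autoImplicit false

/-!
# Exceptions to Robin's inequality: the structure of an exception
-/

open MeasureTheory Filter Topology Set

namespace Pool.Agent.X112.RO

noncomputable section

/-- recovering the integer -/
def recon (c : ℕ × Finset ℕ × Finset ℕ × ℕ) : ℕ :=
  (∏ p ∈ (Finset.Icc 1 c.1).filter Nat.Prime \ c.2.1.image (fun m => c.1 - m), p) *
    (∏ p ∈ c.2.2.1.image (fun m => c.1 + m), p) * c.2.2.2

/-- the basic inequality -/
lemma basic {n : ℕ} {x : ℝ} (hn : 0 < n) (hxn : x = Real.log n) (hx : 3 ≤ x) (hE : Exc n) :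
    ∑ p ∈ (Finset.Icc 1 ⌊x⌋₊).filter Nat.Prime \ n.primeFactors, (bb p - Real.log p / (x * Real.log x)) +
    ∑ p ∈ n.primeFactors \ (Finset.Icc 1 ⌊x⌋₊).filter Nat.Prime, (Real.log p / (x * Real.log x) - bb p) +
    ∑ p ∈ n.primeFactors, ((n.factorization p : ℝ) - 1) * (Real.log p / (x * Real.log x)) ≤ |KQ (Real.log x)| := by
  have hx0 : 0 < x := by linarith
  have hlx : 0 < Real.log x := Real.log_pos (by linarith)
  have h0 : 0 < Real.log (Real.log n) := by rw [← hxn]; exact hlx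
  have h1 := (exc_iff hn h0).1 hE
  rw [← hxn] at h1
  have hfac : n = ∏ p ∈ n.primeFactors, p ^ n.factorization p := (Nat.prod_factorization_pow_eq_self hn.ne').symm
  have hpr : ∀ p ∈ n.primeFactors, p.Prime := fun p hp => Nat.prime_of_mem_primeFactors hp
  have h2 : sg n ≤ ∑ p ∈ n.primeFactors, bb p := by
    have e1 : sg n = ∑ p ∈ n.primeFactors, sg (p ^ n.factorization p) := by
      conv_lhs => rw [hfac]
      exact sg_prod _ hpr _
    rw [e1]
    refine Finset.sum_le_sum fun p hp => ?_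
    rw [sg_pow _ (hpr p hp)]
    have h2 : (2 : ℝ) ≤ p := by exact_mod_cast (hpr p hp).two_le
    have h3 : 1 ≤ (p : ℝ) ^ (n.factorization p + 1) := one_le_pow₀ (by linarith)
    have h4 : 1 / (p : ℝ) ^ (n.factorization p + 1) ≤ 1 := by
      rw [div_le_one (by linarith)]; exact h3
    have h5 : 0 ≤ 1 / (p : ℝ) ^ (n.factorization p + 1) := by positivity
    have := Real.log_nonpos (x := 1 - 1 / (p : ℝ) ^ (n.factorization p + 1)) (by linarith) (by linarith)
    linarith
  have h3 : x = ∑ p ∈ n.primeFactors, (n.factorization p : ℝ) * Real.log p := by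
    conv_lhs => rw [hxn, hfac]
    push_cast
    rw [Real.log_prod]
    · exact Finset.sum_congr rfl fun p _ => by rw [Real.log_pow]
    · intro p hp
      have : (0 : ℝ) < p := by exact_mod_cast (hpr p hp).pos
      positivity
  have h4 := (FF_bd (show 2 ≤ x by linarith)).2
  unfold FF at h4
  have h5 := neg_abs_le (KQ (Real.log x))
  -- the combination
  obtain ⟨U, hU⟩ : ∃ U, U = (Finset.Icc 1 ⌊x⌋₊).filter Nat.Prime := ⟨_, rfl⟩
  have hBB : BB x = ∑ p ∈ U, bb p := by rw [hU]; rfl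
  have hth : Chebyshev.theta x = ∑ p ∈ U, Real.log p := by rw [hU]; exact theta_eq' x
  rw [← hU]
  have e1 := Finset.sum_sdiff_sub_sum_sdiff (s₁ := n.primeFactors) (s₂ := U)
    (f := fun p : ℕ => bb p - Real.log p / (x * Real.log x))
  have e2 : ∑ p ∈ n.primeFactors \ U, (Real.log p / (x * Real.log x) - bb p) =
      -∑ p ∈ n.primeFactors \ U, (bb p - Real.log p / (x * Real.log x)) := by
    rw [← Finset.sum_neg_distrib]
    exact Finset.sum_congr rfl fun p _ => by ring
  have e3 : ∑ p ∈ U, (bb p - Real.log p / (x * Real.log x)) = BB x - Chebyshev.theta x / (x * Real.log x) := by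
    rw [Finset.sum_sub_distrib, hBB, hth, Finset.sum_div]
  have e4 : ∑ p ∈ n.primeFactors, (bb p - Real.log p / (x * Real.log x)) =
      ∑ p ∈ n.primeFactors, bb p - (∑ p ∈ n.primeFactors, Real.log (p : ℝ)) / (x * Real.log x) := by
    rw [Finset.sum_sub_distrib, Finset.sum_div]
  have e5 : ∑ p ∈ n.primeFactors, ((n.factorization p : ℝ) - 1) * (Real.log p / (x * Real.log x)) =
      x / (x * Real.log x) - (∑ p ∈ n.primeFactors, Real.log (p : ℝ)) / (x * Real.log x) := by
    rw [← sub_div]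
    conv_rhs => rw [h3]
    rw [← Finset.sum_sub_distrib, Finset.sum_div]
    rw [← h3]
    exact Finset.sum_congr rfl fun p _ => by ring
  rw [e2, e5]
  rw [e3, e4] at e1
  have e6 : (Chebyshev.theta x - x) / (x * Real.log x) = Chebyshev.theta x / (x * Real.log x) - x / (x * Real.log x) :=
    sub_div _ _ _
  rw [e6] at h4
  linarith

/-- the structure of an exception -/
theorem struct {n : ℕ} {x : ℝ} (hn : 0 < n) (hxn : x = Real.log n) (hx : 3 ≤ x) (hE : Exc n) :
    ∃ (S1 S2 : Finset ℕ) (r : ℕ), n = recon (⌊x⌋₊, S1, S2, r) ∧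
      ∑ m ∈ S1, (m : ℝ) ≤ 6 * (|KQ (Real.log x)| + 6 / x ^ 2) * x ^ 2 ∧
      ∑ m ∈ S2, (m : ℝ) ≤ 6 * (|KQ (Real.log x)| + 6 / x ^ 2) * x ^ 2 ∧
      Real.log r ≤ 2 * (|KQ (Real.log x)| + 6 / x ^ 2) * (x * Real.log x) := by
  have hb := basic hn hxn hx hE
  have hx0 : 0 < x := by linarith
  have hlx : 0 < Real.log x := Real.log_pos (by linarith)
  obtain ⟨N, hN⟩ : ∃ N, N = ⌊x⌋₊ := ⟨_, rfl⟩
  obtain ⟨δ, hδ⟩ : ∃ δ, δ = |KQ (Real.log x)| + 6 / x ^ 2 := ⟨_, rfl⟩
  obtain ⟨w, hw⟩ : ∃ w : ℕ → ℝ, w = fun p : ℕ => Real.log (p : ℝ) / (x * Real.log x) := ⟨_, rfl⟩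
  obtain ⟨U, hU⟩ : ∃ U, U = (Finset.Icc 1 ⌊x⌋₊).filter Nat.Prime := ⟨_, rfl⟩
  rw [← hU] at hb
  have hpr : ∀ p ∈ n.primeFactors, p.Prime := fun p hp => Nat.prime_of_mem_primeFactors hp
  have hf1 : ∀ p ∈ n.primeFactors, 1 ≤ n.factorization p := fun p hp =>
    (hpr p hp).factorization_pos_of_dvd hn.ne' (Nat.dvd_of_mem_primeFactors hp)
  have hw0 : ∀ p : ℕ, 1 ≤ p → 0 ≤ w p := by
    intro p hp
    rw [hw]
    have : 0 ≤ Real.log (p : ℝ) := Real.log_nonneg (by exact_mod_cast hp)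
    positivity
  obtain ⟨A, hA⟩ : ∃ A, A = U \ n.primeFactors := ⟨_, rfl⟩
  obtain ⟨B, hB⟩ : ∃ B, B = n.primeFactors \ U := ⟨_, rfl⟩
  obtain ⟨B1, hB1⟩ : ∃ B1, B1 = B.filter (fun p : ℕ => (p : ℝ) ≤ 2 * x + 1) := ⟨_, rfl⟩
  obtain ⟨B2, hB2⟩ : ∃ B2, B2 = B.filter (fun p : ℕ => ¬ (p : ℝ) ≤ 2 * x + 1) := ⟨_, rfl⟩
  rw [← hA, ← hB] at hb
  have hAm : ∀ p ∈ A, p.Prime ∧ p ≤ N ∧ (p : ℝ) ≤ x := by
    intro p hp
    rw [hA, Finset.mem_sdiff, hU, Finset.mem_filter, Finset.mem_Icc] at hp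
    exact ⟨hp.1.2, by rw [hN]; exact hp.1.1.2, (Nat.cast_le.2 hp.1.1.2).trans (Nat.floor_le hx0.le)⟩
  have hBm : ∀ p ∈ B, p ∈ n.primeFactors ∧ p.Prime ∧ N < p := by
    intro p hp
    rw [hB, Finset.mem_sdiff, hU, Finset.mem_filter, Finset.mem_Icc] at hp
    refine ⟨hp.1, hpr p hp.1, ?_⟩
    by_contra hcon
    exact hp.2 ⟨⟨(hpr p hp.1).one_le, by rw [← hN]; exact not_lt.1 hcon⟩, hpr p hp.1⟩
  -- lower bounds for the sums
  have s1 : (∑ p ∈ A, ((N : ℝ) - p)) / x ^ 2 ≤ ∑ p ∈ A, (bb p - Real.log p / (x * Real.log x)) := by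
    rw [Finset.sum_div]
    refine Finset.sum_le_sum fun p hp => ?_
    obtain ⟨h1, h2, h3⟩ := hAm p hp
    have h4 := g_A hx h1.two_le h3
    refine le_trans ?_ h4
    refine div_le_div_of_nonneg_right ?_ (by positivity)
    have : (N : ℝ) ≤ x := by rw [hN]; exact Nat.floor_le hx0.le
    linarith
  have s2 : (∑ p ∈ B1, ((p : ℝ) - N)) / (6 * x ^ 2) - 6 / x ^ 2 ≤
      ∑ p ∈ B1, (Real.log p / (x * Real.log x) - bb p) := by
    have h1 : ∀ p ∈ B1, ((p : ℝ) - N) / (6 * x ^ 2) - (if p ≤ N + 2 then 3 / x ^ 2 else 0) ≤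
        Real.log p / (x * Real.log x) - bb p := by
      intro p hp
      rw [hB1, Finset.mem_filter] at hp
      obtain ⟨h1, h2, h3⟩ := hBm p hp.1
      rw [hN] at h3 ⊢
      rcases g_B hx h2.two_le h3 with h | h
      · exact h
      · exact absurd hp.2 (not_le.2 h)
    have h2 := Finset.sum_le_sum h1
    rw [Finset.sum_sub_distrib, ← Finset.sum_div, ← Finset.sum_filter] at h2
    have h3 : ∑ _p ∈ B1.filter (fun p => p ≤ N + 2), (3 / x ^ 2) ≤ 6 / x ^ 2 := by
      rw [Finset.sum_const, nsmul_eq_mul]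
      have h4 : (B1.filter (fun p => p ≤ N + 2)).card ≤ 2 := by
        have h5 : B1.filter (fun p => p ≤ N + 2) ⊆ Finset.Ioc N (N + 2) := by
          intro p hp
          rw [Finset.mem_filter, hB1, Finset.mem_filter] at hp
          rw [Finset.mem_Ioc]
          exact ⟨(hBm p hp.1.1).2.2, hp.2⟩
        have := Finset.card_le_card h5
        rw [Nat.card_Ioc] at this
        omega
      have h5 : ((B1.filter (fun p => p ≤ N + 2)).card : ℝ) ≤ 2 := by exact_mod_cast h4
      have h6 : (0 : ℝ) ≤ 3 / x ^ 2 := by positivity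
      calc ((B1.filter (fun p => p ≤ N + 2)).card : ℝ) * (3 / x ^ 2) ≤ 2 * (3 / x ^ 2) :=
            mul_le_mul_of_nonneg_right h5 h6
        _ = 6 / x ^ 2 := by ring
    linarith
  have s3 : (∑ p ∈ B2, w p) / 2 ≤ ∑ p ∈ B2, (Real.log p / (x * Real.log x) - bb p) := by
    rw [Finset.sum_div]
    refine Finset.sum_le_sum fun p hp => ?_
    rw [hB2, Finset.mem_filter] at hp
    obtain ⟨h1, h2, h3⟩ := hBm p hp.1
    rw [hw]
    exact g_big hx h2.two_le (not_le.1 hp.2)
  have s4 : ∑ p ∈ B, (Real.log p / (x * Real.log x) - bb p) =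
      ∑ p ∈ B1, (Real.log p / (x * Real.log x) - bb p) + ∑ p ∈ B2, (Real.log p / (x * Real.log x) - bb p) := by
    rw [hB1, hB2, Finset.sum_filter_add_sum_filter_not]
  -- nonnegativity
  have n1 : 0 ≤ ∑ p ∈ A, ((N : ℝ) - p) := Finset.sum_nonneg fun p hp => by
    have : (p : ℝ) ≤ N := by exact_mod_cast (hAm p hp).2.1
    linarith
  have n2 : 0 ≤ ∑ p ∈ B1, ((p : ℝ) - N) := Finset.sum_nonneg fun p hp => by
    rw [hB1, Finset.mem_filter] at hp
    have : (N : ℝ) ≤ p := by exact_mod_cast (hBm p hp.1).2.2.le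
    linarith
  have n3 : 0 ≤ ∑ p ∈ B2, w p := Finset.sum_nonneg fun p hp => by
    rw [hB2, Finset.mem_filter] at hp
    exact hw0 p (hBm p hp.1).2.1.one_le
  have n4 : 0 ≤ ∑ p ∈ n.primeFactors, ((n.factorization p : ℝ) - 1) * (Real.log p / (x * Real.log x)) :=
    Finset.sum_nonneg fun p hp => by
      have h1 : (1 : ℝ) ≤ n.factorization p := by exact_mod_cast hf1 p hp
      have h2 := hw0 p (hpr p hp).one_le
      rw [hw] at h2
      exact mul_nonneg (by linarith) h2
  have hx2 : 0 < x ^ 2 := by positivity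
  rw [s4] at hb
  have n1' : 0 ≤ (∑ p ∈ A, ((N : ℝ) - p)) / x ^ 2 := by positivity
  have n2' : 0 ≤ (∑ p ∈ B1, ((p : ℝ) - N)) / (6 * x ^ 2) := by positivity
  rw [← hδ]
  have t1 : (∑ p ∈ A, ((N : ℝ) - p)) / x ^ 2 ≤ δ := by linarith
  have t2 : (∑ p ∈ B1, ((p : ℝ) - N)) / (6 * x ^ 2) ≤ δ := by linarith
  have t3 : ∑ p ∈ B2, w p + ∑ p ∈ n.primeFactors, ((n.factorization p : ℝ) - 1) * (Real.log p / (x * Real.log x)) ≤
      2 * δ := by linarith
  have hδ0 : 0 ≤ δ := by rw [hδ]; positivity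
  -- the data
  refine ⟨A.image (fun p => N - p), B1.image (fun p => p - N),
    (∏ p ∈ B2, p) * ∏ p ∈ n.primeFactors, p ^ (n.factorization p - 1), ?_, ?_, ?_, ?_⟩
  · unfold recon
    simp only
    rw [← hN]
    have i1 : (A.image (fun p => N - p)).image (fun m => N - m) = A := by
      rw [Finset.image_image]
      ext p
      rw [Finset.mem_image]
      constructor
      · rintro ⟨q, hq, rfl⟩
        have := (hAm q hq).2.1
        simp only [Function.comp]
        rwa [Nat.sub_sub_self this]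
      · intro hp
        refine ⟨p, hp, ?_⟩
        simp only [Function.comp]
        exact Nat.sub_sub_self (hAm p hp).2.1
    have hB1m : ∀ p ∈ B1, N < p := by
      intro p hp
      rw [hB1, Finset.mem_filter] at hp
      exact (hBm p hp.1).2.2
    have i2 : (B1.image (fun p => p - N)).image (fun m => N + m) = B1 := by
      rw [Finset.image_image]
      ext p
      rw [Finset.mem_image]
      constructor
      · rintro ⟨q, hq, rfl⟩
        have := hB1m q hq
        simp only [Function.comp]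
        rwa [Nat.add_sub_cancel' this.le]
      · intro hp
        refine ⟨p, hp, ?_⟩
        simp only [Function.comp]
        exact Nat.add_sub_cancel' (hB1m p hp).le
    rw [i1, i2]
    have hU' : (Finset.Icc 1 N).filter Nat.Prime = U := by rw [hU, hN]
    rw [hU']
    have i3 : U \ A = n.primeFactors ∩ U := by
      rw [hA]
      ext p
      simp only [Finset.mem_sdiff, Finset.mem_inter]
      tauto
    have i4 : ∏ p ∈ n.primeFactors, p = (∏ p ∈ n.primeFactors ∩ U, p) * ((∏ p ∈ B1, p) * ∏ p ∈ B2, p) := by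
      rw [hB1, hB2, Finset.prod_filter_mul_prod_filter_not, hB, Finset.prod_inter_mul_prod_sdiff]
    have i5 : n = (∏ p ∈ n.primeFactors, p) * ∏ p ∈ n.primeFactors, p ^ (n.factorization p - 1) := by
      conv_lhs => rw [← Nat.prod_factorization_pow_eq_self hn.ne']
      rw [← Finset.prod_mul_distrib]
      refine Finset.prod_congr rfl fun p hp => ?_
      have h1 := hf1 p hp
      show p ^ n.factorization p = p * p ^ (n.factorization p - 1)
      rw [← pow_succ', Nat.sub_add_cancel h1]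
    rw [i3]
    conv_lhs => rw [i5, i4]
    ring
  · have hinj : Set.InjOn (fun p => N - p) (A : Set ℕ) := by
      intro p hp q hq h
      have h1 := (hAm p hp).2.1
      have h2 := (hAm q hq).2.1
      simp only at h
      omega
    rw [Finset.sum_image hinj]
    have e1 : ∑ p ∈ A, ((N - p : ℕ) : ℝ) = ∑ p ∈ A, ((N : ℝ) - p) :=
      Finset.sum_congr rfl fun p hp => by rw [Nat.cast_sub (hAm p hp).2.1]
    rw [e1]
    rw [div_le_iff₀ hx2] at t1
    nlinarith [mul_nonneg hδ0 hx2.le]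
  · have hB1m : ∀ p ∈ B1, N < p := by
      intro p hp
      rw [hB1, Finset.mem_filter] at hp
      exact (hBm p hp.1).2.2
    have hinj : Set.InjOn (fun p => p - N) (B1 : Set ℕ) := by
      intro p hp q hq h
      have h1 := hB1m p hp
      have h2 := hB1m q hq
      simp only at h
      omega
    rw [Finset.sum_image hinj]
    have e1 : ∑ p ∈ B1, ((p - N : ℕ) : ℝ) = ∑ p ∈ B1, ((p : ℝ) - N) :=
      Finset.sum_congr rfl fun p hp => by rw [Nat.cast_sub (hB1m p hp).le]
    rw [e1]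
    rw [div_le_iff₀ (by positivity)] at t2
    linarith
  · have hp0 : ∀ p ∈ n.primeFactors, (p : ℝ) ≠ 0 := fun p hp => by exact_mod_cast (hpr p hp).ne_zero
    have hB2m : ∀ p ∈ B2, p ∈ n.primeFactors := by
      intro p hp
      rw [hB2, Finset.mem_filter] at hp
      exact (hBm p hp.1).1
    have e1 : Real.log (((∏ p ∈ B2, p) * ∏ p ∈ n.primeFactors, p ^ (n.factorization p - 1) : ℕ) : ℝ) =
        ∑ p ∈ B2, Real.log p + ∑ p ∈ n.primeFactors, ((n.factorization p : ℝ) - 1) * Real.log p := by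
      push_cast
      rw [Real.log_mul, Real.log_prod, Real.log_prod]
      · congr 1
        refine Finset.sum_congr rfl fun p hp => ?_
        rw [Real.log_pow, Nat.cast_sub (hf1 p hp)]
        push_cast
        ring
      · intro p hp
        exact pow_ne_zero _ (hp0 p hp)
      · intro p hp
        exact hp0 p (hB2m p hp)
      · exact Finset.prod_ne_zero_iff.2 fun p hp => hp0 p (hB2m p hp)
      · exact Finset.prod_ne_zero_iff.2 fun p hp => pow_ne_zero _ (hp0 p hp)
    rw [e1]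
    have e2 : ∑ p ∈ B2, w p = (∑ p ∈ B2, Real.log (p : ℝ)) / (x * Real.log x) := by
      rw [hw, Finset.sum_div]
    have e3 : ∑ p ∈ n.primeFactors, ((n.factorization p : ℝ) - 1) * (Real.log p / (x * Real.log x)) =
        (∑ p ∈ n.primeFactors, ((n.factorization p : ℝ) - 1) * Real.log (p : ℝ)) / (x * Real.log x) := by
      rw [Finset.sum_div]
      exact Finset.sum_congr rfl fun p _ => by ring
    rw [e2, e3, ← add_div, div_le_iff₀ (by positivity)] at t3
    exact t3

end

end Pool.Agent.X112.RO
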