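import Pool.Agent.X112.RO.F2

set_option autoImplicit false

/-!
# Exceptions to Robin's inequality: the count
-/

open MeasureTheory Filter Topology Set

namespace Pool.Agent.X112.RO

noncomputable section

lemma exc_subset {X D Lr : ℝ}
    (h : ∀ n : ℕ, 0 < n → 3 ≤ Real.log n → (n : ℝ) ≤ X → Exc n →
      6 * (|KQ (Real.log (Real.log n))| + 6 / (Real.log n) ^ 2) * (Real.log n) ^ 2 ≤ D ∧
      2 * (|KQ (Real.log (Real.log n))| + 6 / (Real.log n) ^ 2) * (Real.log n * Real.log (Real.log n)) ≤ Lr) :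
    EX X ≤ 21 + (⌊Real.log X⌋₊ + 1) * ((fam D).card * ((fam D).card * (⌊Real.exp Lr⌋₊ + 1))) := by
  classical
  have hsub : {n : ℕ | 1 ≤ n ∧ (n : ℝ) ≤ X ∧ Exc n} ⊆
      ((Finset.range 21 ∪ (Finset.range (⌊Real.log X⌋₊ + 1) ×ˢ (fam D ×ˢ (fam D ×ˢ
        Finset.range (⌊Real.exp Lr⌋₊ + 1)))).image recon : Finset ℕ) : Set ℕ) := by
    rintro n ⟨h1, h2, h3⟩
    rw [Finset.mem_coe, Finset.mem_union]
    have hn0 : (0 : ℝ) < n := by exact_mod_cast h1
    by_cases hsmall : 3 ≤ Real.log n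
    · right
      obtain ⟨S1, S2, r, g1, g2, g3, g4⟩ := struct (x := Real.log n) h1 rfl hsmall h3
      obtain ⟨b1, b2⟩ := h n h1 hsmall h2 h3
      rw [Finset.mem_image]
      refine ⟨_, ?_, g1.symm⟩
      rw [Finset.mem_product, Finset.mem_product, Finset.mem_product]
      refine ⟨?_, mem_fam (g2.trans b1), mem_fam (g3.trans b1), ?_⟩
      · rw [Finset.mem_range, Nat.lt_succ_iff]
        exact Nat.floor_le_floor (Real.log_le_log hn0 h2)
      · rw [Finset.mem_range, Nat.lt_succ_iff]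
        apply Nat.le_floor
        rcases Nat.eq_zero_or_pos r with hr | hr
        · rw [hr]
          simp only [Nat.cast_zero]
          exact (Real.exp_pos _).le
        · exact (Real.log_le_iff_le_exp (by exact_mod_cast hr)).1 (g4.trans b2)
    · left
      rw [Finset.mem_range]
      have h4 : (n : ℝ) < Real.exp 3 := (Real.log_lt_iff_lt_exp hn0).1 (not_le.1 hsmall)
      have h5 : Real.exp 3 < 21 := by
        have e1 : Real.exp 3 = Real.exp 1 ^ 3 := by rw [← Real.exp_nat_mul]; norm_num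
        rw [e1]
        have := Real.exp_one_lt_d9
        calc Real.exp 1 ^ 3 < 2.7182818286 ^ 3 := pow_lt_pow_left₀ this (Real.exp_pos 1).le (by norm_num)
          _ < 21 := by norm_num
      exact_mod_cast h4.trans h5
  have h1 := Set.ncard_le_ncard hsub (Finset.finite_toSet _)
  rw [Set.ncard_coe_finset] at h1
  refine h1.trans ((Finset.card_union_le _ _).trans ?_)
  rw [Finset.card_range]
  refine Nat.add_le_add_left (Finset.card_image_le.trans ?_) 21
  rw [Finset.card_product, Finset.card_product, Finset.card_product, Finset.card_range, Finset.card_range]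

/-- **The upper bound for the number of exceptions** -/
theorem EX_upper {s C : ℝ} (hs0 : 1 / 2 < s) (hs1 : s < 1) (hC : 0 < C)
    (h : ∀ t : ℝ, 1 ≤ t → |Chebyshev.theta t - t| ≤ C * t ^ s) :
    ∃ K : ℝ, 0 < K ∧ ∀ᶠ X : ℝ in atTop, (EX X : ℝ) ≤ Real.exp (K * (Real.log X) ^ ((1 + s) / 2)) := by
  obtain ⟨C1, hC1, hKQ⟩ := KQ_small hs1 hC h
  obtain ⟨C2, hC2⟩ : ∃ C2, C2 = C1 + 6 := ⟨_, rfl⟩
  have hC20 : 0 < C2 := by linarith
  refine ⟨6 + 4 * √(6 * C2) + 2 * C2, by positivity, ?_⟩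
  -- eventual inequalities in Y
  have ev1 : ∀ᶠ Y : ℝ in atTop, Real.log Y ≤ Y ^ ((1 - s) / 2) := by
    have := (isLittleO_log_rpow_atTop (show 0 < (1 - s) / 2 by linarith)).bound (show (0 : ℝ) < 1 by norm_num)
    filter_upwards [this, eventually_ge_atTop 1] with x hx hx1
    rw [Real.norm_of_nonneg (Real.log_nonneg hx1), Real.norm_of_nonneg (by positivity)] at hx
    linarith
  have ev2 : ∀ᶠ Y : ℝ in atTop, 2 * Real.log Y ≤ Y ^ ((1 + s) / 2) := by
    have := (isLittleO_log_rpow_atTop (show 0 < (1 + s) / 2 by linarith)).bound (show (0 : ℝ) < 1 / 2 by norm_num)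
    filter_upwards [this, eventually_ge_atTop 1] with x hx hx1
    rw [Real.norm_of_nonneg (Real.log_nonneg hx1), Real.norm_of_nonneg (by positivity)] at hx
    linarith
  have ev := (ev1.and (ev2.and (eventually_ge_atTop 3)))
  filter_upwards [Real.tendsto_log_atTop.eventually ev, eventually_gt_atTop 0] with X hX hX0
  obtain ⟨Y, hY⟩ : ∃ Y, Y = Real.log X := ⟨_, rfl⟩
  rw [← hY] at hX ⊢
  obtain ⟨hY1, hY2, hY3⟩ := hX
  have hY0 : 0 < Y := by linarith
  obtain ⟨Z, hZ⟩ : ∃ Z, Z = Y ^ ((1 + s) / 2) := ⟨_, rfl⟩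
  have hZ1 : 1 ≤ Z := by rw [hZ]; exact Real.one_le_rpow (by linarith) (by linarith)
  rw [← hZ] at hY2 ⊢
  obtain ⟨D, hD⟩ : ∃ D, D = 6 * C2 * Y ^ (1 + s) := ⟨_, rfl⟩
  obtain ⟨Lr, hLr⟩ : ∃ Lr, Lr = 2 * C2 * (Y ^ s * Real.log Y) := ⟨_, rfl⟩
  have hD0 : 0 < D := by rw [hD]; positivity
  have hmain := exc_subset (X := X) (D := D) (Lr := Lr) (fun n hn hn3 hnX _ => by
    obtain ⟨x, hx⟩ : ∃ x, x = Real.log n := ⟨_, rfl⟩
    rw [← hx] at hn3 ⊢
    have hx0 : 0 < x := by linarith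
    have hxY : x ≤ Y := by
      rw [hx, hY]; exact Real.log_le_log (by exact_mod_cast hn) hnX
    have hlx : 1 ≤ Real.log x := by
      rw [Real.le_log_iff_exp_le hx0]
      have := Real.exp_one_lt_d9
      linarith
    have h1 := hKQ (Real.log x) hlx
    have h2 : Real.exp (-((1 - s) * Real.log x)) = x ^ (s - 1) := by
      rw [Real.rpow_def_of_pos hx0]; congr 1; ring
    rw [h2] at h1
    have h3 : 6 / x ^ 2 ≤ 6 * x ^ (s - 1) := by
      rw [div_eq_mul_inv]
      refine mul_le_mul_of_nonneg_left ?_ (by norm_num)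
      rw [← Real.rpow_natCast, ← Real.rpow_neg hx0.le]
      exact Real.rpow_le_rpow_of_exponent_le (by linarith) (by push_cast; linarith)
    have h4 : |KQ (Real.log x)| + 6 / x ^ 2 ≤ C2 * x ^ (s - 1) := by
      rw [hC2]
      linarith
    constructor
    · rw [hD]
      calc 6 * (|KQ (Real.log x)| + 6 / x ^ 2) * x ^ 2 ≤ 6 * (C2 * x ^ (s - 1)) * x ^ 2 := by
            refine mul_le_mul_of_nonneg_right ?_ (by positivity)
            linarith
        _ = 6 * C2 * x ^ (1 + s) := by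
            have e : x ^ (1 + s) = x ^ (s - 1) * x ^ 2 := by
              rw [← Real.rpow_natCast, ← Real.rpow_add hx0]; congr 1; push_cast; ring
            rw [e]; ring
        _ ≤ 6 * C2 * Y ^ (1 + s) :=
            mul_le_mul_of_nonneg_left (Real.rpow_le_rpow hx0.le hxY (by linarith)) (by positivity)
    · rw [hLr]
      calc 2 * (|KQ (Real.log x)| + 6 / x ^ 2) * (x * Real.log x) ≤ 2 * (C2 * x ^ (s - 1)) * (x * Real.log x) := by
            refine mul_le_mul_of_nonneg_right ?_ (by positivity)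
            linarith
        _ = 2 * C2 * (x ^ s * Real.log x) := by
            have e : x ^ s = x ^ (s - 1) * x := by
              nth_rewrite 3 [← Real.rpow_one x]
              rw [← Real.rpow_add hx0]; congr 1; ring
            rw [e]; ring
        _ ≤ 2 * C2 * (Y ^ s * Real.log Y) := by
            refine mul_le_mul_of_nonneg_left ?_ (by positivity)
            exact mul_le_mul (Real.rpow_le_rpow hx0.le hxY (by linarith)) (Real.log_le_log hx0 hxY) (by linarith)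
              (by positivity))
  have hmain' : (EX X : ℝ) ≤ 21 + (⌊Real.log X⌋₊ + 1) * ((fam D).card * ((fam D).card * (⌊Real.exp Lr⌋₊ + 1))) := by
    exact_mod_cast hmain
  rw [← hY] at hmain'
  have f1 := fam_card hD0
  have f2 : (⌊Y⌋₊ : ℝ) + 1 ≤ Real.exp Z := by
    have e1 : (⌊Y⌋₊ : ℝ) ≤ Y := Nat.floor_le hY0.le
    have e2 : Y + 1 ≤ Y ^ 2 := by nlinarith
    have e3 : Y ^ 2 = Real.exp (2 * Real.log Y) := by
      rw [two_mul, Real.exp_add, Real.exp_log hY0]; ring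
    have e4 : Real.exp (2 * Real.log Y) ≤ Real.exp Z := Real.exp_le_exp.2 hY2
    linarith
  have hLr0 : 0 ≤ Lr := by
    rw [hLr]
    have := Real.log_nonneg (show 1 ≤ Y by linarith)
    positivity
  have f3 : (⌊Real.exp Lr⌋₊ : ℝ) + 1 ≤ Real.exp (Lr + 1) := by
    have e1 : (⌊Real.exp Lr⌋₊ : ℝ) ≤ Real.exp Lr := Nat.floor_le (Real.exp_pos _).le
    have e2 : 1 ≤ Real.exp Lr := Real.one_le_exp hLr0
    have e3 : 2 ≤ Real.exp 1 := by
      have := Real.add_one_le_exp 1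
      linarith
    rw [Real.exp_add]
    nlinarith
  have f4 : (fam D).card * ((fam D).card * ((⌊Real.exp Lr⌋₊ : ℝ) + 1)) ≤
      Real.exp (2 * √D + 1) * (Real.exp (2 * √D + 1) * Real.exp (Lr + 1)) :=
    mul_le_mul f1 (mul_le_mul f1 f3 (by positivity) (by positivity)) (by positivity) (by positivity)
  have f5 : ((⌊Y⌋₊ : ℝ) + 1) * ((fam D).card * ((fam D).card * ((⌊Real.exp Lr⌋₊ : ℝ) + 1))) ≤
      Real.exp Z * (Real.exp (2 * √D + 1) * (Real.exp (2 * √D + 1) * Real.exp (Lr + 1))) :=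
    mul_le_mul f2 f4 (by positivity) (by positivity)
  have f6 : Real.exp Z * (Real.exp (2 * √D + 1) * (Real.exp (2 * √D + 1) * Real.exp (Lr + 1))) =
      Real.exp (Z + 4 * √D + Lr + 3) := by
    rw [← Real.exp_add, ← Real.exp_add, ← Real.exp_add]; congr 1; ring
  rw [f6] at f5
  have hsD : √D = √(6 * C2) * Z := by
    rw [hD, Real.sqrt_mul (by positivity)]
    congr 1
    rw [hZ, Real.sqrt_eq_rpow, ← Real.rpow_mul hY0.le]
    congr 1; ring
  have hLrZ : Lr ≤ 2 * C2 * Z := by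
    rw [hLr, hZ]
    refine mul_le_mul_of_nonneg_left ?_ (by positivity)
    calc Y ^ s * Real.log Y ≤ Y ^ s * Y ^ ((1 - s) / 2) := mul_le_mul_of_nonneg_left hY1 (by positivity)
      _ = Y ^ ((1 + s) / 2) := by rw [← Real.rpow_add hY0]; congr 1; ring
  have f7 : (21 : ℝ) ≤ Real.exp (Z + 4 * √D + Lr + 4) := by
    have e1 : (21 : ℝ) ≤ Real.exp 4 := by
      have e2 : Real.exp 4 = Real.exp 1 ^ 4 := by rw [← Real.exp_nat_mul]; norm_num
      rw [e2]
      have := Real.exp_one_gt_d9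
      calc (21 : ℝ) ≤ 2.7182818283 ^ 4 := by norm_num
        _ ≤ Real.exp 1 ^ 4 := pow_le_pow_left₀ (by norm_num) this.le 4
    refine e1.trans (Real.exp_le_exp.2 ?_)
    have : 0 ≤ √D := Real.sqrt_nonneg D
    linarith
  have f8 : Real.exp (Z + 4 * √D + Lr + 3) ≤ Real.exp (Z + 4 * √D + Lr + 4) := Real.exp_le_exp.2 (by linarith)
  have f9 : 2 * Real.exp (Z + 4 * √D + Lr + 4) ≤ Real.exp (Z + 4 * √D + Lr + 5) := by
    have e3 : 2 ≤ Real.exp 1 := by
      have := Real.add_one_le_exp 1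
      linarith
    have e4 : Real.exp (Z + 4 * √D + Lr + 5) = Real.exp 1 * Real.exp (Z + 4 * √D + Lr + 4) := by
      rw [← Real.exp_add]; congr 1; ring
    rw [e4]
    exact mul_le_mul_of_nonneg_right e3 (Real.exp_pos _).le
  have f10 : Real.exp (Z + 4 * √D + Lr + 5) ≤ Real.exp ((6 + 4 * √(6 * C2) + 2 * C2) * Z) := by
    refine Real.exp_le_exp.2 ?_
    rw [hsD]
    nlinarith
  linarith

/-! ### the two inputs -/

lemma theta_of_free {θ : ℝ} (h0 : 1 / 2 ≤ θ) (hz : ∀ s : ℂ, θ < s.re → riemannZeta s ≠ 0) {s : ℝ} (hs : θ < s)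
    (hs1 : s ≤ 1) : ∃ C : ℝ, 0 < C ∧ ∀ t : ℝ, 1 ≤ t → |Chebyshev.theta t - t| ≤ C * t ^ s := by
  obtain ⟨C, hC, h⟩ := Pool.Agent.W190.psi_of_free θ h0 hz s hs hs1
  obtain ⟨C', hC'⟩ := Chebyshev.psi_sub_theta_le_mul_sqrt
  refine ⟨C + |C'|, by positivity, fun t ht => ?_⟩
  have h1 := abs_le.1 (h t ht)
  have h2 := hC' t
  have h3 := Chebyshev.theta_le_psi t
  have h4 : √t ≤ t ^ s := by
    rw [Real.sqrt_eq_rpow]
    exact Real.rpow_le_rpow_of_exponent_le ht (by linarith)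
  have h5 : C' * √t ≤ |C'| * t ^ s := mul_le_mul (le_abs_self _) h4 (Real.sqrt_nonneg t) (abs_nonneg _)
  have h6 : 0 ≤ |C'| * t ^ s := by positivity
  rw [abs_le, add_mul]
  constructor <;> linarith

lemma theta_pnt : ∀ᶠ t : ℝ in atTop, |Chebyshev.theta t - t| ≤ t / 64 := by
  obtain ⟨C, v0, hC, hv0, h⟩ := rr_dec
  obtain ⟨C', hC', h'⟩ := rr_sub_rt
  have e1 : Tendsto (fun v : ℝ => C / v ^ 2 + C' * Real.exp (-(v / 2))) atTop (𝓝 0) := by
    have g1 : Tendsto (fun v : ℝ => C / v ^ 2) atTop (𝓝 0) :=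
      tendsto_const_nhds.div_atTop (tendsto_pow_atTop (by norm_num))
    have g2 : Tendsto (fun v : ℝ => C' * Real.exp (-(v / 2))) atTop (𝓝 (C' * 0)) := by
      refine Tendsto.const_mul C' (Real.tendsto_exp_neg_atTop_nhds_zero.comp ?_)
      exact tendsto_id.atTop_div_const (by norm_num)
    have := g1.add g2
    simpa using this
  have e2 := Real.tendsto_log_atTop.eventually ((e1.eventually (gt_mem_nhds (show (0 : ℝ) < 1 / 64 by norm_num))).and
    (eventually_ge_atTop v0))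
  filter_upwards [e2, eventually_gt_atTop 0] with t ht ht0
  have h1 := h (Real.log t) ht.2
  have h2 := h' (Real.log t)
  have h3 := rt_le_rr (Real.log t)
  have h4 : |rt (Real.log t)| ≤ 1 / 64 := by
    have h5 := abs_le.1 h1
    have h6 : 0 ≤ C' * Real.exp (-(Real.log t / 2)) := by positivity
    rw [abs_le]
    constructor <;> linarith [ht.1]
  have h5 : Chebyshev.theta t - t = t * rt (Real.log t) := by
    unfold rt
    rw [Real.exp_log ht0, Real.exp_neg, Real.exp_log ht0]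
    field_simp
  rw [h5, abs_mul, abs_of_pos ht0]
  have := mul_le_mul_of_nonneg_left h4 ht0.le
  linarith

/-- the lower bound in terms of one zero -/
theorem EX_lower_zero {ρ : ℂ} (hz : riemannZeta ρ = 0) (hρ : 1 / 2 < ρ.re) {c : ℝ} (hc : c < (1 + ρ.re) / 2) :
    ∃ᶠ X : ℝ in atTop, Real.exp ((Real.log X) ^ c) ≤ (EX X : ℝ) := by
  obtain ⟨A, hA⟩ : ∃ A, A = {x : ℝ | ∃ s : ℂ, riemannZeta s = 0 ∧ s.re = x} := ⟨_, rfl⟩
  have hbdd : ∀ x ∈ A, x ≤ 1 := by
    intro x hx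
    rw [hA] at hx
    obtain ⟨s, h1, h2⟩ := hx
    by_contra hcon
    exact riemannZeta_ne_zero_of_one_le_re (by linarith) h1
  have hne : ρ.re ∈ A := by rw [hA]; exact ⟨ρ, hz, rfl⟩
  obtain ⟨T, hT⟩ : ∃ T, T = sSup A := ⟨_, rfl⟩
  have hρT : ρ.re ≤ T := by rw [hT]; exact le_csSup ⟨1, hbdd⟩ hne
  have hT1 : T ≤ 1 := by rw [hT]; exact csSup_le ⟨_, hne⟩ hbdd
  have hfree : ∀ s : ℂ, T < s.re → riemannZeta s ≠ 0 := by
    intro s hs h0
    have : s.re ≤ T := by
      rw [hT]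
      exact le_csSup ⟨1, hbdd⟩ (by rw [hA]; exact ⟨s, h0, rfl⟩)
    linarith
  have hsup : ∀ δ : ℝ, 0 < δ → ∃ ρ : ℂ, riemannZeta ρ = 0 ∧ T - δ < ρ.re := by
    intro δ hδ
    obtain ⟨x, hx, hx2⟩ := exists_lt_of_lt_csSup ⟨_, hne⟩ (show T - δ < sSup A by rw [← hT]; linarith)
    rw [hA] at hx
    obtain ⟨s, h1, h2⟩ := hx
    exact ⟨s, h1, by rw [h2]; exact hx2⟩
  refine EX_lower (by linarith) hT1 ?_ hsup (by linarith)
  rcases hT1.lt_or_eq with hlt | heq
  · obtain ⟨C, hC, h⟩ := theta_of_free (by linarith) hfree (s := (1 + 3 * T) / 4) (by linarith) (by linarith)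
    have h1 : ∀ᶠ t : ℝ in atTop, 64 * C ≤ t ^ ((1 + T) / 2 - (1 + 3 * T) / 4) :=
      (tendsto_rpow_atTop (by linarith)).eventually (eventually_ge_atTop _)
    filter_upwards [h1, eventually_ge_atTop 1] with t h2 h3
    refine (h t h3).trans ?_
    have h4 : t ^ ((1 + T) / 2) = t ^ ((1 + T) / 2 - (1 + 3 * T) / 4) * t ^ ((1 + 3 * T) / 4) := by
      rw [← Real.rpow_add (by linarith)]; congr 1; ring
    rw [h4]
    have := mul_le_mul_of_nonneg_right h2 (show 0 ≤ t ^ ((1 + 3 * T) / 4) by positivity)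
    linarith
  · filter_upwards [theta_pnt] with t ht
    rw [heq]
    norm_num
    exact ht

/-- the dichotomy -/
theorem main_iff {θ : ℝ} (h0 : 1 / 2 ≤ θ) (h1 : θ < 1) :
    (∀ s : ℂ, θ < s.re → riemannZeta s ≠ 0) ↔
      ∀ ε : ℝ, 0 < ε → ∀ᶠ X : ℝ in atTop, (EX X : ℝ) ≤ Real.exp ((Real.log X) ^ ((1 + θ) / 2 + ε)) := by
  constructor
  · intro hz ε hε
    obtain ⟨s, hs⟩ : ∃ s, s = min (θ + ε) ((1 + θ) / 2) := ⟨_, rfl⟩
    have hs1 : s ≤ θ + ε := by rw [hs]; exact min_le_left _ _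
    have hs2 : s ≤ (1 + θ) / 2 := by rw [hs]; exact min_le_right _ _
    have hs3 : θ < s := by rw [hs]; exact lt_min (by linarith) (by linarith)
    obtain ⟨C, hC, h⟩ := theta_of_free h0 hz hs3 (by linarith)
    obtain ⟨K, hK, hev⟩ := EX_upper (s := s) (by linarith) (by linarith) hC h
    have h2 : ∀ᶠ Y : ℝ in atTop, K ≤ Y ^ ((1 + θ) / 2 + ε - (1 + s) / 2) :=
      (tendsto_rpow_atTop (by linarith)).eventually (eventually_ge_atTop _)
    filter_upwards [hev, Real.tendsto_log_atTop.eventually (h2.and (eventually_ge_atTop 1))] with X g1 g2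
    refine g1.trans (Real.exp_le_exp.2 ?_)
    have g3 : Real.log X ^ ((1 + θ) / 2 + ε) =
        Real.log X ^ ((1 + θ) / 2 + ε - (1 + s) / 2) * Real.log X ^ ((1 + s) / 2) := by
      rw [← Real.rpow_add (by linarith [g2.2])]; congr 1; ring
    rw [g3]
    exact mul_le_mul_of_nonneg_right g2.1 (Real.rpow_nonneg (by linarith [g2.2]) _)
  · intro hE s hs hz
    have h2 := EX_lower_zero hz (by linarith) (c := (1 + θ) / 2 + (s.re - θ) / 3) (by linarith)
    have h3 := hE ((s.re - θ) / 6) (by linarith)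
    have h4 : ∀ᶠ X : ℝ in atTop, 1 < Real.log X := Real.tendsto_log_atTop.eventually (eventually_gt_atTop 1)
    obtain ⟨X, g1, g2, g3⟩ := (h2.and_eventually (h3.and h4)).exists
    have g4 := Real.exp_le_exp.1 (g1.trans g2)
    have g5 : Real.log X ^ ((1 + θ) / 2 + (s.re - θ) / 6) < Real.log X ^ ((1 + θ) / 2 + (s.re - θ) / 3) :=
      Real.rpow_lt_rpow_of_exponent_lt g3 (by linarith)
    linarith

end

end Pool.Agent.X112.RO
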