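import Pool.Agent.X112.RO.G

set_option autoImplicit false

/-!
# Exceptions to Robin's inequality: the unconditional upper bound
-/

open MeasureTheory Filter Topology Set

namespace Pool.Agent.X112.RO

noncomputable section

lemma rr_decK (K : ℕ) (hK : 1 ≤ K) : ∃ C v0 : ℝ, 0 < C ∧ 1 ≤ v0 ∧ ∀ v : ℝ, v0 ≤ v → |rr v| ≤ C / v ^ K := by
  obtain ⟨N1, hN1⟩ := Pool.Agent.W762.EC.PntA.large K hK
  obtain ⟨C, hC⟩ : ∃ C : ℝ, C = 35 + 16 * 8 ^ K := ⟨_, rfl⟩
  rw [← hC] at hN1
  have hC0 : 0 < C := by rw [hC]; positivity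
  have h1 : ∀ᶠ v : ℝ in atTop, v ^ K * Real.exp (-v) ≤ 1 := by
    have := Real.tendsto_pow_mul_exp_neg_atTop_nhds_zero K
    exact (this.eventually (gt_mem_nhds one_pos)).mono fun v hv => hv.le
  obtain ⟨v1, hv1⟩ := eventually_atTop.1 h1
  refine ⟨2 ^ K * C + 1, max (max v1 4) (Real.log (N1 + 1)), by positivity,
    le_trans (by norm_num) ((le_max_right v1 4).trans (le_max_left _ _)), fun v hv => ?_⟩
  have hv4 : 4 ≤ v := ((le_max_right v1 4).trans (le_max_left _ _)).trans hv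
  have hvv : v1 ≤ v := ((le_max_left v1 4).trans (le_max_left _ _)).trans hv
  have hvN : Real.log (N1 + 1) ≤ v := (le_max_right _ _).trans hv
  obtain ⟨N, hN⟩ : ∃ N, N = ⌊Real.exp v⌋₊ := ⟨_, rfl⟩
  have he : (N1 : ℝ) + 1 ≤ Real.exp v := (Real.log_le_iff_le_exp (by positivity)).1 hvN
  have hN1N : N1 ≤ N := by
    rw [hN]
    apply Nat.le_floor
    linarith
  have hNle : (N : ℝ) ≤ Real.exp v := by rw [hN]; exact Nat.floor_le (Real.exp_pos v).le
  have hNlt : Real.exp v < N + 1 := by rw [hN]; exact Nat.lt_floor_add_one _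
  have hexp4 : 4 ≤ Real.exp v := by
    have := Real.add_one_le_exp v
    linarith
  have hN3 : 3 < (N : ℝ) := by linarith
  have hlog : v / 2 ≤ Real.log N := by
    rw [Real.le_log_iff_exp_le (by linarith)]
    have e1 : Real.exp v = Real.exp (v / 2) ^ 2 := by
      rw [← Real.exp_nat_mul]; congr 1; push_cast; ring
    have e2 : 2 ≤ Real.exp (v / 2) := by
      have := Real.add_one_le_exp (v / 2)
      linarith
    have e3 : Real.exp v - 1 < N := by linarith
    rw [e1] at e3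
    nlinarith
  have h2 := hN1 N hN1N
  have h3 : Chebyshev.psi (Real.exp v) = Chebyshev.psi (N : ℝ) := by
    rw [Chebyshev.psi_eq_psi_coe_floor, ← hN]
  unfold rr
  rw [h3]
  have h4 : Chebyshev.psi (N : ℝ) * Real.exp (-v) - 1 = (Chebyshev.psi (N : ℝ) - Real.exp v) * Real.exp (-v) := by
    rw [sub_mul, exp_mul_neg]
  rw [h4, abs_mul, abs_of_pos (Real.exp_pos _)]
  have h5 : |Chebyshev.psi (N : ℝ) - Real.exp v| ≤ C * (N / Real.log N ^ K) + 1 := by
    have e1 : Chebyshev.psi (N : ℝ) - Real.exp v = (Chebyshev.psi (N : ℝ) - N) + (N - Real.exp v) := by ring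
    rw [e1]
    refine (abs_add_le _ _).trans (add_le_add h2 ?_)
    rw [abs_le]
    constructor <;> linarith
  have hv0 : 0 < v := by linarith
  have h6 : C * (N / Real.log N ^ K) ≤ 2 ^ K * C * (Real.exp v / v ^ K) := by
    have e1 : (v / 2) ^ K ≤ Real.log N ^ K := pow_le_pow_left₀ (by linarith) hlog K
    have e2 : (N : ℝ) / Real.log N ^ K ≤ Real.exp v / (v / 2) ^ K :=
      div_le_div₀ (Real.exp_pos v).le hNle (by positivity) e1
    have e3 : Real.exp v / (v / 2) ^ K = 2 ^ K * (Real.exp v / v ^ K) := by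
      rw [div_pow]; field_simp
    rw [e3] at e2
    have := mul_le_mul_of_nonneg_left e2 hC0.le
    linarith
  have h7 : Real.exp v * Real.exp (-v) = 1 := exp_mul_neg v
  have hvK : 0 < v ^ K := by positivity
  calc |Chebyshev.psi (N : ℝ) - Real.exp v| * Real.exp (-v) ≤
      (2 ^ K * C * (Real.exp v / v ^ K) + 1) * Real.exp (-v) :=
        mul_le_mul_of_nonneg_right (h5.trans (by linarith)) (Real.exp_pos _).le
    _ = 2 ^ K * C * (Real.exp v * Real.exp (-v)) / v ^ K + Real.exp (-v) := by ring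
    _ ≤ 2 ^ K * C * 1 / v ^ K + 1 / v ^ K := by
        rw [h7]
        have := hv1 v hvv
        have h8 : Real.exp (-v) ≤ 1 / v ^ K := by
          rw [le_div_iff₀ hvK]
          linarith
        linarith
    _ = (2 ^ K * C + 1) / v ^ K := by ring

lemma KQ_decK (K : ℕ) (hK : 1 ≤ K) : ∃ C v0 : ℝ, 0 < C ∧ 1 ≤ v0 ∧ ∀ u : ℝ, v0 ≤ u → |KQ u| ≤ C / u ^ K := by
  obtain ⟨C, v0, hC, hv0, h⟩ := rr_decK (K + 1) (by omega)
  obtain ⟨C', hC', h'⟩ := rr_sub_rt
  have h1 : ∀ᶠ v : ℝ in atTop, v ^ (K + 1) * Real.exp (-(v / 2)) ≤ 1 := by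
    have h2 := (Real.tendsto_pow_mul_exp_neg_atTop_nhds_zero (K + 1)).comp
      (tendsto_id.atTop_div_const (show (0 : ℝ) < 2 by norm_num))
    have h3 := h2.const_mul (2 ^ (K + 1))
    rw [mul_zero] at h3
    refine (h3.eventually (gt_mem_nhds one_pos)).mono fun v hv => ?_
    refine le_trans (le_of_eq ?_) hv.le
    simp only [Function.comp, id]
    rw [div_pow]
    field_simp
  obtain ⟨v1, hv1⟩ := eventually_atTop.1 h1
  refine ⟨2 * (C + C'), max v0 v1, by positivity, hv0.trans (le_max_left _ _), fun u hu => ?_⟩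
  have hu0 : v0 ≤ u := (le_max_left _ _).trans hu
  have hu1 : v1 ≤ u := (le_max_right _ _).trans hu
  have hupos : 0 < u := by linarith
  have hrt : ∀ v : ℝ, u < v → |rt v| ≤ (C + C') / v ^ (K + 1) := by
    intro v hv
    have hvpos : 0 < v := hupos.trans hv
    have g1 := abs_le.1 (h v (by linarith))
    have g2 := h' v
    have g3 := rt_le_rr v
    have g4 := hv1 v (by linarith)
    have g5 : Real.exp (-(v / 2)) ≤ 1 / v ^ (K + 1) := by
      rw [le_div_iff₀ (by positivity)]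
      linarith
    have g6 : C' * Real.exp (-(v / 2)) ≤ C' / v ^ (K + 1) := by
      have := mul_le_mul_of_nonneg_left g5 hC'.le
      rwa [mul_one_div] at this
    have g7 : 0 ≤ C' / v ^ (K + 1) := by positivity
    rw [add_div, abs_le]
    constructor <;> linarith
  have hpw : IntegrableOn (fun v : ℝ => v ^ (-((K : ℝ) + 1))) (Ioi u) :=
    integrableOn_Ioi_rpow_of_lt (by have : (1 : ℝ) ≤ K := by exact_mod_cast hK
                                    linarith) hupos
  have hK1 : (1 : ℝ) ≤ K := by exact_mod_cast hK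
  have hpwv : ∫ v in Ioi u, v ^ (-((K : ℝ) + 1)) ≤ 1 / u ^ K := by
    rw [integral_Ioi_rpow_of_lt (by linarith) hupos]
    have e1 : -((K : ℝ) + 1) + 1 = -(K : ℝ) := by ring
    rw [e1, Real.rpow_neg hupos.le, Real.rpow_natCast, neg_div_neg_eq]
    rw [div_le_iff₀ (by linarith), one_div]
    have : 0 ≤ (u ^ K)⁻¹ := by positivity
    nlinarith
  unfold KQ
  refine (abs_integral_le_integral_abs).trans ?_
  calc ∫ v in Ioi u, |kt v| ≤ ∫ v in Ioi u, 2 * (C + C') * v ^ (-((K : ℝ) + 1)) := by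
        refine setIntegral_mono_on (kt_ii hupos).norm (hpw.const_mul _) measurableSet_Ioi fun v hv => ?_
        have hv' : u < v := hv
        have hvpos : 0 < v := hupos.trans hv'
        unfold kt
        rw [abs_mul]
        have e1 : |(1 + v) / v ^ 2| ≤ 2 := by
          rw [abs_of_nonneg (by positivity), div_le_iff₀ (by positivity)]
          nlinarith
        have e2 : v ^ (-((K : ℝ) + 1)) = 1 / v ^ (K + 1) := by
          rw [Real.rpow_neg hvpos.le, one_div, ← Real.rpow_natCast]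
          push_cast
          rfl
        rw [e2]
        calc |rt v| * |(1 + v) / v ^ 2| ≤ ((C + C') / v ^ (K + 1)) * 2 :=
              mul_le_mul (hrt v hv') e1 (abs_nonneg _) (by positivity)
          _ = _ := by ring
    _ = 2 * (C + C') * ∫ v in Ioi u, v ^ (-((K : ℝ) + 1)) := by rw [integral_const_mul]
    _ ≤ 2 * (C + C') * (1 / u ^ K) := mul_le_mul_of_nonneg_left hpwv (by positivity)
    _ = 2 * (C + C') / u ^ K := by ring

lemma exc_subset' {X D Lr t0 : ℝ} (ht0 : 3 ≤ t0)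
    (h : ∀ n : ℕ, 0 < n → t0 ≤ Real.log n → (n : ℝ) ≤ X → Exc n →
      6 * (|KQ (Real.log (Real.log n))| + 6 / (Real.log n) ^ 2) * (Real.log n) ^ 2 ≤ D ∧
      2 * (|KQ (Real.log (Real.log n))| + 6 / (Real.log n) ^ 2) * (Real.log n * Real.log (Real.log n)) ≤ Lr) :
    EX X ≤ (⌊Real.exp t0⌋₊ + 1) + (⌊Real.log X⌋₊ + 1) * ((fam D).card * ((fam D).card * (⌊Real.exp Lr⌋₊ + 1))) := by
  classical
  have hsub : {n : ℕ | 1 ≤ n ∧ (n : ℝ) ≤ X ∧ Exc n} ⊆
      ((Finset.range (⌊Real.exp t0⌋₊ + 1) ∪ (Finset.range (⌊Real.log X⌋₊ + 1) ×ˢ (fam D ×ˢ (fam D ×ˢ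
        Finset.range (⌊Real.exp Lr⌋₊ + 1)))).image recon : Finset ℕ) : Set ℕ) := by
    rintro n ⟨h1, h2, h3⟩
    rw [Finset.mem_coe, Finset.mem_union]
    have hn0 : (0 : ℝ) < n := by exact_mod_cast h1
    by_cases hsmall : t0 ≤ Real.log n
    · right
      obtain ⟨S1, S2, r, g1, g2, g3, g4⟩ := struct (x := Real.log n) h1 rfl (ht0.trans hsmall) h3
      obtain ⟨b1, b2⟩ := h n h1 hsmall h2 h3
      rw [Finset.mem_image]
      refine ⟨_, ?_, g1.symm⟩
      rw [Finset.mem_product, Finset.mem_product, Finset.mem_product]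
      refine ⟨?_, mem_fam (g2.trans b1), mem_fam (g3.trans b1), ?_⟩
      · rw [Finset.mem_range, Nat.lt_succ_iff]
        exact Nat.floor_le_floor (Real.log_le_log hn0 h2)
      · rw [Finset.mem_range, Nat.lt_succ_iff]
        apply Nat.le_floor
        rcases Nat.eq_zero_or_pos r with hr | hr
        · rw [hr]
          simp only [Nat.cast_zero]
          exact (Real.exp_pos _).le
        · exact (Real.log_le_iff_le_exp (by exact_mod_cast hr)).1 (g4.trans b2)
    · left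
      rw [Finset.mem_range, Nat.lt_succ_iff]
      apply Nat.le_floor
      exact ((Real.log_lt_iff_lt_exp hn0).1 (not_le.1 hsmall)).le
  have h1 := Set.ncard_le_ncard hsub (Finset.finite_toSet _)
  rw [Set.ncard_coe_finset] at h1
  refine h1.trans ((Finset.card_union_le _ _).trans ?_)
  rw [Finset.card_range]
  refine Nat.add_le_add_left (Finset.card_image_le.trans ?_) _
  rw [Finset.card_product, Finset.card_product, Finset.card_product, Finset.card_range, Finset.card_range]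

/-- **The unconditional upper bound** -/
theorem EX_uncond (K : ℕ) : ∀ᶠ X : ℝ in atTop,
    (EX X : ℝ) ≤ Real.exp (Real.log X / (Real.log (Real.log X)) ^ K) := by
  obtain ⟨C, v0, hC, hv0, hKQ⟩ := KQ_decK (2 * K + 4) (by omega)
  obtain ⟨C2, hC2⟩ : ∃ C2 : ℝ, C2 = C * 2 ^ (2 * K + 4) + 6 := ⟨_, rfl⟩
  have hC20 : 0 < C2 := by rw [hC2]; positivity
  -- eventual inequalities in Y
  have ev1 : ∀ᶠ Y : ℝ in atTop, 64 * (Real.log Y) ^ K ≤ √Y ∧ (Real.log Y) ^ (2 * K + 4) ≤ Y := by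
    have e2 := (Real.isLittleO_pow_log_id_atTop (n := 2 * K + 4)).bound (show (0 : ℝ) < 1 by norm_num)
    have e3 := (Real.isLittleO_pow_log_id_atTop (n := 2 * K)).bound (show (0 : ℝ) < 1 / 64 ^ 2 by norm_num)
    filter_upwards [e2, e3, eventually_ge_atTop 1] with Y h2 h3 hY1
    have hl : 0 ≤ Real.log Y := Real.log_nonneg hY1
    rw [Real.norm_of_nonneg (pow_nonneg hl _), id, Real.norm_of_nonneg (by linarith)] at h2 h3
    refine ⟨Real.le_sqrt_of_sq_le ?_, by linarith⟩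
    have : (64 * Real.log Y ^ K) ^ 2 = 64 ^ 2 * Real.log Y ^ (2 * K) := by
      rw [mul_pow, ← pow_mul, mul_comm K 2]
    rw [this]
    linarith
  have ev2 : ∀ᶠ Y : ℝ in atTop, 2 * v0 + 2 + 64 * √(6 * C2) + 16 * C2 ≤ Real.log Y :=
    Real.tendsto_log_atTop.eventually (eventually_ge_atTop _)
  have ev := (ev1.and (ev2.and (eventually_ge_atTop 256)))
  filter_upwards [Real.tendsto_log_atTop.eventually ev, eventually_gt_atTop 0] with X hX hX0
  obtain ⟨Y, hY⟩ : ∃ Y, Y = Real.log X := ⟨_, rfl⟩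
  rw [← hY] at hX ⊢
  obtain ⟨⟨hY1, hY1'⟩, hY2, hY3⟩ := hX
  obtain ⟨l, hl⟩ : ∃ l, l = Real.log Y := ⟨_, rfl⟩
  rw [← hl] at hY1 hY1' hY2 ⊢
  have hY0 : 0 < Y := by linarith
  have hsC : 0 ≤ √(6 * C2) := Real.sqrt_nonneg _
  have hl1 : 1 ≤ l := by linarith
  have hl0 : 0 < l := by linarith
  have hsY : 16 ≤ √Y := by
    rw [show (16 : ℝ) = √(256 : ℝ) by rw [show (256 : ℝ) = 16 ^ 2 by norm_num, Real.sqrt_sq (by norm_num)]]
    exact Real.sqrt_le_sqrt hY3
  have hssY : √Y * √Y = Y := Real.mul_self_sqrt hY0.le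
  obtain ⟨W, hW⟩ : ∃ W, W = Y / l ^ K := ⟨_, rfl⟩
  have hWY : 64 * √Y ≤ W := by
    rw [hW, le_div_iff₀ (by positivity)]
    calc 64 * √Y * l ^ K = √Y * (64 * l ^ K) := by ring
      _ ≤ √Y * √Y := mul_le_mul_of_nonneg_left hY1 (Real.sqrt_nonneg _)
      _ = Y := hssY
  have hW1 : 1024 ≤ W := by linarith
  obtain ⟨D, hD⟩ : ∃ D, D = 6 * C2 * (Y / l ^ (K + 2)) ^ 2 := ⟨_, rfl⟩
  obtain ⟨Lr, hLr⟩ : ∃ Lr, Lr = 2 * C2 * (Y / l ^ (2 * K + 3)) := ⟨_, rfl⟩
  have hD0 : 0 < D := by rw [hD]; positivity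
  have hmain := exc_subset' (X := X) (D := D) (Lr := Lr) (t0 := √Y) (by linarith) (fun n hn hn3 hnX _ => by
    obtain ⟨x, hx⟩ : ∃ x, x = Real.log n := ⟨_, rfl⟩
    rw [← hx] at hn3 ⊢
    have hx0 : 0 < x := by linarith
    have hxY : x ≤ Y := by
      rw [hx, hY]; exact Real.log_le_log (by exact_mod_cast hn) hnX
    have hlxl : Real.log x ≤ l := by rw [hl]; exact Real.log_le_log hx0 hxY
    have hlx : l / 2 ≤ Real.log x := by
      have h1 := Real.log_le_log (by linarith) hn3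
      rw [Real.log_sqrt hY0.le, ← hl] at h1
      exact h1
    have hlxpos : 0 < Real.log x := by linarith
    have h1 := hKQ (Real.log x) (by linarith)
    have h2 : C / Real.log x ^ (2 * K + 4) ≤ C * 2 ^ (2 * K + 4) / l ^ (2 * K + 4) := by
      rw [div_le_div_iff₀ (by positivity) (by positivity), mul_assoc, ← mul_pow]
      exact mul_le_mul_of_nonneg_left (pow_le_pow_left₀ hl0.le (by linarith) _) hC.le
    have h3 : 6 / x ^ 2 ≤ 6 / l ^ (2 * K + 4) := by
      refine div_le_div_of_nonneg_left (by norm_num) (by positivity) ?_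
      have : Y ≤ x ^ 2 := by
        rw [← hssY]
        nlinarith
      linarith
    have h4 : |KQ (Real.log x)| + 6 / x ^ 2 ≤ C2 / l ^ (2 * K + 4) := by
      rw [hC2, add_div]
      linarith
    constructor
    · rw [hD]
      calc 6 * (|KQ (Real.log x)| + 6 / x ^ 2) * x ^ 2 ≤ 6 * (C2 / l ^ (2 * K + 4)) * Y ^ 2 := by
            refine mul_le_mul (by linarith) (pow_le_pow_left₀ hx0.le hxY 2) (by positivity) (by positivity)
        _ = 6 * C2 * (Y / l ^ (K + 2)) ^ 2 := by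
            rw [div_pow, ← pow_mul, show (K + 2) * 2 = 2 * K + 4 by ring]
            ring
    · rw [hLr]
      calc 2 * (|KQ (Real.log x)| + 6 / x ^ 2) * (x * Real.log x) ≤ 2 * (C2 / l ^ (2 * K + 4)) * (Y * l) := by
            refine mul_le_mul (by linarith) (mul_le_mul hxY hlxl hlxpos.le hY0.le) (by positivity) (by positivity)
        _ = 2 * C2 * (Y / l ^ (2 * K + 3)) := by
            rw [show 2 * K + 4 = (2 * K + 3) + 1 by ring, pow_succ]
            field_simp)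
  have hmain' : (EX X : ℝ) ≤ (⌊Real.exp (√Y)⌋₊ + 1) +
      (⌊Real.log X⌋₊ + 1) * ((fam D).card * ((fam D).card * (⌊Real.exp Lr⌋₊ + 1))) := by
    exact_mod_cast hmain
  rw [← hY] at hmain'
  have f1 := fam_card hD0
  have f2 : (⌊Y⌋₊ : ℝ) + 1 ≤ Real.exp (√Y) := by
    have e1 : (⌊Y⌋₊ : ℝ) ≤ Y := Nat.floor_le hY0.le
    have e2 : Real.exp (√Y) = Real.exp (√Y / 4) ^ 4 := by
      rw [← Real.exp_nat_mul]; congr 1; push_cast; ring
    have e3 := Real.add_one_le_exp (√Y / 4)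
    have e4 : (√Y / 4 + 1) ^ 4 ≤ Real.exp (√Y / 4) ^ 4 := pow_le_pow_left₀ (by positivity) e3 4
    have e5 : Y + 1 ≤ (√Y / 4 + 1) ^ 4 := by
      have e6 : (√Y / 4 + 1) ^ 4 = (√Y * √Y) ^ 2 / 256 + (√Y) ^ 3 / 16 + 6 * (√Y) ^ 2 / 16 + √Y + 1 := by ring
      rw [e6, hssY]
      have e7 : Y ≤ Y ^ 2 / 256 := by
        rw [le_div_iff₀ (by norm_num)]
        nlinarith
      have e8 : 0 ≤ (√Y) ^ 3 / 16 + 6 * (√Y) ^ 2 / 16 + √Y := by positivity
      linarith
    linarith
  have hLr0 : 0 ≤ Lr := by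
    rw [hLr]
    positivity
  have e2exp : 2 ≤ Real.exp 1 := by
    have := Real.add_one_le_exp 1
    linarith
  have f3 : (⌊Real.exp Lr⌋₊ : ℝ) + 1 ≤ Real.exp (Lr + 1) := by
    have e1 : (⌊Real.exp Lr⌋₊ : ℝ) ≤ Real.exp Lr := Nat.floor_le (Real.exp_pos _).le
    have e2 : 1 ≤ Real.exp Lr := Real.one_le_exp hLr0
    rw [Real.exp_add]
    nlinarith
  have f3' : (⌊Real.exp (√Y)⌋₊ : ℝ) + 1 ≤ Real.exp (√Y + 1) := by
    have e1 : (⌊Real.exp (√Y)⌋₊ : ℝ) ≤ Real.exp (√Y) := Nat.floor_le (Real.exp_pos _).le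
    have e2 : 1 ≤ Real.exp (√Y) := Real.one_le_exp (Real.sqrt_nonneg _)
    rw [Real.exp_add]
    nlinarith
  have f4 : (fam D).card * ((fam D).card * ((⌊Real.exp Lr⌋₊ : ℝ) + 1)) ≤
      Real.exp (2 * √D + 1) * (Real.exp (2 * √D + 1) * Real.exp (Lr + 1)) :=
    mul_le_mul f1 (mul_le_mul f1 f3 (by positivity) (by positivity)) (by positivity) (by positivity)
  have f5 : ((⌊Y⌋₊ : ℝ) + 1) * ((fam D).card * ((fam D).card * ((⌊Real.exp Lr⌋₊ : ℝ) + 1))) ≤
      Real.exp (√Y) * (Real.exp (2 * √D + 1) * (Real.exp (2 * √D + 1) * Real.exp (Lr + 1))) :=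
    mul_le_mul f2 f4 (by positivity) (by positivity)
  have f6 : Real.exp (√Y) * (Real.exp (2 * √D + 1) * (Real.exp (2 * √D + 1) * Real.exp (Lr + 1))) =
      Real.exp (√Y + 4 * √D + Lr + 3) := by
    rw [← Real.exp_add, ← Real.exp_add, ← Real.exp_add]; congr 1; ring
  rw [f6] at f5
  have hsD : √D ≤ W / 64 := by
    have e1 : √D = √(6 * C2) * (Y / l ^ (K + 2)) := by
      rw [hD, Real.sqrt_mul (by positivity), Real.sqrt_sq (by positivity)]
    have e2 : Y / l ^ (K + 2) = W / l ^ 2 := by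
      rw [hW, pow_add]; field_simp
    rw [e1, e2, mul_div_assoc', div_le_div_iff₀ (by positivity) (by norm_num)]
    have e3 : 64 * √(6 * C2) ≤ l ^ 2 := by nlinarith
    have := mul_le_mul_of_nonneg_left e3 (show 0 ≤ W by linarith)
    linarith
  have hLrW : Lr ≤ W / 8 := by
    have e1 : Y / l ^ (2 * K + 3) ≤ W / l := by
      rw [hW, div_div]
      refine div_le_div_of_nonneg_left hY0.le (by positivity) ?_
      rw [← pow_succ]
      exact pow_le_pow_right₀ hl1 (by omega)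
    have e2 : W / l * (16 * C2) ≤ W := by
      rw [div_mul_eq_mul_div, div_le_iff₀ hl0]
      exact mul_le_mul_of_nonneg_left (by linarith) (by linarith)
    rw [hLr]
    have e3 := mul_le_mul_of_nonneg_left e1 (show 0 ≤ 2 * C2 by positivity)
    linarith
  have g1 : Real.exp (√Y + 4 * √D + Lr + 3) ≤ Real.exp (W - 1) := Real.exp_le_exp.2 (by linarith)
  have g2 : Real.exp (√Y + 1) ≤ Real.exp (W - 1) := Real.exp_le_exp.2 (by linarith)
  have g3 : 2 * Real.exp (W - 1) ≤ Real.exp W := by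
    have e4 : Real.exp W = Real.exp 1 * Real.exp (W - 1) := by
      rw [← Real.exp_add]; congr 1; ring
    rw [e4]
    exact mul_le_mul_of_nonneg_right e2exp (Real.exp_pos _).le
  rw [← hW]
  linarith

end

end Pool.Agent.X112.RO
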